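import Mathlib

/-!
Quantitative algebraic dependence of `n + 2` polynomials in `n + 1` variables.
-/

namespace Pool.Agent.H69.UL

open MvPolynomial

attribute [local instance] Matrix.seminormedAddCommGroup

/-- quantitative algebraic dependence -/
theorem dependence (n L D B : ℕ) (G : Fin (n + 1) → MvPolynomial (Fin (n + 1)) ℤ)
    (N : MvPolynomial (Fin (n + 1)) ℤ)
    (hdeg : ∀ k i, degreeOf i (G k) ≤ 3) (hdegN : ∀ i, degreeOf i N ≤ 3)
    (hL : 2 * (3 * (n + 2)) ^ (n + 1) ≤ L) (hD : D = 3 * (n + 2) * L)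
    (hB : 1 ≤ B)
    (hG : ∀ k (z : Fin (n + 1) → Fin D), |eval (fun i => ((z i : ℕ) : ℤ)) (G k)| ≤ B)
    (hN : ∀ (z : Fin (n + 1) → Fin D), |eval (fun i => ((z i : ℕ) : ℤ)) N| ≤ B) :
    ∃ t : (Fin (n + 1) → Fin L) × Fin L → ℤ, t ≠ 0 ∧
      (∀ c, |(t c : ℝ)| ≤ (L : ℝ) ^ (n + 2) * (B : ℝ) ^ ((n + 2) * L)) ∧
      ∑ c, C (t c) * ((∏ k, G k ^ (c.1 k : ℕ)) * N ^ (c.2 : ℕ)) = 0 := by
  classical
  have hLpos : 0 < L := lt_of_lt_of_le (by positivity) hL
  have hDpos : 0 < D := by rw [hD]; positivity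
  set A : Matrix (Fin (n + 1) → Fin D) ((Fin (n + 1) → Fin L) × Fin L) ℤ := fun z c =>
    (∏ k, eval (fun i => ((z i : ℕ) : ℤ)) (G k) ^ (c.1 k : ℕ)) *
      eval (fun i => ((z i : ℕ) : ℤ)) N ^ (c.2 : ℕ) with hA
  have hcardα : Fintype.card (Fin (n + 1) → Fin D) = D ^ (n + 1) := by simp
  have hcardβ : Fintype.card ((Fin (n + 1) → Fin L) × Fin L) = L ^ (n + 2) := by
    simp [pow_succ]
  have h2 : 2 * D ^ (n + 1) ≤ L ^ (n + 2) := by
    rw [hD, mul_pow, ← mul_assoc]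
    calc 2 * (3 * (n + 2)) ^ (n + 1) * L ^ (n + 1) ≤ L * L ^ (n + 1) :=
          Nat.mul_le_mul_right _ hL
      _ = L ^ (n + 2) := by ring
  have hDn : 0 < D ^ (n + 1) := by positivity
  have hn : Fintype.card (Fin (n + 1) → Fin D) < Fintype.card ((Fin (n + 1) → Fin L) × Fin L) := by
    rw [hcardα, hcardβ]; omega
  have hm : 0 < Fintype.card (Fin (n + 1) → Fin D) := by rw [hcardα]; exact hDn
  obtain ⟨t, ht0, htA, htn⟩ := Int.Matrix.exists_ne_zero_int_vec_norm_le A hn hm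
  refine ⟨t, ht0, ?_, ?_⟩
  · intro c
    have hB1 : (1:ℝ) ≤ B := by exact_mod_cast hB
    have hL1 : (1:ℝ) ≤ L := by exact_mod_cast hLpos
    -- norm of the matrix
    have hAn : ‖A‖ ≤ (B:ℝ) ^ ((n + 2) * L) := by
      rw [Matrix.norm_le_iff (by positivity)]
      intro z c
      rw [Int.norm_eq_abs]
      have e1 : |((A z c : ℤ) : ℝ)| = (∏ k, |((eval (fun i => ((z i : ℕ) : ℤ)) (G k) : ℤ) : ℝ)| ^ (c.1 k : ℕ)) *
          |((eval (fun i => ((z i : ℕ) : ℤ)) N : ℤ) : ℝ)| ^ (c.2 : ℕ) := by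
        simp only [hA]
        push_cast
        rw [abs_mul, Finset.abs_prod, abs_pow]
        simp only [abs_pow]
      rw [e1]
      have hG' : ∀ k, |((eval (fun i => ((z i : ℕ) : ℤ)) (G k) : ℤ) : ℝ)| ≤ B := by
        intro k
        have := hG k z
        rw [← Int.cast_abs]
        exact_mod_cast this
      have hN' : |((eval (fun i => ((z i : ℕ) : ℤ)) N : ℤ) : ℝ)| ≤ B := by
        have := hN z
        rw [← Int.cast_abs]
        exact_mod_cast this
      have e2 : ∀ k, |((eval (fun i => ((z i : ℕ) : ℤ)) (G k) : ℤ) : ℝ)| ^ (c.1 k : ℕ) ≤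
          (B:ℝ) ^ L := by
        intro k
        calc _ ≤ (B:ℝ) ^ (c.1 k : ℕ) := pow_le_pow_left₀ (abs_nonneg _) (hG' k) _
          _ ≤ (B:ℝ) ^ L := pow_le_pow_right₀ hB1 (c.1 k).2.le
      have e3 : |((eval (fun i => ((z i : ℕ) : ℤ)) N : ℤ) : ℝ)| ^ (c.2 : ℕ) ≤ (B:ℝ) ^ L := by
        calc _ ≤ (B:ℝ) ^ (c.2 : ℕ) := pow_le_pow_left₀ (abs_nonneg _) hN' _
          _ ≤ (B:ℝ) ^ L := pow_le_pow_right₀ hB1 c.2.2.le
      calc _ ≤ (∏ _k : Fin (n + 1), (B:ℝ) ^ L) * (B:ℝ) ^ L := by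
            apply mul_le_mul _ e3 (by positivity) (by positivity)
            exact Finset.prod_le_prod (fun k _ => by positivity) (fun k _ => e2 k)
        _ = (B:ℝ) ^ ((n + 2) * L) := by
            rw [Finset.prod_const, Finset.card_univ, Fintype.card_fin, ← pow_succ, ← pow_mul]
            congr 1; ring
    have h1B : (1:ℝ) ≤ (B:ℝ) ^ ((n + 2) * L) := one_le_pow₀ hB1
    have hmax : max 1 ‖A‖ ≤ (B:ℝ) ^ ((n + 2) * L) := max_le h1B hAn
    have hbase : (1:ℝ) ≤ (Fintype.card ((Fin (n + 1) → Fin L) × Fin L) : ℝ) * max 1 ‖A‖ := by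
      rw [hcardβ]
      have h3 : (1:ℝ) ≤ ((L ^ (n + 2) : ℕ) : ℝ) := by
        push_cast; exact one_le_pow₀ hL1
      calc (1:ℝ) = 1 * 1 := by ring
        _ ≤ _ := mul_le_mul h3 (le_max_left _ _) (by norm_num) (by positivity)
    have hexp : ((Fintype.card (Fin (n + 1) → Fin D) : ℝ) /
        ((Fintype.card ((Fin (n + 1) → Fin L) × Fin L) : ℝ) -
          (Fintype.card (Fin (n + 1) → Fin D) : ℝ))) ≤ 1 := by
      rw [hcardα, hcardβ]
      have h3 : (2:ℝ) * ((D ^ (n + 1) : ℕ) : ℝ) ≤ ((L ^ (n + 2) : ℕ) : ℝ) := by exact_mod_cast h2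
      have h4 : (0:ℝ) < ((D ^ (n + 1) : ℕ) : ℝ) := by exact_mod_cast hDn
      rw [div_le_one (by linarith)]
      linarith
    have h5 : |(t c : ℝ)| ≤ ‖t‖ := by
      rw [← Int.norm_eq_abs]; exact norm_le_pi_norm t c
    calc |(t c : ℝ)| ≤ ‖t‖ := h5
      _ ≤ _ := htn
      _ ≤ ((Fintype.card ((Fin (n + 1) → Fin L) × Fin L) : ℝ) * max 1 ‖A‖) ^ (1:ℝ) :=
          Real.rpow_le_rpow_of_exponent_le hbase hexp
      _ = (Fintype.card ((Fin (n + 1) → Fin L) × Fin L) : ℝ) * max 1 ‖A‖ := Real.rpow_one _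
      _ ≤ (L : ℝ) ^ (n + 2) * (B : ℝ) ^ ((n + 2) * L) := by
          rw [hcardβ]; push_cast
          exact mul_le_mul_of_nonneg_left hmax (by positivity)
  · -- the polynomial vanishes on a large grid
    apply eq_zero_of_eval_zero_at_prod_finset _
      (fun _ => (Finset.range D).map ⟨fun a : ℕ => (a : ℤ), Nat.cast_injective⟩)
    · intro i
      rw [Finset.card_map, Finset.card_range]
      have hb : ∀ c : (Fin (n + 1) → Fin L) × Fin L,
          degreeOf i (C (t c) * ((∏ k, G k ^ (c.1 k : ℕ)) * N ^ (c.2 : ℕ))) ≤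
            3 * (n + 2) * (L - 1) := by
        intro c
        have h1 : ∀ k, degreeOf i (G k ^ (c.1 k : ℕ)) ≤ 3 * (L - 1) := by
          intro k
          calc degreeOf i (G k ^ (c.1 k : ℕ)) ≤ (c.1 k : ℕ) * degreeOf i (G k) :=
                degreeOf_pow_le _ _ _
            _ ≤ (L - 1) * 3 := Nat.mul_le_mul (by have := (c.1 k).2; omega) (hdeg k i)
            _ = 3 * (L - 1) := by ring
        have h3 : degreeOf i (N ^ (c.2 : ℕ)) ≤ 3 * (L - 1) := by
          calc degreeOf i (N ^ (c.2 : ℕ)) ≤ (c.2 : ℕ) * degreeOf i N :=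
                degreeOf_pow_le _ _ _
            _ ≤ (L - 1) * 3 := Nat.mul_le_mul (by have := c.2.2; omega) (hdegN i)
            _ = 3 * (L - 1) := by ring
        have h4 : degreeOf i (∏ k, G k ^ (c.1 k : ℕ)) ≤ (n + 1) * (3 * (L - 1)) := by
          calc _ ≤ ∑ k, degreeOf i (G k ^ (c.1 k : ℕ)) := degreeOf_prod_le _ _ _
            _ ≤ ∑ _k : Fin (n + 1), 3 * (L - 1) := Finset.sum_le_sum (fun k _ => h1 k)
            _ = (n + 1) * (3 * (L - 1)) := by simp
        calc _ ≤ degreeOf i (C (t c)) + degreeOf i ((∏ k, G k ^ (c.1 k : ℕ)) * N ^ (c.2 : ℕ)) :=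
              degreeOf_mul_le _ _ _
          _ ≤ 0 + ((n + 1) * (3 * (L - 1)) + 3 * (L - 1)) := by
              apply Nat.add_le_add
              · rw [degreeOf_C]
              · exact (degreeOf_mul_le _ _ _).trans (Nat.add_le_add h4 h3)
          _ = 3 * (n + 2) * (L - 1) := by ring
      calc _ ≤ Finset.univ.sup _ := degreeOf_sum_le _ _ _
        _ ≤ 3 * (n + 2) * (L - 1) := Finset.sup_le (fun c _ => hb c)
        _ < D := by
            rw [hD]
            exact Nat.mul_lt_mul_of_pos_left (by omega) (by omega)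
    · intro x hx
      have hx' : ∀ i, ∃ a : ℕ, a < D ∧ (a : ℤ) = x i := by
        intro i
        have := hx i
        rw [Finset.mem_map] at this
        obtain ⟨a, ha, hax⟩ := this
        exact ⟨a, Finset.mem_range.mp ha, hax⟩
      choose a ha hax using hx'
      have hxe : x = fun i => (((⟨a i, ha i⟩ : Fin D) : ℕ) : ℤ) := by
        funext i; rw [← hax]
      have h1 := congrFun htA (fun i => ⟨a i, ha i⟩)
      rw [Matrix.mulVec, dotProduct] at h1
      simp only [Pi.zero_apply, hA] at h1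
      rw [← hxe] at h1
      rw [map_sum]
      simp only [map_mul, map_prod, map_pow, eval_C]
      rw [← h1]
      exact Finset.sum_congr rfl (fun c _ => by ring)

end Pool.Agent.H69.UL
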