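import Mathlib
import Pool.Agent.H69.UL.Siegel

/-!
A solvable system of elementary equations has a solution of doubly exponential size.
-/

namespace Pool.Agent.H69.UL

open MvPolynomial Filter Topology

/-- elementary equations -/
inductive PCon (V : Type) where
  | one (a : V)
  | add (a b c : V)
  | mul (a b c : V)

/-- meaning of the equations -/
def PCon.Holds {V : Type} (y : V → ℝ) : PCon V → Prop
  | one a => y a = 1
  | add a b c => y a + y b = y c
  | mul a b c => y a * y b = y c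

/-! ### Cauchy bound -/

theorem cauchy_aux {a : ℕ → ℝ} {H z : ℝ} (hz : 1 + H < z) (hH : 0 ≤ H) :
    ∀ k, (∀ f < k, |a f| ≤ H) → |∑ f ∈ Finset.range k, a f * z ^ f| < z ^ k := by
  intro k
  induction k with
  | zero => intro _; simp
  | succ k ih =>
    intro h
    have h1 := ih (fun f hf => h f (by omega))
    have hz0 : 0 < z := by linarith
    rw [Finset.sum_range_succ]
    calc |∑ f ∈ Finset.range k, a f * z ^ f + a k * z ^ k|
        ≤ |∑ f ∈ Finset.range k, a f * z ^ f| + |a k * z ^ k| := abs_add_le _ _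
      _ < z ^ k + H * z ^ k := by
          apply add_lt_add_of_lt_of_le h1
          rw [abs_mul, abs_of_pos (pow_pos hz0 k)]
          exact mul_le_mul_of_nonneg_right (h k (by omega)) (pow_pos hz0 k).le
      _ = (1 + H) * z ^ k := by ring
      _ < z * z ^ k := mul_lt_mul_of_pos_right hz (pow_pos hz0 k)
      _ = z ^ (k + 1) := by ring

theorem cauchy_vanish {a : ℕ → ℝ} {H z : ℝ} (hz : 1 + H < z) (hH : 0 ≤ H)
    (hint : ∀ f, a f = 0 ∨ 1 ≤ |a f|) :
    ∀ k, (∀ f < k, |a f| ≤ H) → ∑ f ∈ Finset.range k, a f * z ^ f = 0 → ∀ f < k, a f = 0 := by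
  intro k
  induction k with
  | zero => intro _ _ f hf; omega
  | succ k ih =>
    intro h hs
    have hz0 : 0 < z := by linarith
    have h1 := cauchy_aux hz hH k (fun f hf => h f (by omega))
    rw [Finset.sum_range_succ] at hs
    have hk : a k = 0 := by
      rcases hint k with h2 | h2
      · exact h2
      · exfalso
        have h3 : ∑ f ∈ Finset.range k, a f * z ^ f = -(a k * z ^ k) := by linarith
        rw [h3, abs_neg, abs_mul, abs_of_pos (pow_pos hz0 k)] at h1
        have h4 : 0 < z ^ k := pow_pos hz0 k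
        nlinarith
    intro f hf
    rcases Nat.lt_succ_iff_lt_or_eq.mp hf with h2 | h2
    · refine ih (fun f hf => h f (by omega)) ?_ f h2
      rw [hk] at hs; simpa using hs
    · rw [h2]; exact hk

/-! ### equations as functions and polynomials -/

section

variable {n m : ℕ}

/-- Kronecker delta -/
def dl (a i : Fin n) : ℤ := if a = i then 1 else 0

/-- defect of an equation -/
def PCon.val (x : Fin n → ℝ) : PCon (Fin n) → ℝ
  | one a => x a - 1
  | add a b c => x a + x b - x c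
  | mul a b c => x a * x b - x c

/-- partial derivative of the defect -/
def PCon.dv (i : Fin n) (x : Fin n → ℝ) : PCon (Fin n) → ℝ
  | one a => dl a i
  | add a b c => dl a i + dl b i - dl c i
  | mul a b c => dl a i * x b + x a * dl b i - dl c i

/-- polynomial version of `val` -/
noncomputable def PCon.pv : PCon (Fin n) → MvPolynomial (Fin (n + 1)) ℤ
  | one a => X a.succ - 1
  | add a b c => X a.succ + X b.succ - X c.succ
  | mul a b c => X a.succ * X b.succ - X c.succ

/-- polynomial version of `dv` -/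
noncomputable def PCon.pd (i : Fin n) : PCon (Fin n) → MvPolynomial (Fin (n + 1)) ℤ
  | one a => C (dl a i)
  | add a b c => C (dl a i) + C (dl b i) - C (dl c i)
  | mul a b c => C (dl a i) * X b.succ + X a.succ * C (dl b i) - C (dl c i)

theorem holds_iff_val {x : Fin n → ℝ} {c : PCon (Fin n)} : c.Holds x ↔ c.val x = 0 := by
  cases c <;> simp [PCon.Holds, PCon.val, sub_eq_zero]

/-- evaluation at a real point -/
noncomputable def ev (μ : ℝ) (x : Fin n → ℝ) : MvPolynomial (Fin (n + 1)) ℤ →+* ℝ :=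
  eval₂Hom (Int.castRingHom ℝ) (Fin.cons μ x : Fin (n + 1) → ℝ)

theorem ev_X0 (μ : ℝ) (x : Fin n → ℝ) : ev μ x (X 0) = μ := by simp [ev]
theorem ev_Xs (μ : ℝ) (x : Fin n → ℝ) (i : Fin n) : ev μ x (X i.succ) = x i := by simp [ev]
theorem ev_C (μ : ℝ) (x : Fin n → ℝ) (a : ℤ) : ev μ x (C a) = a := by simp [ev]

theorem ev_pv (μ : ℝ) (x : Fin n → ℝ) (c : PCon (Fin n)) : ev μ x c.pv = c.val x := by
  cases c <;> simp [PCon.pv, PCon.val, ev_Xs]

theorem ev_pd (μ : ℝ) (x : Fin n → ℝ) (i : Fin n) (c : PCon (Fin n)) :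
    ev μ x (c.pd i) = c.dv i x := by
  cases c <;> simp [PCon.pd, PCon.dv, ev_Xs, ev_C]

/-- the generators -/
noncomputable def gen (c : Fin m → PCon (Fin n)) : Fin (n + 1) → MvPolynomial (Fin (n + 1)) ℤ :=
  Fin.cons (X 0) (fun i => X 0 * X i.succ + ∑ j, (c j).pv * (c j).pd i)

/-- squared norm -/
noncomputable def nrm (n : ℕ) : MvPolynomial (Fin (n + 1)) ℤ := ∑ i : Fin n, X i.succ ^ 2

theorem ev_gen0 (c : Fin m → PCon (Fin n)) (μ : ℝ) (x : Fin n → ℝ) : ev μ x (gen c 0) = μ := by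
  simp [gen, ev_X0]

theorem ev_gens (c : Fin m → PCon (Fin n)) (μ : ℝ) (x : Fin n → ℝ) (i : Fin n) :
    ev μ x (gen c i.succ) = μ * x i + ∑ j, (c j).val x * (c j).dv i x := by
  simp [gen, ev_X0, ev_Xs, ev_pv, ev_pd]

theorem ev_nrm (μ : ℝ) (x : Fin n → ℝ) : ev μ x (nrm n) = ∑ i, x i ^ 2 := by
  simp [nrm, ev_Xs]

theorem deg_X (i k : Fin (n + 1)) : degreeOf i (X k : MvPolynomial (Fin (n + 1)) ℤ) ≤ 1 := by
  rw [degreeOf_X]; split_ifs <;> omega

theorem deg_sub_le {i : Fin (n + 1)} {p q : MvPolynomial (Fin (n + 1)) ℤ} {a : ℕ}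
    (hp : degreeOf i p ≤ a) (hq : degreeOf i q ≤ a) : degreeOf i (p - q) ≤ a :=
  (degreeOf_sub_le i p q).trans (max_le hp hq)

theorem deg_add_le {i : Fin (n + 1)} {p q : MvPolynomial (Fin (n + 1)) ℤ} {a : ℕ}
    (hp : degreeOf i p ≤ a) (hq : degreeOf i q ≤ a) : degreeOf i (p + q) ≤ a :=
  (degreeOf_add_le i p q).trans (max_le hp hq)

theorem deg_mul_le {i : Fin (n + 1)} {p q : MvPolynomial (Fin (n + 1)) ℤ} {a b : ℕ}
    (hp : degreeOf i p ≤ a) (hq : degreeOf i q ≤ b) : degreeOf i (p * q) ≤ a + b :=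
  (degreeOf_mul_le i p q).trans (Nat.add_le_add hp hq)

theorem deg_pv (c : PCon (Fin n)) (i : Fin (n + 1)) : degreeOf i c.pv ≤ 2 := by
  cases c with
  | one a => exact deg_sub_le ((deg_X _ _).trans (by omega)) (by simp)
  | add a b c =>
    exact deg_sub_le (deg_add_le ((deg_X _ _).trans (by omega)) ((deg_X _ _).trans (by omega)))
      ((deg_X _ _).trans (by omega))
  | mul a b c =>
    exact deg_sub_le (deg_mul_le (deg_X _ _) (deg_X _ _)) ((deg_X _ _).trans (by omega))

theorem deg_pd (c : PCon (Fin n)) (k : Fin n) (i : Fin (n + 1)) : degreeOf i (c.pd k) ≤ 1 := by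
  have hC : ∀ a : ℤ, degreeOf i (C a : MvPolynomial (Fin (n + 1)) ℤ) ≤ 0 := by
    intro a; rw [degreeOf_C]
  have hC1 : ∀ a : ℤ, degreeOf i (C a : MvPolynomial (Fin (n + 1)) ℤ) ≤ 1 := by
    intro a; rw [degreeOf_C]; omega
  cases c with
  | one a => exact hC1 _
  | add a b c => exact deg_sub_le (deg_add_le (hC1 _) (hC1 _)) (hC1 _)
  | mul a b c =>
    exact deg_sub_le (deg_add_le ((deg_mul_le (hC _) (deg_X _ _)).trans (by omega))
      ((deg_mul_le (deg_X _ _) (hC _)).trans (by omega))) (hC1 _)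

theorem deg_gen (c : Fin m → PCon (Fin n)) (k i : Fin (n + 1)) : degreeOf i (gen c k) ≤ 3 := by
  refine Fin.cases ?_ (fun k => ?_) k
  · simp only [gen, Fin.cons_zero]; exact (deg_X _ _).trans (by omega)
  · simp only [gen, Fin.cons_succ]
    apply deg_add_le
    · exact (deg_mul_le (deg_X _ _) (deg_X _ _)).trans (by omega)
    · refine (degreeOf_sum_le _ _ _).trans (Finset.sup_le fun j _ => ?_)
      exact deg_mul_le (deg_pv _ _) (deg_pd _ _ _)

theorem deg_nrm (i : Fin (n + 1)) : degreeOf i (nrm n) ≤ 3 := by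
  refine (degreeOf_sum_le _ _ _).trans (Finset.sup_le fun j _ => ?_)
  refine (degreeOf_pow_le _ _ _).trans ?_
  have := deg_X i j.succ
  omega

/-! ### size on the grid -/

theorem grid_pv {D : ℕ} (z : Fin (n + 1) → ℤ) (hz : ∀ i, 0 ≤ z i ∧ z i < D) (c : PCon (Fin n)) :
    |eval z c.pv| ≤ 2 * (D:ℤ) ^ 2 := by
  cases c with
  | one a =>
    simp only [PCon.pv, map_sub, eval_X, map_one]
    have := hz a.succ
    rw [abs_le]; constructor <;> nlinarith
  | add a b c =>
    simp only [PCon.pv, map_sub, map_add, eval_X]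
    have := hz a.succ
    have := hz b.succ
    have := hz c.succ
    rw [abs_le]; constructor <;> nlinarith
  | mul a b c =>
    simp only [PCon.pv, map_sub, map_mul, eval_X]
    have h1 := hz a.succ
    have h2 := hz b.succ
    have h3 := hz c.succ
    have h4 : 0 ≤ z a.succ * z b.succ := mul_nonneg h1.1 h2.1
    have h5 : z a.succ * z b.succ ≤ (D:ℤ) * D := mul_le_mul h1.2.le h2.2.le h2.1 (by omega)
    rw [abs_le]; constructor <;> nlinarith

theorem dl_bd (a i : Fin n) : 0 ≤ dl a i ∧ dl a i ≤ 1 := by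
  unfold dl; split_ifs <;> omega

theorem grid_pd {D : ℕ} (z : Fin (n + 1) → ℤ) (hz : ∀ i, 0 ≤ z i ∧ z i < D) (c : PCon (Fin n))
    (i : Fin n) : |eval z (c.pd i)| ≤ 2 * (D:ℤ) := by
  have hD : 1 ≤ (D:ℤ) := by have := hz 0; omega
  cases c with
  | one a =>
    simp only [PCon.pd, eval_C]
    have := dl_bd a i
    rw [abs_le]; constructor <;> omega
  | add a b c =>
    simp only [PCon.pd, map_sub, map_add, eval_C]
    have := dl_bd a i
    have := dl_bd b i
    have := dl_bd c i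
    rw [abs_le]; constructor <;> omega
  | mul a b c =>
    simp only [PCon.pd, map_sub, map_add, map_mul, eval_C, eval_X]
    have h1 := dl_bd a i
    have h2 := dl_bd b i
    have h3 := dl_bd c i
    have h4 := hz a.succ
    have h5 := hz b.succ
    have h6 : 0 ≤ dl a i * z b.succ := mul_nonneg h1.1 h5.1
    have h7 : dl a i * z b.succ ≤ 1 * z b.succ := mul_le_mul_of_nonneg_right h1.2 h5.1
    have h8 : 0 ≤ z a.succ * dl b i := mul_nonneg h4.1 h2.1
    have h9 : z a.succ * dl b i ≤ z a.succ * 1 := mul_le_mul_of_nonneg_left h2.2 h4.1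
    rw [abs_le]; constructor <;> omega

theorem grid_gen {D : ℕ} (hD : 1 ≤ D) (z : Fin (n + 1) → ℤ) (hz : ∀ i, 0 ≤ z i ∧ z i < D)
    (c : Fin m → PCon (Fin n)) (k : Fin (n + 1)) :
    |eval z (gen c k)| ≤ (((1 + 4 * m + n) * D ^ 3 : ℕ) : ℤ) := by
  have hD1 : (1:ℤ) ≤ D := by exact_mod_cast hD
  have hD2 : (1:ℤ) ≤ (D:ℤ) ^ 2 := one_le_pow₀ hD1
  have hD3 : (D:ℤ) ≤ (D:ℤ) ^ 3 := by nlinarith
  have hD4 : (D:ℤ) ^ 2 ≤ (D:ℤ) ^ 3 := by nlinarith
  have hm0 : (0:ℤ) ≤ m := by omega
  have hn0 : (0:ℤ) ≤ n := by omega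
  refine Fin.cases ?_ (fun k => ?_) k
  · simp only [gen, Fin.cons_zero, eval_X]
    have := hz 0
    rw [abs_of_nonneg this.1]
    push_cast
    have h1 : (0:ℤ) ≤ (4 * m + n) * D ^ 3 := by positivity
    nlinarith
  · simp only [gen, Fin.cons_succ, map_add, map_mul, map_sum, eval_X]
    have h1 : |z 0 * z k.succ| ≤ (D:ℤ) ^ 2 := by
      have h2 := hz 0
      have h3 := hz k.succ
      rw [abs_of_nonneg (mul_nonneg h2.1 h3.1), sq]
      exact mul_le_mul h2.2.le h3.2.le h3.1 (by omega)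
    have h2 : |∑ j, eval z (c j).pv * eval z ((c j).pd k)| ≤ m * (4 * (D:ℤ) ^ 3) := by
      calc _ ≤ ∑ j, |eval z (c j).pv * eval z ((c j).pd k)| := Finset.abs_sum_le_sum_abs _ _
        _ ≤ ∑ _j : Fin m, 4 * (D:ℤ) ^ 3 := by
            apply Finset.sum_le_sum
            intro j _
            rw [abs_mul]
            calc _ ≤ (2 * (D:ℤ) ^ 2) * (2 * (D:ℤ)) :=
                  mul_le_mul (grid_pv z hz _) (grid_pd z hz _ _) (abs_nonneg _) (by positivity)
              _ = 4 * (D:ℤ) ^ 3 := by ring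
        _ = m * (4 * (D:ℤ) ^ 3) := by simp
    have h3 := abs_add_le (z 0 * z k.succ) (∑ j, eval z (c j).pv * eval z ((c j).pd k))
    push_cast
    have h4 : (0:ℤ) ≤ n * D ^ 3 := by positivity
    nlinarith

theorem grid_nrm {D : ℕ} (hD : 1 ≤ D) (z : Fin (n + 1) → ℤ) (hz : ∀ i, 0 ≤ z i ∧ z i < D) :
    |eval z (nrm n)| ≤ (((1 + 4 * m + n) * D ^ 3 : ℕ) : ℤ) := by
  have hD1 : (1:ℤ) ≤ D := by exact_mod_cast hD
  have hD4 : (D:ℤ) ^ 2 ≤ (D:ℤ) ^ 3 := by nlinarith [sq_nonneg (D:ℤ)]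
  simp only [nrm, map_sum, map_pow, eval_X]
  calc _ ≤ ∑ j : Fin n, |z j.succ ^ 2| := Finset.abs_sum_le_sum_abs _ _
    _ ≤ ∑ _j : Fin n, (D:ℤ) ^ 3 := by
        apply Finset.sum_le_sum
        intro j _
        have h3 := hz j.succ
        rw [abs_of_nonneg (sq_nonneg _)]
        nlinarith
    _ = n * (D:ℤ) ^ 3 := by simp
    _ ≤ _ := by
        push_cast
        have h4 : (0:ℤ) ≤ (1 + 4 * m) * D ^ 3 := by positivity
        nlinarith

end

end Pool.Agent.H69.UL
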