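import Mathlib
import Pool.Agent.H69.UL.Ball

/-!
Perturbed minimizers and the size of a solution.
-/

namespace Pool.Agent.H69.UL

open Filter Topology

variable {n m : ℕ}

/-- perturbed objective -/
noncomputable def obj (c : Fin m → PCon (Fin n)) (μ : ℝ) (b : Fin n → ℝ) (x : Fin n → ℝ) : ℝ :=
  μ * ∑ i, x i ^ 2 + ∑ j, (c j).val x ^ 2 - 2 * ∑ i, b i * x i

theorem continuous_val (c : PCon (Fin n)) : Continuous (fun x : Fin n → ℝ => c.val x) := by
  cases c <;> simp only [PCon.val] <;> fun_prop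

theorem continuous_obj (c : Fin m → PCon (Fin n)) (μ : ℝ) (b : Fin n → ℝ) :
    Continuous (obj c μ b) := by
  unfold obj
  have h := fun j => continuous_val (c j)
  fun_prop

theorem hasDerivAt_coord (x : Fin n → ℝ) (i a : Fin n) :
    HasDerivAt (fun s : ℝ => x a + s * (dl a i : ℝ)) (dl a i) 0 := by
  simpa using ((hasDerivAt_id (0:ℝ)).mul_const (dl a i : ℝ)).const_add (x a)

theorem hasDerivAt_val (c : PCon (Fin n)) (x : Fin n → ℝ) (i : Fin n) :
    HasDerivAt (fun s : ℝ => c.val (fun a => x a + s * (dl a i : ℝ))) (c.dv i x) 0 := by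
  cases c with
  | one a =>
    simp only [PCon.val, PCon.dv]
    exact (hasDerivAt_coord x i a).sub_const 1
  | add a b c =>
    simp only [PCon.val, PCon.dv]
    exact ((hasDerivAt_coord x i a).add (hasDerivAt_coord x i b)).sub (hasDerivAt_coord x i c)
  | mul a b c =>
    simp only [PCon.val, PCon.dv]
    have h := ((hasDerivAt_coord x i a).fun_mul (hasDerivAt_coord x i b)).fun_sub
      (hasDerivAt_coord x i c)
    simpa using h

theorem hasDerivAt_obj (c : Fin m → PCon (Fin n)) (μ : ℝ) (b : Fin n → ℝ) (x : Fin n → ℝ)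
    (i : Fin n) :
    HasDerivAt (fun s : ℝ => obj c μ b (fun a => x a + s * (dl a i : ℝ)))
      (2 * (μ * x i + ∑ j, (c j).val x * (c j).dv i x - b i)) 0 := by
  unfold obj
  have h1 : HasDerivAt (fun s : ℝ => ∑ a, (x a + s * (dl a i : ℝ)) ^ 2)
      (∑ a, 2 * x a * (dl a i : ℝ)) 0 := by
    apply HasDerivAt.fun_sum
    intro a _
    have := (hasDerivAt_coord x i a).fun_pow 2
    simpa using this
  have h2 : HasDerivAt (fun s : ℝ => ∑ j, (c j).val (fun a => x a + s * (dl a i : ℝ)) ^ 2)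
      (∑ j, 2 * (c j).val x * (c j).dv i x) 0 := by
    apply HasDerivAt.fun_sum
    intro j _
    have := (hasDerivAt_val (c j) x i).fun_pow 2
    simpa using this
  have h3 : HasDerivAt (fun s : ℝ => ∑ a, b a * (x a + s * (dl a i : ℝ)))
      (∑ a, b a * (dl a i : ℝ)) 0 := by
    apply HasDerivAt.fun_sum
    intro a _
    exact (hasDerivAt_coord x i a).const_mul (b a)
  have h4 := ((h1.const_mul μ).add h2).sub (h3.const_mul 2)
  refine h4.congr_deriv ?_
  have e1 : ∑ a, 2 * x a * (dl a i : ℝ) = 2 * x i := by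
    simp [dl]
  have e2 : ∑ a, b a * (dl a i : ℝ) = b i := by
    simp [dl]
  have e3 : ∑ j, 2 * (c j).val x * (c j).dv i x = 2 * ∑ j, (c j).val x * (c j).dv i x := by
    rw [Finset.mul_sum]; exact Finset.sum_congr rfl (fun j _ => by ring)
  rw [e1, e2, e3]; ring

/-- perturbed critical points -/
theorem exists_critical (c : Fin m → PCon (Fin n)) (ξ : Fin n → ℝ) (hξ : ∀ j, (c j).val ξ = 0) :
    ∃ R : ℝ, 0 < R ∧ ∀ μ : ℝ, 0 < μ → μ ≤ 1 / 4 → ∀ b : Fin n → ℝ,
      (∀ i, 0 ≤ b i ∧ b i ≤ μ ^ 2) →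
      ∃ x : Fin n → ℝ, (∀ i, |x i| ≤ R) ∧
        (∀ i, μ * x i + ∑ j, (c j).val x * (c j).dv i x = b i) ∧
        ∑ j, (c j).val x ^ 2 ≤ R * μ := by
  classical
  set K : ℝ := ∑ i, ξ i ^ 2 + n / 4 + ∑ i, |ξ i| with hK
  have hK0 : 0 ≤ K := by positivity
  set R : ℝ := 4 / 3 * K + 1 + ∑ i, |ξ i| with hR
  have hs0 : 0 ≤ ∑ i, |ξ i| := by positivity
  have hR1 : 1 ≤ R := by linarith
  refine ⟨R, by linarith, fun μ hμ0 hμ1 b hb => ?_⟩
  have hcomp : IsCompact (Metric.closedBall (0 : Fin n → ℝ) R) := isCompact_closedBall _ _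
  have hξR : ξ ∈ Metric.closedBall (0 : Fin n → ℝ) R := by
    rw [mem_closedBall_zero_iff, pi_norm_le_iff_of_nonneg (by linarith)]
    intro i
    rw [Real.norm_eq_abs]
    have : |ξ i| ≤ ∑ i, |ξ i| := Finset.single_le_sum (f := fun i => |ξ i|)
      (fun i _ => abs_nonneg _) (Finset.mem_univ i)
    linarith
  obtain ⟨x, hxR, hx⟩ := hcomp.exists_isMinOn ⟨ξ, hξR⟩ (continuous_obj c μ b).continuousOn
  have h1 : obj c μ b x ≤ obj c μ b ξ := hx hξR
  -- size estimate
  have h2 : μ * (3 / 4 * ∑ i, x i ^ 2) + ∑ j, (c j).val x ^ 2 ≤ μ * K := by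
    unfold obj at h1
    have e1 : ∑ j, (c j).val ξ ^ 2 = 0 := Finset.sum_eq_zero (fun j _ => by rw [hξ j]; ring)
    rw [e1] at h1
    have e2 : 2 * ∑ i, b i * x i ≤ μ * (1 / 4 * ∑ i, x i ^ 2 + n / 4) := by
      have e3 : ∀ i, 2 * (b i * x i) ≤ μ * (1 / 4 * x i ^ 2 + 1 / 4) := by
        intro i
        have h3 : b i * x i ≤ μ ^ 2 * |x i| := by
          calc b i * x i ≤ b i * |x i| := mul_le_mul_of_nonneg_left (le_abs_self _) (hb i).1
            _ ≤ μ ^ 2 * |x i| := mul_le_mul_of_nonneg_right (hb i).2 (abs_nonneg _)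
        have h4 : |x i| ≤ (x i ^ 2 + 1) / 2 := by
          have := sq_nonneg (|x i| - 1)
          rw [sub_sq, sq_abs] at this
          linarith
        have h5 : μ ^ 2 ≤ μ * (1 / 4) := by nlinarith
        have h6 : μ ^ 2 * |x i| ≤ μ * (1 / 4) * ((x i ^ 2 + 1) / 2) :=
          mul_le_mul h5 h4 (abs_nonneg _) (by positivity)
        nlinarith
      calc 2 * ∑ i, b i * x i = ∑ i, 2 * (b i * x i) := Finset.mul_sum _ _ _
        _ ≤ ∑ i, μ * (1 / 4 * x i ^ 2 + 1 / 4) := Finset.sum_le_sum (fun i _ => e3 i)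
        _ = μ * (1 / 4 * ∑ i, x i ^ 2 + n / 4) := by
          rw [← Finset.mul_sum, Finset.sum_add_distrib, ← Finset.mul_sum, Finset.sum_const,
            Finset.card_univ, Fintype.card_fin, nsmul_eq_mul]
          ring
    have e4 : - (2 * ∑ i, b i * ξ i) ≤ μ * ∑ i, |ξ i| := by
      have e3 : ∀ i, - (2 * (b i * ξ i)) ≤ μ * |ξ i| := by
        intro i
        have h3 : - (b i * ξ i) ≤ μ ^ 2 * |ξ i| := by
          calc - (b i * ξ i) = b i * (- ξ i) := by ring
            _ ≤ b i * |ξ i| := mul_le_mul_of_nonneg_left (neg_le_abs _) (hb i).1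
            _ ≤ μ ^ 2 * |ξ i| := mul_le_mul_of_nonneg_right (hb i).2 (abs_nonneg _)
        have h5 : μ ^ 2 ≤ μ * (1 / 4) := by nlinarith
        nlinarith [abs_nonneg (ξ i), mul_nonneg hμ0.le (abs_nonneg (ξ i)),
          mul_le_mul_of_nonneg_right h5 (abs_nonneg (ξ i))]
      calc - (2 * ∑ i, b i * ξ i) = ∑ i, - (2 * (b i * ξ i)) := by
            rw [Finset.mul_sum, ← Finset.sum_neg_distrib]
        _ ≤ ∑ i, μ * |ξ i| := Finset.sum_le_sum (fun i _ => e3 i)
        _ = μ * ∑ i, |ξ i| := (Finset.mul_sum _ _ _).symm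
    rw [hK]
    nlinarith
  have hv0 : 0 ≤ ∑ j, (c j).val x ^ 2 := Finset.sum_nonneg (fun j _ => sq_nonneg _)
  have hx0 : 0 ≤ ∑ i, x i ^ 2 := Finset.sum_nonneg (fun j _ => sq_nonneg _)
  have h3 : ∑ i, x i ^ 2 ≤ 4 / 3 * K := by
    have : μ * (3 / 4 * ∑ i, x i ^ 2) ≤ μ * K := by linarith
    have := le_of_mul_le_mul_left this hμ0
    linarith
  have h4 : ∑ j, (c j).val x ^ 2 ≤ R * μ := by
    have h5 : 0 ≤ μ * (3 / 4 * ∑ i, x i ^ 2) := by positivity
    have h6 : K ≤ R := by linarith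
    nlinarith
  have h5 : ∀ i, |x i| < R := by
    intro i
    have h6 : x i ^ 2 ≤ ∑ i, x i ^ 2 := Finset.single_le_sum (f := fun i => x i ^ 2)
      (fun i _ => sq_nonneg _) (Finset.mem_univ i)
    have h7 : x i ^ 2 < R ^ 2 := by nlinarith
    exact abs_lt_of_sq_lt_sq h7 (by linarith)
  refine ⟨x, fun i => (h5 i).le, fun i => ?_, h4⟩
  -- criticality
  have hmin : IsLocalMin (fun s : ℝ => obj c μ b (fun a => x a + s * (dl a i : ℝ))) 0 := by
    have h6 : ∀ᶠ s in 𝓝 (0:ℝ), ∀ a, |x a + s * (dl a i : ℝ)| < R := by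
      rw [Filter.eventually_all]
      intro a
      have hc : ContinuousAt (fun s : ℝ => |x a + s * (dl a i : ℝ)|) 0 := by fun_prop
      exact hc.eventually_lt_const (by simpa using h5 a)
    filter_upwards [h6] with s hs
    have h7 : (fun a => x a + s * (dl a i : ℝ)) ∈ Metric.closedBall (0 : Fin n → ℝ) R := by
      rw [mem_closedBall_zero_iff, pi_norm_le_iff_of_nonneg (by linarith)]
      intro a
      rw [Real.norm_eq_abs]; exact (hs a).le
    have h8 : obj c μ b x ≤ obj c μ b (fun a => x a + s * (dl a i : ℝ)) := hx h7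
    simpa using h8
  have h6 := hmin.hasDerivAt_eq_zero (hasDerivAt_obj c μ b x i)
  linarith

/-- a solvable system has a solution of controlled size -/
theorem ball_fin (c : Fin m → PCon (Fin n)) (ξ : Fin n → ℝ) (hξ : ∀ j, (c j).val ξ = 0)
    (L D B : ℕ) (hL : L = 2 * (3 * (n + 2)) ^ (n + 1)) (hD : D = 3 * (n + 2) * L)
    (hB : B = (1 + 4 * m + n) * D ^ 3) :
    ∃ x : Fin n → ℝ, (∀ j, (c j).val x = 0) ∧
      ∀ i, x i ^ 2 ≤ 1 + (L : ℝ) ^ (n + 2) * (B : ℝ) ^ ((n + 2) * L) := by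
  classical
  have hLpos : 0 < L := by rw [hL]; positivity
  have hL2 : 2 ≤ L := by
    rw [hL]
    have : 1 ≤ (3 * (n + 2)) ^ (n + 1) := Nat.one_le_iff_ne_zero.mpr (by positivity)
    omega
  have hDpos : 0 < D := by rw [hD]; positivity
  have hB1 : 1 ≤ B := by
    rw [hB]; exact Nat.one_le_iff_ne_zero.mpr (by positivity)
  have hzz : ∀ z : Fin (n + 1) → Fin D, ∀ i, (0:ℤ) ≤ ((z i : ℕ) : ℤ) ∧ ((z i : ℕ) : ℤ) < D := by
    intro z i
    have := (z i).2
    omega
  obtain ⟨t, ht0, htb, hts⟩ := dependence n L D B (gen c) (nrm n) (fun k i => deg_gen c k i)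
    deg_nrm hL.ge hD hB1
    (fun k z => by rw [hB]; exact grid_gen hDpos _ (hzz z) c k)
    (fun z => by rw [hB]; exact grid_nrm hDpos _ (hzz z))
  set H : ℝ := (L : ℝ) ^ (n + 2) * (B : ℝ) ^ ((n + 2) * L) with hH
  have hH0 : 0 ≤ H := by positivity
  obtain ⟨R, hR0, hR⟩ := exists_critical c ξ hξ
  -- the sequence of parameters
  set μ : ℕ → ℝ := fun k => 1 / ((k : ℝ) + 4) with hμ
  have hμ0 : ∀ k, 0 < μ k := fun k => by simp only [hμ]; positivity
  have hμ1 : ∀ k, μ k ≤ 1 / 4 := by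
    intro k
    simp only [hμ]
    apply one_div_le_one_div_of_le (by norm_num)
    have : (0:ℝ) ≤ k := Nat.cast_nonneg k
    linarith
  have hμt : Tendsto μ atTop (𝓝 0) := by
    have h1 := tendsto_one_div_add_atTop_nhds_zero_nat (𝕜 := ℝ)
    refine squeeze_zero (fun k => (hμ0 k).le) (fun k => ?_) h1
    simp only [hμ]
    apply one_div_le_one_div_of_le (by positivity)
    linarith
  have hxe : ∀ k, ∃ x : Fin n → ℝ, (∀ i, |x i| ≤ R) ∧
        (∀ i, μ k * x i + ∑ j, (c j).val x * (c j).dv i x = μ k ^ (L ^ (i.val + 1))) ∧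
        ∑ j, (c j).val x ^ 2 ≤ R * μ k := by
    intro k
    apply hR (μ k) (hμ0 k) (hμ1 k)
    intro i
    have h1 : 2 ≤ L ^ (i.val + 1) := by
      calc 2 ≤ L := hL2
        _ = L ^ 1 := (pow_one L).symm
        _ ≤ L ^ (i.val + 1) := Nat.pow_le_pow_right hLpos (by omega)
    exact ⟨(pow_pos (hμ0 k) _).le, pow_le_pow_of_le_one (hμ0 k).le ((hμ1 k).trans (by norm_num)) h1⟩
  choose x hx1 hx2 hx3 using hxe
  have hball : ∀ k, x k ∈ Metric.closedBall (0 : Fin n → ℝ) R := by
    intro k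
    rw [mem_closedBall_zero_iff, pi_norm_le_iff_of_nonneg hR0.le]
    intro i; rw [Real.norm_eq_abs]; exact hx1 k i
  obtain ⟨x0, _, φ, hφ, hlim⟩ := (isCompact_closedBall (0 : Fin n → ℝ) R).tendsto_subseq hball
  have hμφ : Tendsto (fun k => μ (φ k)) atTop (𝓝 0) := hμt.comp hφ.tendsto_atTop
  refine ⟨x0, ?_, ?_⟩
  · -- zero of the system
    have h1 : Tendsto (fun k => ∑ j, (c j).val (x (φ k)) ^ 2) atTop
        (𝓝 (∑ j, (c j).val x0 ^ 2)) := by
      apply tendsto_finsetSum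
      intro j _
      exact (((continuous_val (c j)).tendsto x0).comp hlim).pow 2
    have h2 : Tendsto (fun k => R * μ (φ k)) atTop (𝓝 0) := by
      simpa using hμφ.const_mul R
    have h3 : ∑ j, (c j).val x0 ^ 2 ≤ 0 := le_of_tendsto_of_tendsto' h1 h2 (fun k => hx3 (φ k))
    have h4 : ∑ j, (c j).val x0 ^ 2 = 0 :=
      le_antisymm h3 (Finset.sum_nonneg (fun j _ => sq_nonneg _))
    intro j
    have := (Finset.sum_eq_zero_iff_of_nonneg (fun j _ => sq_nonneg _)).mp h4 j (Finset.mem_univ j)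
    exact pow_eq_zero_iff two_ne_zero |>.mp this
  · -- size
    set κ : (Fin (n + 1) → Fin L) → ℕ := fun e => (finFunctionFinEquiv e : ℕ) with hκ
    have hκinj : Function.Injective κ := by
      intro a b hab
      exact finFunctionFinEquiv.injective (Fin.ext hab)
    -- the relation along the sequence
    have hrel : ∀ k, ∑ cc : (Fin (n + 1) → Fin L) × Fin L,
        (t cc : ℝ) * (μ k ^ κ cc.1 * (∑ i, x k i ^ 2) ^ (cc.2 : ℕ)) = 0 := by
      intro k
      have h1 := congrArg (ev (μ k) (x k)) hts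
      rw [map_sum, map_zero] at h1
      rw [← h1]
      refine Finset.sum_congr rfl (fun cc _ => ?_)
      rw [map_mul, map_mul, map_prod, map_pow, ev_nrm, ev_C]
      congr 2
      have h2 : ∀ i : Fin (n + 1), ev (μ k) (x k) (gen c i ^ (cc.1 i : ℕ)) =
          μ k ^ ((cc.1 i : ℕ) * L ^ (i : ℕ)) := by
        intro i
        rw [map_pow]
        refine Fin.cases ?_ (fun i => ?_) i
        · rw [ev_gen0]; simp
        · rw [ev_gens, hx2 k i, ← pow_mul, Fin.val_succ, mul_comm]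
      rw [Finset.prod_congr rfl (fun i _ => h2 i), Finset.prod_pow_eq_pow_sum]
      congr 1
    -- the lowest order
    have hex : ∃ cc, t cc ≠ 0 := by
      by_contra h
      push Not at h
      exact ht0 (funext h)
    have hex' : ∃ v : ℕ, ∃ cc, t cc ≠ 0 ∧ κ cc.1 = v := by
      obtain ⟨cc, h⟩ := hex; exact ⟨_, cc, h, rfl⟩
    set v := Nat.find hex' with hv
    obtain ⟨c0, hc0, hc0v⟩ := Nat.find_spec hex'
    have hmin : ∀ cc, t cc ≠ 0 → v ≤ κ cc.1 := fun cc h => Nat.find_min' hex' ⟨cc, h, rfl⟩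
    have hrel2 : ∀ k, ∑ cc : (Fin (n + 1) → Fin L) × Fin L,
        (t cc : ℝ) * (μ k ^ (κ cc.1 - v) * (∑ i, x k i ^ 2) ^ (cc.2 : ℕ)) = 0 := by
      intro k
      have h1 : μ k ^ v * ∑ cc : (Fin (n + 1) → Fin L) × Fin L,
          (t cc : ℝ) * (μ k ^ (κ cc.1 - v) * (∑ i, x k i ^ 2) ^ (cc.2 : ℕ)) = 0 := by
        rw [← hrel k, Finset.mul_sum]
        refine Finset.sum_congr rfl (fun cc _ => ?_)
        by_cases htc : t cc = 0
        · simp [htc]
        · have h2 : μ k ^ κ cc.1 = μ k ^ v * μ k ^ (κ cc.1 - v) := by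
            rw [← pow_add]; congr 1; have := hmin cc htc; omega
          rw [h2]; ring
      exact (mul_eq_zero.mp h1).resolve_left (pow_pos (hμ0 k) _).ne'
    -- the limit
    set N0 := ∑ i, x0 i ^ 2 with hN0
    have hN : Tendsto (fun k => ∑ i, x (φ k) i ^ 2) atTop (𝓝 N0) := by
      apply tendsto_finsetSum
      intro i _
      exact (((continuous_apply i).tendsto x0).comp hlim).pow 2
    have hlim2 : Tendsto (fun k => ∑ cc : (Fin (n + 1) → Fin L) × Fin L,
        (t cc : ℝ) * (μ (φ k) ^ (κ cc.1 - v) * (∑ i, x (φ k) i ^ 2) ^ (cc.2 : ℕ))) atTop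
        (𝓝 (∑ cc : (Fin (n + 1) → Fin L) × Fin L,
          (t cc : ℝ) * ((0:ℝ) ^ (κ cc.1 - v) * N0 ^ (cc.2 : ℕ)))) := by
      apply tendsto_finsetSum
      intro cc _
      exact ((hμφ.pow _).mul (hN.pow _)).const_mul _
    have hz : ∑ cc : (Fin (n + 1) → Fin L) × Fin L,
        (t cc : ℝ) * ((0:ℝ) ^ (κ cc.1 - v) * N0 ^ (cc.2 : ℕ)) = 0 := by
      refine tendsto_nhds_unique hlim2 ?_
      have : (fun k => ∑ cc : (Fin (n + 1) → Fin L) × Fin L,
        (t cc : ℝ) * (μ (φ k) ^ (κ cc.1 - v) * (∑ i, x (φ k) i ^ 2) ^ (cc.2 : ℕ))) = fun _ => 0 :=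
        funext fun k => hrel2 (φ k)
      rw [this]; exact tendsto_const_nhds
    -- only one block survives
    have hz2 : ∑ f : Fin L, (t (c0.1, f) : ℝ) * N0 ^ (f : ℕ) = 0 := by
      rw [Fintype.sum_prod_type, Finset.sum_eq_single c0.1] at hz
      · have h1 : κ c0.1 - v = 0 := by rw [hc0v, ← hv]; exact Nat.sub_self v
        simpa [h1] using hz
      · intro e _ he
        apply Finset.sum_eq_zero
        intro f _
        by_cases htc : t (e, f) = 0
        · simp [htc]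
        · have h1 := hmin _ htc
          have h2 : κ e ≠ v := fun h => he (hκinj (h.trans hc0v.symm))
          have h3 : κ e - v ≠ 0 := by
            have h4 : v ≤ κ e := h1
            omega
          simp [h3]
      · simp
    -- conclude by the Cauchy bound
    have hN0le : N0 ≤ 1 + H := by
      by_contra hcon
      push Not at hcon
      have h1 := cauchy_vanish (a := fun f => if h : f < L then (t (c0.1, ⟨f, h⟩) : ℝ) else 0)
        hcon hH0 (by
          intro f
          by_cases h : f < L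
          · simp only [h, dite_true]
            by_cases htc : t (c0.1, ⟨f, h⟩) = 0
            · left; rw [htc]; simp
            · right
              have : (1:ℤ) ≤ |t (c0.1, ⟨f, h⟩)| := Int.one_le_abs htc
              have h2 : ((1:ℤ):ℝ) ≤ ((|t (c0.1, ⟨f, h⟩)| : ℤ) : ℝ) := by exact_mod_cast this
              rwa [Int.cast_one, Int.cast_abs] at h2
          · left; simp [h]) L (by
          intro f hf
          simp only [hf, dite_true]
          exact htb _) (by
          rw [← Fin.sum_univ_eq_sum_range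
            (fun f => (if h : f < L then (t (c0.1, ⟨f, h⟩) : ℝ) else 0) * N0 ^ f)]
          refine Eq.trans ?_ hz2
          exact Finset.sum_congr rfl (fun f _ => by simp))
      have h2 := h1 c0.2.val c0.2.2
      simp only [c0.2.2, dite_true] at h2
      exact hc0 (by exact_mod_cast h2)
    intro i
    have h6 : x0 i ^ 2 ≤ N0 := Finset.single_le_sum (f := fun i => x0 i ^ 2)
      (fun i _ => sq_nonneg _) (Finset.mem_univ i)
    linarith

end Pool.Agent.H69.UL
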