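import Mathlib
import Pool.Agent.H69.UL.Ball2

/-!
The ball theorem for lists of elementary equations.
-/

namespace Pool.Agent.H69.UL

/-- exponent of the bound -/
def qb (m : ℕ) : ℕ := 135 * m ^ 2 + 172 * m + 57

theorem bound_numeric (m L D B : ℕ) (hL : L = 2 * (3 * (3 * m + 2)) ^ (3 * m + 1))
    (hD : D = 3 * (3 * m + 2) * L) (hB : B = (1 + 4 * m + 3 * m) * D ^ 3) :
    1 + L ^ (3 * m + 2) * B ^ ((3 * m + 2) * L) ≤ 2 ^ 2 ^ qb m := by
  have two_pow : ∀ x : ℕ, x ≤ 2 ^ x := fun x => Nat.lt_two_pow_self.le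
  have hLpos : 0 < L := by rw [hL]; positivity
  set a := 1 + 3 * (3 * m + 2) * (3 * m + 1) with ha
  set b := 3 * (3 * m + 2) + a with hb
  set c := (1 + 4 * m + 3 * m) + 3 * b with hc
  have h1 : L ≤ 2 ^ a := by
    rw [hL]
    calc 2 * (3 * (3 * m + 2)) ^ (3 * m + 1) ≤ 2 * (2 ^ (3 * (3 * m + 2))) ^ (3 * m + 1) :=
          Nat.mul_le_mul_left _ (Nat.pow_le_pow_left (two_pow _) _)
      _ = 2 ^ a := by rw [← pow_mul, ha, pow_add, pow_one]
  have h2 : D ≤ 2 ^ b := by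
    rw [hD, hb, pow_add]
    exact Nat.mul_le_mul (two_pow _) h1
  have h3 : B ≤ 2 ^ c := by
    rw [hB, hc, pow_add]
    refine Nat.mul_le_mul (two_pow _) ?_
    calc D ^ 3 ≤ (2 ^ b) ^ 3 := Nat.pow_le_pow_left h2 3
      _ = 2 ^ (3 * b) := by rw [← pow_mul, mul_comm]
  have h4 : L ^ (3 * m + 2) * B ^ ((3 * m + 2) * L) ≤ 2 ^ ((3 * m + 2) * (a + c * L)) := by
    calc L ^ (3 * m + 2) * B ^ ((3 * m + 2) * L) ≤
          (2 ^ a) ^ (3 * m + 2) * (2 ^ c) ^ ((3 * m + 2) * L) :=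
          Nat.mul_le_mul (Nat.pow_le_pow_left h1 _) (Nat.pow_le_pow_left h3 _)
      _ = 2 ^ ((3 * m + 2) * (a + c * L)) := by
          rw [← pow_mul, ← pow_mul, ← pow_add]; congr 1; ring
  have h5 : (3 * m + 2) * (a + c * L) + 1 ≤ 2 ^ qb m := by
    have h6 : a + c * L ≤ (a + c) * L := by nlinarith
    have h7 : (3 * m + 2) * (a + c * L) ≤ 2 ^ (3 * m + 2) * (2 ^ (a + c) * 2 ^ a) :=
      Nat.mul_le_mul (two_pow _) (h6.trans (Nat.mul_le_mul (two_pow _) h1))
    have h8 : (1:ℕ) ≤ 2 ^ (3 * m + 2) * (2 ^ (a + c) * 2 ^ a) :=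
      Nat.one_le_iff_ne_zero.mpr (by positivity)
    calc (3 * m + 2) * (a + c * L) + 1 ≤ 2 * (2 ^ (3 * m + 2) * (2 ^ (a + c) * 2 ^ a)) := by omega
      _ = 2 ^ (1 + ((3 * m + 2) + ((a + c) + a))) := by
          clear_value a c
          ring
      _ = 2 ^ qb m := by
          congr 1
          rw [hc, hb, ha, qb]; ring
  calc 1 + L ^ (3 * m + 2) * B ^ ((3 * m + 2) * L) ≤ 1 + 2 ^ ((3 * m + 2) * (a + c * L)) :=
        Nat.add_le_add_left h4 _
    _ ≤ 2 ^ ((3 * m + 2) * (a + c * L) + 1) := by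
        have : (1:ℕ) ≤ 2 ^ ((3 * m + 2) * (a + c * L)) := Nat.one_le_two_pow
        rw [pow_succ]; omega
    _ ≤ 2 ^ 2 ^ qb m := Nat.pow_le_pow_right (by norm_num) h5

theorem abs_le_of_sq_le_one {x Y : ℝ} (h : x ^ 2 ≤ Y) (hY : 1 ≤ Y) : |x| ≤ Y := by
  rw [← sq_abs] at h
  have h6 : 0 ≤ |x| := abs_nonneg _
  by_contra hcon
  push Not at hcon
  nlinarith

/-- variables of an equation, always three -/
def PCon.vars {V : Type} : PCon V → List V
  | one a => [a, a, a]
  | add a b c => [a, b, c]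
  | mul a b c => [a, b, c]

/-- renaming -/
def PCon.map {V W : Type} (f : V → W) : PCon V → PCon W
  | one a => one (f a)
  | add a b c => add (f a) (f b) (f c)
  | mul a b c => mul (f a) (f b) (f c)

theorem PCon.holds_map {V W : Type} (f : V → W) (y : W → ℝ) (c : PCon V) :
    (c.map f).Holds y ↔ c.Holds (fun a => y (f a)) := by
  cases c <;> rfl

theorem PCon.holds_congr {V : Type} {y y' : V → ℝ} {c : PCon V} (h : ∀ a ∈ c.vars, y a = y' a) :
    c.Holds y ↔ c.Holds y' := by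
  cases c <;> simp_all [PCon.Holds, PCon.vars]

theorem length_vars {V : Type} (l : List (PCon V)) :
    (l.flatMap PCon.vars).length = 3 * l.length := by
  induction l with
  | nil => rfl
  | cons c l ih =>
    rw [List.flatMap_cons, List.length_append, ih, List.length_cons]
    have : c.vars.length = 3 := by cases c <;> rfl
    omega

/-- a solvable system of elementary equations has a solution of doubly exponential size -/
theorem ball {V : Type} (l : List (PCon V)) (η : V → ℝ) (hη : ∀ c ∈ l, c.Holds η) :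
    ∃ y : V → ℝ, (∀ c ∈ l, c.Holds y) ∧ ∀ a, |y a| ≤ 2 ^ 2 ^ qb l.length := by
  classical
  set m := l.length with hm
  rcases Nat.eq_zero_or_pos m with h0 | hpos
  · refine ⟨fun _ => 0, ?_, fun a => by simp⟩
    have : l = [] := List.length_eq_zero_iff.mp (by omega)
    rw [this]; simp
  set vs := l.flatMap PCon.vars with hvs
  have hlen : vs.length = 3 * m := length_vars l
  set φ : V → Fin (3 * m) := fun a => ⟨min (vs.idxOf a) (3 * m - 1), by omega⟩ with hφ
  set ξ : Fin (3 * m) → ℝ := fun k => η (vs.get (k.cast hlen.symm)) with hξ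
  have hξφ : ∀ a ∈ vs, ξ (φ a) = η a := by
    intro a ha
    have h1 : vs.idxOf a < vs.length := List.idxOf_lt_length_of_mem ha
    have h2 : min (vs.idxOf a) (3 * m - 1) = vs.idxOf a := by omega
    simp only [hξ, hφ]
    congr 1
    have : (Fin.cast hlen.symm ⟨min (vs.idxOf a) (3 * m - 1), by omega⟩ : Fin vs.length) =
        ⟨vs.idxOf a, h1⟩ := Fin.ext h2
    rw [this, List.get_eq_getElem]
    exact List.getElem_idxOf h1
  set c : Fin m → PCon (Fin (3 * m)) := fun j => (l.get (j.cast hm)).map φ with hc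
  have hval : ∀ j, (c j).val ξ = 0 := by
    intro j
    rw [← holds_iff_val]
    simp only [hc]
    rw [PCon.holds_map]
    have hmem := l.get_mem (j.cast hm)
    refine (PCon.holds_congr (fun a ha => ?_)).mpr (hη _ hmem)
    exact hξφ a (List.mem_flatMap.mpr ⟨_, hmem, ha⟩)
  obtain ⟨x, hx1, hx2⟩ := ball_fin c ξ hval _ _ _ rfl rfl rfl
  refine ⟨fun a => x (φ a), ?_, ?_⟩
  · intro cc hcc
    obtain ⟨j, hj⟩ := List.mem_iff_get.mp hcc
    have h1 := (holds_iff_val (x := x)).mpr (hx1 (j.cast hm.symm))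
    simp only [hc] at h1
    rw [PCon.holds_map] at h1
    have h2 : l.get ((j.cast hm.symm).cast hm) = cc := by rw [← hj]; rfl
    rw [h2] at h1
    exact h1
  · intro a
    have h1 := hx2 (φ a)
    have h2 := bound_numeric m _ _ _ rfl rfl rfl
    have h3 : (1:ℝ) + ((2 * (3 * (3 * m + 2)) ^ (3 * m + 1) : ℕ) : ℝ) ^ (3 * m + 2) *
        (((1 + 4 * m + 3 * m) * (3 * (3 * m + 2) * (2 * (3 * (3 * m + 2)) ^ (3 * m + 1))) ^ 3 : ℕ) : ℝ) ^
          ((3 * m + 2) * (2 * (3 * (3 * m + 2)) ^ (3 * m + 1))) ≤ 2 ^ 2 ^ qb m := by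
      exact_mod_cast h2
    have h4 := h1.trans h3
    have h5 : (1:ℝ) ≤ 2 ^ 2 ^ qb m := one_le_pow₀ (by norm_num)
    exact abs_le_of_sq_le_one h4 h5

end Pool.Agent.H69.UL
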