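import Mathlib
import Pool.Agent.H80.Poly.More

/-!
# Definitions for the complexity of unit linkage realizability

Bit strings are written with the encodings `enc` of `Pool.Agent.H80.Poly` (natural numbers and
integers in binary, pairs and lists by escaping).
-/

set_option autoImplicit false

namespace Pool.Agent.H69.UL

open Pool.Agent.H80.Poly (enc)

/-- A decision problem: a type of inputs, written as words over a finite alphabet (different inputs
are written differently), and the inputs for which the answer is yes. -/
structure DecProblem where
  /-- the inputs -/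
  Input : Type
  /-- the alphabet -/
  Letter : Type
  /-- the alphabet is finite -/
  letterFinite : Finite Letter
  /-- the word that is written for an input -/
  code : Input → List Letter
  /-- different inputs are written differently -/
  code_injective : Function.Injective code
  /-- the inputs for which the answer is yes -/
  Yes : Input → Prop

/-- Polynomial-time many-one reducibility; polynomial-time computability is the one of Mathlib
(Turing machines with several stacks). -/
def Reduces (P Q : DecProblem) : Prop :=
  ∃ f : P.Input → Q.Input, Nonempty (Turing.TM2ComputableInPolyTime P.code Q.code f) ∧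
    ∀ x, P.Yes x ↔ Q.Yes (f x)

/-- Polynomial expressions with integer coefficients in the variables `x_0, x_1, …`. -/
inductive PTerm where
  | const (z : ℤ)
  | var (i : ℕ)
  | add (s t : PTerm)
  | mul (s t : PTerm)

/-- value of a polynomial expression -/
def PTerm.eval (x : ℕ → ℝ) : PTerm → ℝ
  | const z => z
  | var i => x i
  | add s t => s.eval x + t.eval x
  | mul s t => s.eval x * t.eval x

/-- Quantifier-free formulas: Boolean combinations of polynomial equations and inequalities. -/
inductive Fml where
  | eq (s t : PTerm)
  | lt (s t : PTerm)
  | le (s t : PTerm)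
  | not (φ : Fml)
  | and (φ ψ : Fml)
  | or (φ ψ : Fml)

/-- the real point `x` satisfies the formula -/
def Fml.Holds (x : ℕ → ℝ) : Fml → Prop
  | eq s t => s.eval x = t.eval x
  | lt s t => s.eval x < t.eval x
  | le s t => s.eval x ≤ t.eval x
  | not φ => ¬ φ.Holds x
  | and φ ψ => φ.Holds x ∧ ψ.Holds x
  | or φ ψ => φ.Holds x ∨ ψ.Holds x

/-- A term in reverse Polish order, as a list of symbols. A symbol is a pair: its kind (`0` for a
constant, `1` for a variable, `2` for `+`, `3` for `*`) and the constant or the index of the
variable. -/
def PTerm.symbols : PTerm → List (ℕ × ℤ)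
  | const z => [(0, z)]
  | var i => [(1, (i : ℤ))]
  | add s t => s.symbols ++ t.symbols ++ [(2, 0)]
  | mul s t => s.symbols ++ t.symbols ++ [(3, 0)]

/-- A formula in reverse Polish order; the further kinds of symbols are `4` for `=`, `5` for `<`,
`6` for `≤`, `7` for negation, `8` for conjunction and `9` for disjunction. -/
def Fml.symbols : Fml → List (ℕ × ℤ)
  | eq s t => s.symbols ++ t.symbols ++ [(4, 0)]
  | lt s t => s.symbols ++ t.symbols ++ [(5, 0)]
  | le s t => s.symbols ++ t.symbols ++ [(6, 0)]
  | not φ => φ.symbols ++ [(7, 0)]
  | and φ ψ => φ.symbols ++ ψ.symbols ++ [(8, 0)]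
  | or φ ψ => φ.symbols ++ ψ.symbols ++ [(9, 0)]

/-! ### unique readability -/

/-- a stack machine reading back terms and formulas -/
def readStep (st : List (PTerm ⊕ Fml)) (s : ℕ × ℤ) : List (PTerm ⊕ Fml) :=
  match s.1, st with
  | 0, st => Sum.inl (PTerm.const s.2) :: st
  | 1, st => Sum.inl (PTerm.var s.2.toNat) :: st
  | 2, Sum.inl b :: Sum.inl a :: st => Sum.inl (PTerm.add a b) :: st
  | 3, Sum.inl b :: Sum.inl a :: st => Sum.inl (PTerm.mul a b) :: st
  | 4, Sum.inl b :: Sum.inl a :: st => Sum.inr (Fml.eq a b) :: st
  | 5, Sum.inl b :: Sum.inl a :: st => Sum.inr (Fml.lt a b) :: st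
  | 6, Sum.inl b :: Sum.inl a :: st => Sum.inr (Fml.le a b) :: st
  | 7, Sum.inr a :: st => Sum.inr (Fml.not a) :: st
  | 8, Sum.inr b :: Sum.inr a :: st => Sum.inr (Fml.and a b) :: st
  | 9, Sum.inr b :: Sum.inr a :: st => Sum.inr (Fml.or a b) :: st
  | _, st => st

theorem read_term (t : PTerm) : ∀ st, t.symbols.foldl readStep st = Sum.inl t :: st := by
  induction t with
  | const z => intro st; simp [PTerm.symbols, readStep]
  | var i => intro st; simp [PTerm.symbols, readStep]
  | add s t ihs iht => intro st; simp [PTerm.symbols, ihs, iht, readStep]
  | mul s t ihs iht => intro st; simp [PTerm.symbols, ihs, iht, readStep]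

theorem read_fml (φ : Fml) : ∀ st, φ.symbols.foldl readStep st = Sum.inr φ :: st := by
  induction φ with
  | eq s t => intro st; simp [Fml.symbols, read_term, readStep]
  | lt s t => intro st; simp [Fml.symbols, read_term, readStep]
  | le s t => intro st; simp [Fml.symbols, read_term, readStep]
  | not φ ih => intro st; simp [Fml.symbols, ih, readStep]
  | and φ ψ ih1 ih2 => intro st; simp [Fml.symbols, ih1, ih2, readStep]
  | or φ ψ ih1 ih2 => intro st; simp [Fml.symbols, ih1, ih2, readStep]

theorem Fml.symbols_injective : Function.Injective Fml.symbols := by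
  intro φ ψ h
  have h1 := read_fml φ []
  rw [h, read_fml ψ []] at h1
  simpa using h1.symm

/-- The existential theory of the reals: is there a real point satisfying the given quantifier-free
formula? Formulas are written in reverse Polish order, with numbers in binary. -/
def ETR : DecProblem where
  Input := Fml
  Letter := Bool
  letterFinite := inferInstance
  code := fun φ => enc φ.symbols
  code_injective := fun _ _ h =>
    Fml.symbols_injective (Pool.Agent.H80.Poly.BEnc.enc_inj h)
  Yes := fun φ => ∃ x : ℕ → ℝ, φ.Holds x

/-- finite simple graphs, with vertices `0, …, n - 1` -/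
abbrev FinGraph := Σ n : ℕ, SimpleGraph (Fin n)

open Classical in
/-- the adjacency matrix of a finite graph, as the list of its rows -/
noncomputable def adjMatrix (G : FinGraph) : List (List Bool) :=
  (List.finRange G.1).map fun u => (List.finRange G.1).map fun v => decide (G.2.Adj u v)

theorem adjMatrix_injective : Function.Injective adjMatrix := by
  classical
  rintro ⟨n, G⟩ ⟨m, H⟩ h
  have hl := congrArg List.length h
  simp only [adjMatrix, List.length_map, List.length_finRange] at hl
  subst hl
  congr 1
  ext u v
  unfold adjMatrix at h
  have h1 := List.map_inj_left.mp h u (List.mem_finRange u)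
  have h2 := List.map_inj_left.mp h1 v (List.mem_finRange v)
  simpa using h2

/-- Unit linkage realizability in `ℝ^d`: given a finite graph (by its adjacency matrix), can its
vertices be placed at points of `ℝ^d` such that adjacent vertices are at distance one? -/
noncomputable def UnitLinkage (d : ℕ) : DecProblem where
  Input := FinGraph
  Letter := Bool
  letterFinite := inferInstance
  code := fun G => enc (adjMatrix G)
  code_injective := fun _ _ h =>
    adjMatrix_injective (Pool.Agent.H80.Poly.BEnc.enc_inj h)
  Yes := fun G => ∃ p : Fin G.1 → EuclideanSpace ℝ (Fin d),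
    ∀ u v, G.2.Adj u v → dist (p u) (p v) = 1

/-- The class `∃ℝ`: the decision problems reducible to the existential theory of the reals. -/
def ExistsR : Set DecProblem := {P | Reduces P ETR}

/-- A decision problem is `∃ℝ`-complete if it is in `∃ℝ` and every problem in `∃ℝ` reduces to it. -/
def ExistsRComplete (P : DecProblem) : Prop := P ∈ ExistsR ∧ ∀ Q ∈ ExistsR, Reduces Q P

end Pool.Agent.H69.UL
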