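import Mathlib

/-!
Elementary Euclidean geometry for the unit-linkage gadgets.
-/

namespace Pool.Agent.H69.UL

open scoped RealInnerProductSpace

/-- Euclidean space of dimension `d`. -/
abbrev E (d : ℕ) := EuclideanSpace ℝ (Fin d)

/-- squared distance -/
noncomputable def dsq {d : ℕ} (x y : E d) : ℝ := ‖x - y‖ ^ 2

variable {d : ℕ}

theorem dsq_comm (x y : E d) : dsq x y = dsq y x := by
  unfold dsq; rw [norm_sub_rev]

theorem dist_eq_one_iff (x y : E d) : dist x y = 1 ↔ dsq x y = 1 := by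
  rw [dsq, ← dist_eq_norm]
  constructor
  · intro h; rw [h]; norm_num
  · intro h
    have h0 : (0:ℝ) ≤ dist x y := dist_nonneg
    nlinarith [sq_nonneg (dist x y - 1)]

theorem dsq_eq_inner (x y : E d) : dsq x y = ⟪x - y, x - y⟫ := by
  rw [dsq, real_inner_self_eq_norm_sq]

theorem dsq_pos {x y : E d} (h : x ≠ y) : 0 < dsq x y := by
  unfold dsq
  have : x - y ≠ 0 := sub_ne_zero.mpr h
  positivity

theorem dsq_self (x : E d) : dsq x x = 0 := by simp [dsq]

/-- expansion of a difference of squared distances -/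
theorem inner_sub_left_eq (x y z : E d) :
    ⟪x - z, y - z⟫ = (dsq x z + dsq y z - dsq x y) / 2 := by
  have h : x - y = (x - z) - (y - z) := by abel
  have := norm_sub_sq_real (x - z) (y - z)
  unfold dsq
  rw [h, this]; ring

/-- `⟨x - x', y - y'⟩` through squared distances -/
theorem inner_sub_sub_eq (x x' y y' : E d) :
    ⟪x - x', y - y'⟫ = (dsq x y' + dsq x' y - dsq x y - dsq x' y') / 2 := by
  have e1 : ⟪x - x', y - y'⟫ = ⟪x - y', y - y'⟫ - ⟪x' - y', y - y'⟫ := by
    rw [← inner_sub_left]; congr 1; abel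
  rw [e1, inner_sub_left_eq, inner_sub_left_eq]; ring

/-- no `d + 2` points of `ℝ^d` are pairwise at distance one -/
theorem no_simplex (c : Fin (d + 2) → E d) (h : ∀ i j, i ≠ j → dsq (c i) (c j) = 1) : False := by
  classical
  set w : Fin (d + 1) → E d := fun i => c i.succ - c 0 with hw
  have hin : ∀ i j, ⟪w i, w j⟫ = if i = j then (1:ℝ) else 1 / 2 := by
    intro i j
    simp only [hw]
    rw [inner_sub_left_eq, h _ _ (Fin.succ_ne_zero i), h _ _ (Fin.succ_ne_zero j)]
    split_ifs with hij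
    · subst hij; rw [dsq_self]; norm_num
    · rw [h _ _ (fun hh => hij (Fin.succ_injective _ hh))]; norm_num
  have hli : LinearIndependent ℝ w := by
    rw [Fintype.linearIndependent_iff]
    intro g hg
    have key : ∀ i, g i = - ∑ j, g j := by
      intro i
      have h1 : ⟪w i, ∑ j, g j • w j⟫ = 0 := by rw [hg]; simp
      rw [inner_sum] at h1
      simp only [inner_smul_right, hin] at h1
      have h2 : ∑ x, g x * (if i = x then (1:ℝ) else 1 / 2) = 1 / 2 * ∑ x, g x + 1 / 2 * g i := by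
        have : ∀ x, g x * (if i = x then (1:ℝ) else 1 / 2) =
            1 / 2 * g x + (if i = x then 1 / 2 * g x else 0) := by
          intro x; split_ifs <;> ring
        simp only [this, Finset.sum_add_distrib, Finset.sum_ite_eq, Finset.mem_univ, if_true,
          ← Finset.mul_sum]
      rw [h2] at h1
      linarith
    have hS : ∑ j, g j = 0 := by
      have : ∑ j, g j = ∑ _j : Fin (d + 1), (- ∑ j, g j) := Finset.sum_congr rfl (fun i _ => key i)
      rw [Finset.sum_const, Finset.card_univ, Fintype.card_fin, nsmul_eq_mul] at this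
      push_cast at this
      have hd : (0:ℝ) ≤ d := Nat.cast_nonneg d
      nlinarith
    intro i
    rw [key i, hS, neg_zero]
  have hc := hli.fintype_card_le_finrank
  simp at hc

/-- transitivity of the orthogonal group on unit vectors -/
theorem exists_isometry {u v : E d} (h : ‖u‖ = ‖v‖) : ∃ R : E d ≃ₗᵢ[ℝ] E d, R u = v :=
  ⟨(Submodule.reflection (ℝ ∙ (u - v))ᗮ), Submodule.reflection_sub h⟩

/-- an orthonormal basis with a prescribed vector -/
theorem exists_onb (i0 : Fin d) {n : E d} (hn : ‖n‖ = 1) :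
    ∃ b : OrthonormalBasis (Fin d) ℝ (E d), b i0 = n := by
  have h : ‖(EuclideanSpace.basisFun (Fin d) ℝ) i0‖ = ‖n‖ := by
    rw [hn]; exact (EuclideanSpace.basisFun (Fin d) ℝ).orthonormal.1 i0
  obtain ⟨R, hR⟩ := exists_isometry h
  exact ⟨(EuclideanSpace.basisFun (Fin d) ℝ).map R, by simpa using hR⟩

/-- every vector is a nonnegative multiple of a unit vector -/
theorem exists_unit (hd : 0 < d) (w : E d) : ∃ n : E d, ‖n‖ = 1 ∧ w = ‖w‖ • n := by
  by_cases hw : w = 0
  · refine ⟨EuclideanSpace.basisFun (Fin d) ℝ ⟨0, hd⟩,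
      (EuclideanSpace.basisFun (Fin d) ℝ).orthonormal.1 _, by simp [hw]⟩
  · have hn : ‖w‖ ≠ 0 := norm_ne_zero_iff.mpr hw
    refine ⟨‖w‖⁻¹ • w, ?_, ?_⟩
    · rw [norm_smul, norm_inv, norm_norm, inv_mul_cancel₀ hn]
    · rw [smul_smul, mul_inv_cancel₀ hn, one_smul]

/-- the facet of a regular simplex orthogonal to a unit vector -/
theorem exists_facet (hd : 0 < d) {n : E d} (hn : ‖n‖ = 1) :
    ∃ e : Fin d → E d, (∀ i, ⟪e i, n⟫ = 0) ∧ (∀ i, ⟪e i, e i⟫ = ((d:ℝ) - 1) / (2 * d)) ∧
      ∀ i j, i ≠ j → dsq (e i) (e j) = 1 := by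
  have hd0 : (0:ℝ) < d := by exact_mod_cast hd
  set B := EuclideanSpace.basisFun (Fin d) ℝ with hB
  set s : E d := ∑ i, B i with hs
  have hBi : ∀ i j, ⟪B i, B j⟫ = if i = j then (1:ℝ) else 0 :=
    fun i j => orthonormal_iff_ite.mp B.orthonormal i j
  have hsB : ∀ i, ⟪s, B i⟫ = (1:ℝ) := by
    intro i; rw [hs, sum_inner]; simp [hBi]
  have hBs : ∀ i, ⟪B i, s⟫ = (1:ℝ) := by
    intro i; rw [real_inner_comm]; exact hsB i
  have hss : ⟪s, s⟫ = (d:ℝ) := by
    nth_rewrite 2 [hs]; rw [inner_sum]; simp [hsB]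
  -- isometry taking `s / √d` to `n`
  have hns : ‖(Real.sqrt d)⁻¹ • s‖ = ‖n‖ := by
    rw [hn, norm_smul, norm_inv, Real.norm_eq_abs, abs_of_nonneg (Real.sqrt_nonneg _),
      norm_eq_sqrt_real_inner, hss, inv_mul_cancel₀]
    exact (Real.sqrt_pos.mpr hd0).ne'
  obtain ⟨R, hR⟩ := exists_isometry hns
  have hsd : Real.sqrt d ≠ 0 := (Real.sqrt_pos.mpr hd0).ne'
  have hRs : R s = Real.sqrt d • n := by
    rw [← hR, map_smul, smul_smul, mul_inv_cancel₀ hsd, one_smul]
  set a : ℝ := (Real.sqrt 2)⁻¹ with ha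
  have ha2 : a * a = 1 / 2 := by
    rw [ha, ← mul_inv, Real.mul_self_sqrt (by norm_num)]; norm_num
  set f : Fin d → E d := fun i => a • B i - (a / d) • s with hf
  have hff : ∀ i j, ⟪f i, f j⟫ = (if i = j then (1/2:ℝ) else 0) - 1 / (2 * d) := by
    intro i j
    simp only [hf, inner_sub_left, inner_sub_right, inner_smul_left, inner_smul_right, hBi, hsB,
      hBs, hss, conj_trivial]
    have : (d:ℝ) ≠ 0 := hd0.ne'
    have e2 : a * (a * (if i = j then (1:ℝ) else 0)) = if i = j then (1/2:ℝ) else 0 := by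
      split_ifs
      · rw [mul_one, ha2]
      · simp
    have e3 : a * (a / d * 1) = 1 / (2 * d) := by
      rw [mul_one, ← mul_div_assoc, ha2]; field_simp
    have e4 : a / d * (a * 1) = 1 / (2 * d) := by
      rw [mul_one, div_mul_eq_mul_div, ha2]; field_simp
    have e5 : a / d * (a / d * d) = 1 / (2 * d) := by
      rw [div_mul_cancel₀ _ this, div_mul_eq_mul_div, ha2]; field_simp
    have e6 : a * ((a * if i = j then (1:ℝ) else 0) - a / ↑d * 1) -
        a / ↑d * (a * 1 - a / ↑d * ↑d) = a * (a * (if i = j then (1:ℝ) else 0)) -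
        a * (a / d * 1) - a / d * (a * 1) + a / d * (a / d * d) := by ring
    rw [e6, e2, e3, e4, e5]; ring
  have hfs : ∀ i, ⟪f i, s⟫ = 0 := by
    intro i
    simp only [hf, inner_sub_left, inner_smul_left, hBs, hss, conj_trivial]
    field_simp; ring
  clear_value f
  refine ⟨fun i => R (f i), ?_, ?_, ?_⟩
  · intro i
    have h1 : ⟪R (f i), R s⟫ = 0 := by rw [LinearIsometryEquiv.inner_map_map, hfs]
    rw [hRs, inner_smul_right] at h1
    exact (mul_eq_zero.mp h1).resolve_left hsd
  · intro i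
    rw [LinearIsometryEquiv.inner_map_map, hff, if_pos rfl]
    field_simp
  · intro i j hij
    rw [dsq_eq_inner, ← map_sub, LinearIsometryEquiv.inner_map_map, inner_sub_left,
      inner_sub_right, inner_sub_right, hff, hff, hff, hff, if_pos rfl, if_pos rfl, if_neg hij,
      if_neg (Ne.symm hij)]
    ring

/-- triangles with prescribed sides -/
theorem exists_triangle (hd : 2 ≤ d) (u v : E d) (α β : ℝ)
    (h1 : α ≤ ‖u - v‖ + β) (h2 : β ≤ ‖u - v‖ + α) (h3 : ‖u - v‖ ≤ α + β) :
    ∃ c : E d, dsq c u = α ^ 2 ∧ dsq c v = β ^ 2 := by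
  obtain ⟨n, hn, hw⟩ := exists_unit (by omega) (v - u)
  obtain ⟨b, hb⟩ := exists_onb (⟨0, by omega⟩ : Fin d) hn
  set m := b ⟨1, by omega⟩ with hm
  have hnn : ⟪n, n⟫ = (1:ℝ) := by rw [real_inner_self_eq_norm_sq, hn]; norm_num
  have hmm : ⟪m, m⟫ = (1:ℝ) := by
    rw [real_inner_self_eq_norm_sq, hm, b.orthonormal.1]; norm_num
  have hnm : ⟪n, m⟫ = (0:ℝ) := by
    rw [← hb, hm]; exact b.orthonormal.2 (by simp [Fin.ext_iff])
  have hmn : ⟪m, n⟫ = (0:ℝ) := by rw [real_inner_comm]; exact hnm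
  set r := ‖v - u‖ with hr
  have hr' : ‖u - v‖ = r := norm_sub_rev _ _
  rw [hr'] at h1 h2 h3
  have hr0 : 0 ≤ r := norm_nonneg _
  -- choose s, h
  obtain ⟨s, h, e1, e2⟩ : ∃ s h : ℝ, s ^ 2 + h ^ 2 = α ^ 2 ∧ (s - r) ^ 2 + h ^ 2 = β ^ 2 := by
    rcases hr0.eq_or_lt with h0 | hpos
    · refine ⟨α, 0, by ring, ?_⟩
      have : α = β := by linarith
      rw [← h0, this]; ring
    · set s := (α ^ 2 - β ^ 2 + r ^ 2) / (2 * r) with hs
      have hsr : 2 * r * s = α ^ 2 - β ^ 2 + r ^ 2 := by rw [hs]; field_simp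
      have hle : s ^ 2 ≤ α ^ 2 := by
        have h4 : (2 * r * s) ^ 2 ≤ (2 * r * α) ^ 2 := by
          rw [hsr]
          have hA : 0 ≤ (β - (r - α)) * (β + (r - α)) := by
            apply mul_nonneg <;> linarith
          have hB : 0 ≤ ((r + α) - β) * ((r + α) + β) := by
            apply mul_nonneg <;> linarith
          nlinarith [mul_nonneg hA hB]
        have h5 : 0 < (2 * r) ^ 2 := by positivity
        have h6 : (2 * r) ^ 2 * s ^ 2 ≤ (2 * r) ^ 2 * α ^ 2 := by nlinarith
        exact le_of_mul_le_mul_left h6 h5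
      refine ⟨s, Real.sqrt (α ^ 2 - s ^ 2), ?_, ?_⟩
      · rw [Real.sq_sqrt (by linarith)]; ring
      · rw [Real.sq_sqrt (by linarith)]; nlinarith
  refine ⟨u + s • n + h • m, ?_, ?_⟩
  · have : u + s • n + h • m - u = s • n + h • m := by abel
    rw [dsq_eq_inner, this]
    simp only [inner_add_left, inner_add_right, inner_smul_left, inner_smul_right, hnn, hmm, hnm,
      hmn, conj_trivial]
    linarith
  · have : u + s • n + h • m - v = (s - r) • n + h • m := by
      have h7 : v = u + r • n := by rw [← hw]; abel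
      rw [h7, sub_smul]; abel
    rw [dsq_eq_inner, this]
    simp only [inner_add_left, inner_add_right, inner_smul_left, inner_smul_right, hnn, hmm, hnm,
      hmn, conj_trivial]
    linarith

/-- realizability of the distinctness gadget -/
theorem far_strong (hd : 3 ≤ d) (u v : E d) (h1 : 2 / 3 ≤ ‖u - v‖) (h2 : ‖u - v‖ ≤ 12 / 5) :
    ∃ c : ℕ → E d, (∀ i j, i ≤ d → j ≤ d → i ≠ j → dsq (c i) (c j) = 1) ∧
      (∀ i, 1 ≤ i → i ≤ d → dsq u (c i) = 1) ∧ dsq v (c 0) = 1 := by
  have hdR : (3:ℝ) ≤ d := by exact_mod_cast hd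
  have hd0 : (0:ℝ) < d := by linarith
  set δ := Real.sqrt (2 * (d + 1) / d) with hδ
  have hδ2 : δ ^ 2 = 2 * (d + 1) / d := by rw [hδ, Real.sq_sqrt (by positivity)]
  have hδ0 : 0 ≤ δ := Real.sqrt_nonneg _
  have hδ3 : δ ^ 2 ≤ 8 / 3 := by
    rw [hδ2, div_le_div_iff₀ hd0 (by norm_num)]; linarith
  have hδ4 : 2 ≤ δ ^ 2 := by
    rw [hδ2, le_div_iff₀ hd0]; linarith
  have hδ5 : δ ≤ 5 / 3 := by nlinarith
  have hδ6 : 7 / 5 ≤ δ := by nlinarith
  obtain ⟨c0, hc1, hc2⟩ := exists_triangle (by omega) u v δ 1 (by linarith) (by linarith)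
    (by linarith)
  -- unit normal
  have hn : ‖δ⁻¹ • (u - c0)‖ = 1 := by
    have h3 : ‖u - c0‖ = δ := by
      have : ‖c0 - u‖ ^ 2 = δ ^ 2 := hc1
      rw [norm_sub_rev]
      exact (pow_left_inj₀ (norm_nonneg _) hδ0 two_ne_zero).mp this
    rw [norm_smul, h3, norm_inv, Real.norm_eq_abs, abs_of_nonneg hδ0, inv_mul_cancel₀]
    linarith
  obtain ⟨e, he1, he2, he3⟩ := exists_facet (by omega) hn
  have huc : u - c0 = δ • (δ⁻¹ • (u - c0)) := by
    rw [smul_smul, mul_inv_cancel₀ (by linarith), one_smul]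
  set n := δ⁻¹ • (u - c0) with hnd
  clear_value n
  have hnn : ⟪n, n⟫ = (1:ℝ) := by rw [real_inner_self_eq_norm_sq, hn]; norm_num
  have hne : ∀ i, ⟪n, e i⟫ = (0:ℝ) := fun i => by rw [real_inner_comm]; exact he1 i
  have hu : u = c0 + δ • n := by rw [← huc]; abel
  have key1 : ∀ i, dsq (c0 + (δ / 2) • n + e i) u = 1 := by
    intro i
    have : c0 + (δ / 2) • n + e i - u = e i - (δ / 2) • n := by
      rw [hu]
      have : δ • n = (δ / 2) • n + (δ / 2) • n := by rw [← add_smul]; congr 1; ring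
      rw [this]; abel
    rw [dsq_eq_inner, this]
    simp only [inner_sub_left, inner_sub_right, inner_smul_left, inner_smul_right, hnn, hne, he1,
      he2, conj_trivial]
    have h4 : ((d:ℝ) - 1) / (2 * d) - δ / 2 * 0 - δ / 2 * (0 - δ / 2 * 1) =
        ((d:ℝ) - 1) / (2 * d) + δ ^ 2 / 4 := by ring
    rw [h4, hδ2]
    field_simp; ring
  have key0 : ∀ i, dsq (c0 + (δ / 2) • n + e i) c0 = 1 := by
    intro i
    have : c0 + (δ / 2) • n + e i - c0 = e i + (δ / 2) • n := by abel
    rw [dsq_eq_inner, this]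
    simp only [inner_add_left, inner_add_right, inner_smul_left, inner_smul_right, hnn, hne, he1,
      he2, conj_trivial]
    have h4 : δ / 2 * (δ / 2 * 1) = δ ^ 2 / 4 := by ring
    rw [mul_zero, add_zero, zero_add, h4, hδ2]
    field_simp; ring
  refine ⟨fun i => if h : 1 ≤ i ∧ i ≤ d then c0 + (δ / 2) • n + e ⟨i - 1, by omega⟩ else c0,
    ?_, ?_, ?_⟩
  · intro i j hi hj hij
    by_cases h0 : i = 0
    · subst h0
      have hj1 : 1 ≤ j ∧ j ≤ d := by omega
      simp only [hj1, and_self, dite_true]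
      rw [dif_neg (by omega), dsq_comm]
      exact key0 _
    · have hi1 : 1 ≤ i ∧ i ≤ d := by omega
      by_cases h0' : j = 0
      · subst h0'
        simp only [hi1, and_self, dite_true]
        rw [dif_neg (by omega)]
        exact key0 _
      · have hj1 : 1 ≤ j ∧ j ≤ d := by omega
        simp only [hi1, hj1, and_self, dite_true]
        have : dsq (c0 + (δ / 2) • n + e ⟨i - 1, by omega⟩) (c0 + (δ / 2) • n + e ⟨j - 1, by omega⟩)
            = dsq (e ⟨i - 1, by omega⟩) (e ⟨j - 1, by omega⟩) := by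
          unfold dsq; congr 2; abel
        rw [this]
        exact he3 _ _ (by simp only [ne_eq, Fin.mk.injEq]; omega)
  · intro i hi hi'
    have hi1 : 1 ≤ i ∧ i ≤ d := ⟨hi, hi'⟩
    simp only [hi1, and_self, dite_true]
    rw [dsq_comm]; exact key1 _
  · have h00 : ¬ (1 ≤ 0 ∧ 0 ≤ d) := by omega
    simp only [h00, dite_false]
    rw [dsq_comm, hc2]; norm_num

/-- the distinctness gadget forces distinctness -/
theorem far_weak (u v : E d) (c : ℕ → E d)
    (h1 : ∀ i j, i ≤ d → j ≤ d → i ≠ j → dsq (c i) (c j) = 1)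
    (h2 : ∀ i, 1 ≤ i → i ≤ d → dsq u (c i) = 1) (h3 : dsq v (c 0) = 1) : u ≠ v := by
  rintro rfl
  refine no_simplex (fun i : Fin (d + 2) => if i.val = d + 1 then u else c i.val) ?_
  intro i j hij
  have hij' : i.val ≠ j.val := fun h => hij (Fin.ext h)
  have hu : ∀ k : ℕ, k ≤ d → dsq u (c k) = 1 := by
    intro k hk
    rcases Nat.eq_zero_or_pos k with h | h
    · subst h; exact h3
    · exact h2 k h hk
  by_cases hi : i.val = d + 1
  · have hj : j.val ≠ d + 1 := by omega
    simp only [hi, if_true, if_neg hj]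
    exact hu _ (by omega)
  · by_cases hj : j.val = d + 1
    · simp only [hj, if_true, if_neg hi]
      rw [dsq_comm]; exact hu _ (by omega)
    · simp only [if_neg hi, if_neg hj]
      exact h1 _ _ (by omega) (by omega) hij'

/-- the cross-polytope gadget forces distance `√2` -/
theorem cross_weak (hd : 3 ≤ d) (a a' : Fin d → E d) (hne : ∀ i, a i ≠ a' i)
    (h1 : ∀ i j, i ≠ j → dsq (a i) (a j) = 1) (h2 : ∀ i j, i ≠ j → dsq (a i) (a' j) = 1)
    (h3 : ∀ i j, i ≠ j → dsq (a' i) (a' j) = 1) (i : Fin d) : dsq (a i) (a' i) = 2 := by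
  set x : Fin d → E d := fun i => a i - a' i with hx
  have h2' : ∀ i j, i ≠ j → dsq (a' i) (a j) = 1 := fun i j hij => by
    rw [dsq_comm]; exact h2 j i (Ne.symm hij)
  have hx0 : ∀ i, x i ≠ 0 := fun i => sub_ne_zero.mpr (hne i)
  have horth : ∀ i j, i ≠ j → ⟪x i, x j⟫ = (0:ℝ) := by
    intro i j hij
    simp only [hx]
    rw [inner_sub_sub_eq, h2 _ _ hij, h2' _ _ hij, h1 _ _ hij, h3 _ _ hij]; norm_num
  have hli : LinearIndependent ℝ x :=
    linearIndependent_of_ne_zero_of_inner_eq_zero hx0 (fun i j hij => horth i j hij)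
  have hspan : Submodule.span ℝ (Set.range x) = ⊤ :=
    hli.span_eq_top_of_card_eq_finrank' (by simp)
  have hzero : ∀ i j, i ≠ j → (a i - a j) + (a' i - a' j) = 0 := by
    intro i j hij
    set y := (a i - a j) + (a' i - a' j) with hy
    have hyk : ∀ k, ⟪x k, y⟫ = (0:ℝ) := by
      intro k
      rw [real_inner_comm, hy, inner_add_left]
      simp only [hx]
      rw [inner_sub_sub_eq, inner_sub_sub_eq]
      by_cases hki : i = k
      · subst hki
        rw [h1 j i (Ne.symm hij), dsq_self, h2 j i (Ne.symm hij), dsq_self,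
          h2' j i (Ne.symm hij), h3 j i (Ne.symm hij), dsq_comm (a' i) (a i)]
        ring
      · by_cases hkj : j = k
        · subst hkj
          rw [h1 i j hij, dsq_self, h2 i j hij, dsq_self, h2' i j hij, h3 i j hij,
            dsq_comm (a' j) (a j)]
          ring
        · rw [h1 _ _ hki, h1 _ _ hkj, h2 _ _ hki, h2 _ _ hkj, h2' _ _ hki, h2' _ _ hkj,
            h3 _ _ hki, h3 _ _ hkj]
          ring
    have hmem : y ∈ (Submodule.span ℝ (Set.range x))ᗮ := by
      rw [Submodule.mem_orthogonal]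
      intro u hu
      induction hu using Submodule.span_induction with
      | mem z hz => obtain ⟨k, rfl⟩ := hz; exact hyk k
      | zero => simp
      | add z w _ _ hz hw => rw [inner_add_left, hz, hw, add_zero]
      | smul c z _ hz => rw [inner_smul_left, hz, mul_zero]
    rw [hspan, Submodule.top_orthogonal_eq_bot, Submodule.mem_bot] at hmem
    exact hmem
  have hsum : ∀ i j, i ≠ j → dsq (a i) (a' i) + dsq (a j) (a' j) = 4 := by
    intro i j hij
    have e0 := hzero i j hij
    have e1 : a i - a j = (1 / 2 : ℝ) • (x i - x j) := by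
      have : x i - x j = (a i - a j) + (a i - a j) - ((a i - a j) + (a' i - a' j)) := by
        simp only [hx]; abel
      rw [this, e0, sub_zero, ← two_smul ℝ, smul_smul]; norm_num
    have e2 : dsq (a i) (a j) = 1 / 4 * (⟪x i, x i⟫ + ⟪x j, x j⟫) := by
      rw [dsq_eq_inner, e1]
      simp only [inner_smul_left, inner_smul_right, inner_sub_left, inner_sub_right,
        horth i j hij, horth j i (Ne.symm hij), conj_trivial]
      ring
    rw [h1 i j hij] at e2
    rw [dsq_eq_inner, dsq_eq_inner]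
    simp only [hx] at e2
    linarith
  obtain ⟨j, k, hij, hik, hjk⟩ : ∃ j k : Fin d, i ≠ j ∧ i ≠ k ∧ j ≠ k := by
    have : ∃ j k : ℕ, j < d ∧ k < d ∧ i.val ≠ j ∧ i.val ≠ k ∧ j ≠ k := by
      rcases Nat.lt_or_ge i.val 1 with h | h
      · exact ⟨1, 2, by omega, by omega, by omega, by omega, by omega⟩
      · rcases Nat.lt_or_ge i.val 2 with h' | h'
        · exact ⟨0, 2, by omega, by omega, by omega, by omega, by omega⟩
        · exact ⟨0, 1, by omega, by omega, by omega, by omega, by omega⟩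
    obtain ⟨j, k, hj, hk, h4, h5, h6⟩ := this
    exact ⟨⟨j, hj⟩, ⟨k, hk⟩, fun h => h4 (by rw [h]), fun h => h5 (by rw [h]),
      fun h => h6 (by simpa using h)⟩
  have := hsum i j hij
  have := hsum i k hik
  have := hsum j k hjk
  linarith

/-- realizability of the cross-polytope gadget -/
theorem cross_strong (i0 : Fin d) {u v : E d} (h : dsq u v = 2) :
    ∃ a a' : Fin d → E d, a i0 = u ∧ a' i0 = v ∧ (∀ i j, i ≠ j → dsq (a i) (a j) = 1) ∧
      (∀ i j, i ≠ j → dsq (a i) (a' j) = 1) ∧ (∀ i j, i ≠ j → dsq (a' i) (a' j) = 1) ∧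
      ∀ i, dsq (a i) (a' i) = 2 := by
  set s := Real.sqrt 2 with hs
  have hs2 : s * s = 2 := Real.mul_self_sqrt (by norm_num)
  have hs0 : s ≠ 0 := by intro h; rw [h] at hs2; norm_num at hs2
  have hspos : 0 < s := Real.sqrt_pos.mpr (by norm_num)
  have hn : ‖s⁻¹ • (u - v)‖ = 1 := by
    have h3 : ‖u - v‖ = s := by
      have : ‖u - v‖ ^ 2 = s ^ 2 := by rw [sq s, hs2]; exact h
      exact (pow_left_inj₀ (norm_nonneg _) hspos.le two_ne_zero).mp this
    rw [norm_smul, h3, norm_inv, Real.norm_eq_abs, abs_of_pos hspos, inv_mul_cancel₀ hs0]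
  obtain ⟨b, hb⟩ := exists_onb i0 hn
  have hbb : ∀ i j, ⟪b i, b j⟫ = if i = j then (1:ℝ) else 0 :=
    fun i j => orthonormal_iff_ite.mp b.orthonormal i j
  set m := (1 / 2 : ℝ) • (u + v) with hm
  set t := s / 2 with ht
  have htt : t * t = 1 / 2 := by rw [ht]; linarith [hs2]
  have htn : t • b i0 = (1 / 2 : ℝ) • (u - v) := by
    rw [hb, smul_smul]; congr 1; rw [ht]; field_simp
  have hu : m + t • b i0 = u := by
    rw [htn, hm, ← smul_add]
    have : u + v + (u - v) = (2:ℝ) • u := by rw [two_smul]; abel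
    rw [this, smul_smul]; norm_num
  have hv : m - t • b i0 = v := by
    rw [htn, hm, ← smul_sub]
    have : u + v - (u - v) = (2:ℝ) • v := by rw [two_smul]; abel
    rw [this, smul_smul]; norm_num
  refine ⟨fun i => m + t • b i, fun i => m - t • b i, hu, hv, ?_, ?_, ?_, ?_⟩
  · intro i j hij
    have : m + t • b i - (m + t • b j) = t • (b i - b j) := by rw [smul_sub]; abel
    rw [dsq_eq_inner, this]
    simp only [inner_smul_left, inner_smul_right, inner_sub_left, inner_sub_right, hbb,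
      conj_trivial, if_true, if_neg hij, if_neg (Ne.symm hij)]
    linarith
  · intro i j hij
    have : m + t • b i - (m - t • b j) = t • (b i + b j) := by rw [smul_add]; abel
    rw [dsq_eq_inner, this]
    simp only [inner_smul_left, inner_smul_right, inner_add_left, inner_add_right, hbb,
      conj_trivial, if_true, if_neg hij, if_neg (Ne.symm hij)]
    linarith
  · intro i j hij
    have : m - t • b i - (m - t • b j) = t • (b j - b i) := by rw [smul_sub]; abel
    rw [dsq_eq_inner, this]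
    simp only [inner_smul_left, inner_smul_right, inner_sub_left, inner_sub_right, hbb,
      conj_trivial, if_true, if_neg hij, if_neg (Ne.symm hij)]
    linarith
  · intro i
    have : m + t • b i - (m - t • b i) = (2 * t) • b i := by rw [two_mul, add_smul]; abel
    rw [dsq_eq_inner, this]
    simp only [inner_smul_left, inner_smul_right, hbb, conj_trivial, if_true]
    linarith

end Pool.Agent.H69.UL
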