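import Mathlib
import Pool.Agent.H69.UL.Geom

/-!
Passing from systems of point constraints to unit linkages.
-/

namespace Pool.Agent.H69.UL

open scoped RealInnerProductSpace

/-! ### local expansion of lists of constraints -/

/-- expand each constraint (together with its position) -/
def expand {C C' : Type} (g : C × ℕ → List C') (l : List C) : List C' := l.zipIdx.flatMap g

theorem mem_expand {C C' : Type} {g : C × ℕ → List C'} {l : List C} {c' : C'} :
    c' ∈ expand g l ↔ ∃ c j, l[j]? = some c ∧ c' ∈ g (c, j) := by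
  unfold expand
  rw [List.mem_flatMap]
  constructor
  · rintro ⟨⟨c, j⟩, hx, h⟩
    exact ⟨c, j, List.mem_zipIdx_iff_getElem?.mp hx, h⟩
  · rintro ⟨c, j, hx, h⟩
    exact ⟨(c, j), List.mem_zipIdx_iff_getElem?.mpr hx, h⟩

theorem expand_exists {α C C' X : Type} [Nonempty X] (g : C × ℕ → List C') (P : C → Prop)
    (S' : (α ⊕ (ℕ × ℕ) → X) → C' → Prop) (l : List C) (p : α → X)
    (hp : ∀ c ∈ l, P c)
    (hloc : ∀ c j, P c → ∃ q : ℕ → X, ∀ r : ℕ × ℕ → X, (∀ k, r (j, k) = q k) →
      ∀ c' ∈ g (c, j), S' (Sum.elim p r) c') :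
    ∃ r : ℕ × ℕ → X, ∀ c' ∈ expand g l, S' (Sum.elim p r) c' := by
  classical
  have h : ∀ j, ∃ q : ℕ → X, ∀ c, l[j]? = some c → ∀ r : ℕ × ℕ → X, (∀ k, r (j, k) = q k) →
      ∀ c' ∈ g (c, j), S' (Sum.elim p r) c' := by
    intro j
    cases hj : l[j]? with
    | none => exact ⟨fun _ => Classical.arbitrary X, by simp⟩
    | some c =>
      obtain ⟨q, hq⟩ := hloc c j (hp c (List.mem_of_getElem? hj))
      exact ⟨q, fun c' hc' => by
        obtain rfl : c = c' := by simpa using hc'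
        exact hq⟩
  choose q hq using h
  refine ⟨fun x => q x.1 x.2, fun c' hc' => ?_⟩
  obtain ⟨c, j, hj, hc⟩ := mem_expand.mp hc'
  exact hq j c hj _ (fun k => rfl) c' hc

theorem expand_forall {C C' : Type} {g : C × ℕ → List C'} {l : List C} {S : C → Prop}
    {S' : C' → Prop} (h : ∀ c' ∈ expand g l, S' c')
    (hloc : ∀ c j, (∀ c' ∈ g (c, j), S' c') → S c) : ∀ c ∈ l, S c := by
  intro c hc
  obtain ⟨j, hj⟩ := List.mem_iff_getElem?.mp hc
  exact hloc c j (fun c' hc' => h c' (mem_expand.mpr ⟨c, j, hj, hc'⟩))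

/-! ### constraints -/

/-- two kinds of point constraints -/
inductive Con1 (α : Type) where
  | unit (a b : α)
  | far (a b : α)

/-- three kinds of point constraints -/
inductive Con (α : Type) where
  | unit (a b : α)
  | diag (a b : α)
  | far (a b : α)

variable {d : ℕ} {α : Type}

/-- realized with room -/
def Con1.Strong (p : α → E d) : Con1 α → Prop
  | unit a b => dsq (p a) (p b) = 1
  | far a b => 2 / 3 ≤ ‖p a - p b‖ ∧ ‖p a - p b‖ ≤ 12 / 5

/-- what a realization enforces -/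
def Con1.Weak (p : α → E d) : Con1 α → Prop
  | unit a b => dsq (p a) (p b) = 1
  | far a b => p a ≠ p b

/-- realized with room -/
def Con.Strong (p : α → E d) : Con α → Prop
  | unit a b => dsq (p a) (p b) = 1
  | diag a b => dsq (p a) (p b) = 2
  | far a b => 2 / 3 ≤ ‖p a - p b‖ ∧ ‖p a - p b‖ ≤ 12 / 5

/-- what a realization enforces -/
def Con.Weak (p : α → E d) : Con α → Prop
  | unit a b => dsq (p a) (p b) = 1
  | diag a b => dsq (p a) (p b) = 2
  | far a b => p a ≠ p b

/-! ### the distinctness gadget -/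

/-- edges of the distinctness gadget on `a, b` with fresh vertices `(j, 0), …, (j, d)` -/
def farG (d : ℕ) (a b : α) (j : ℕ) : List ((α ⊕ (ℕ × ℕ)) × (α ⊕ (ℕ × ℕ))) :=
  (Sum.inl b, Sum.inr (j, 0)) ::
    ((List.range (d + 1)).flatMap fun i =>
      (if i = 0 then [] else [(Sum.inl a, Sum.inr (j, i))]) ++
        ((List.range (d + 1)).flatMap fun k => if k < i then [(Sum.inr (j, i), Sum.inr (j, k))]
          else []))

/-- from distinctness to unit edges -/
def pass1 (d : ℕ) : Con1 α × ℕ → List ((α ⊕ (ℕ × ℕ)) × (α ⊕ (ℕ × ℕ)))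
  | (Con1.unit a b, _) => [(Sum.inl a, Sum.inl b)]
  | (Con1.far a b, j) => farG d a b j

theorem mem_farG {a b : α} {j : ℕ} {e : (α ⊕ (ℕ × ℕ)) × (α ⊕ (ℕ × ℕ))} :
    e ∈ farG d a b j ↔ e = (Sum.inl b, Sum.inr (j, 0)) ∨
      (∃ i, 1 ≤ i ∧ i ≤ d ∧ e = (Sum.inl a, Sum.inr (j, i))) ∨
      (∃ i k, i ≤ d ∧ k < i ∧ e = (Sum.inr (j, i), Sum.inr (j, k))) := by
  unfold farG
  simp only [List.mem_cons, List.mem_flatMap, List.mem_range, List.mem_append]
  constructor
  · rintro (h | ⟨i, hi, h | ⟨k, hk, h⟩⟩)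
    · exact Or.inl h
    · split_ifs at h with h0
      · simp at h
      · exact Or.inr (Or.inl ⟨i, by omega, by omega, by simpa using h⟩)
    · split_ifs at h with h0
      · exact Or.inr (Or.inr ⟨i, k, by omega, h0, by simpa using h⟩)
      · simp at h
  · rintro (h | ⟨i, h1, h2, h⟩ | ⟨i, k, h1, h2, h⟩)
    · exact Or.inl h
    · exact Or.inr ⟨i, by omega, Or.inl (by rw [if_neg (by omega)]; simp [h])⟩
    · exact Or.inr ⟨i, by omega, Or.inr ⟨k, by omega, by rw [if_pos h2]; simp [h]⟩⟩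

/-- edge realized -/
def EdgeSat (p : α → E d) (e : α × α) : Prop := dsq (p e.1) (p e.2) = 1

theorem pass1_strong (hd : 3 ≤ d) (l : List (Con1 α)) (p : α → E d)
    (hp : ∀ c ∈ l, Con1.Strong p c) :
    ∃ r : ℕ × ℕ → E d, ∀ e ∈ expand (pass1 d) l, EdgeSat (Sum.elim p r) e := by
  refine expand_exists (X := E d) (pass1 d) (Con1.Strong p) (fun q e => EdgeSat q e) l p hp ?_
  rintro (⟨a, b⟩ | ⟨a, b⟩) j hc
  · refine ⟨fun _ => 0, fun r _ e he => ?_⟩
    simp only [pass1, List.mem_singleton] at he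
    subst he
    exact hc
  · obtain ⟨c, h1, h2, h3⟩ := far_strong hd (p a) (p b) hc.1 hc.2
    refine ⟨c, fun r hr e he => ?_⟩
    simp only [pass1] at he
    rcases mem_farG.mp he with rfl | ⟨i, hi1, hi2, rfl⟩ | ⟨i, k, hi1, hi2, rfl⟩
    · simpa [EdgeSat, hr] using h3
    · simpa [EdgeSat, hr] using h2 i hi1 hi2
    · simpa [EdgeSat, hr] using h1 i k hi1 (by omega) (by omega)

theorem pass1_weak (l : List (Con1 α)) (p : α ⊕ (ℕ × ℕ) → E d)
    (hp : ∀ e ∈ expand (pass1 d) l, EdgeSat p e) :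
    ∀ c ∈ l, Con1.Weak (fun a => p (Sum.inl a)) c := by
  refine expand_forall hp ?_
  rintro (⟨a, b⟩ | ⟨a, b⟩) j h
  · exact h (Sum.inl a, Sum.inl b) (by simp [pass1])
  · have h' : ∀ e ∈ farG d a b j, EdgeSat p e := h
    refine far_weak (p (Sum.inl a)) (p (Sum.inl b)) (fun i => p (Sum.inr (j, i))) ?_ ?_ ?_
    · intro i k hi hk hik
      rcases lt_or_gt_of_ne hik with hlt | hlt
      · have h1 := h' (Sum.inr (j, k), Sum.inr (j, i))
          (mem_farG.mpr (Or.inr (Or.inr ⟨k, i, hk, hlt, rfl⟩)))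
        rw [dsq_comm]; exact h1
      · exact h' (Sum.inr (j, i), Sum.inr (j, k))
          (mem_farG.mpr (Or.inr (Or.inr ⟨i, k, hi, hlt, rfl⟩)))
    · intro i h1 h2
      exact h' (Sum.inl a, Sum.inr (j, i)) (mem_farG.mpr (Or.inr (Or.inl ⟨i, h1, h2, rfl⟩)))
    · exact h' (Sum.inl b, Sum.inr (j, 0)) (mem_farG.mpr (Or.inl rfl))

/-! ### the cross-polytope gadget -/

/-- vertices of the cross-polytope -/
def crossPt (a b : α) (j : ℕ) (i : ℕ) (s : Bool) : α ⊕ (ℕ × ℕ) :=
  if i = 0 then (if s then Sum.inl a else Sum.inl b) else Sum.inr (j, if s then 2 * i else 2 * i + 1)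

/-- constraints of the cross-polytope gadget on the diagonal `a, b` -/
def crossG (d : ℕ) (a b : α) (j : ℕ) : List (Con1 (α ⊕ (ℕ × ℕ))) :=
  (List.range d).flatMap fun i =>
    Con1.far (crossPt a b j i true) (crossPt a b j i false) ::
      ((List.range d).flatMap fun k => if k < i then
        [Con1.unit (crossPt a b j i true) (crossPt a b j k true),
         Con1.unit (crossPt a b j i true) (crossPt a b j k false),
         Con1.unit (crossPt a b j i false) (crossPt a b j k true),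
         Con1.unit (crossPt a b j i false) (crossPt a b j k false)] else [])

theorem mem_crossG {a b : α} {j : ℕ} {c : Con1 (α ⊕ (ℕ × ℕ))} :
    c ∈ crossG d a b j ↔ (∃ i, i < d ∧ c = Con1.far (crossPt a b j i true) (crossPt a b j i false)) ∨
      (∃ i k s s', i < d ∧ k < i ∧ c = Con1.unit (crossPt a b j i s) (crossPt a b j k s')) := by
  unfold crossG
  simp only [List.mem_cons, List.mem_flatMap, List.mem_range]
  constructor
  · rintro ⟨i, hi, h | ⟨k, hk, h⟩⟩
    · exact Or.inl ⟨i, hi, h⟩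
    · split_ifs at h with h0
      · simp only [List.mem_cons, List.not_mem_nil, or_false] at h
        rcases h with h | h | h | h
        · exact Or.inr ⟨i, k, true, true, hi, h0, h⟩
        · exact Or.inr ⟨i, k, true, false, hi, h0, h⟩
        · exact Or.inr ⟨i, k, false, true, hi, h0, h⟩
        · exact Or.inr ⟨i, k, false, false, hi, h0, h⟩
      · simp at h
  · rintro (⟨i, hi, h⟩ | ⟨i, k, s, s', hi, hk, h⟩)
    · exact ⟨i, hi, Or.inl h⟩
    · refine ⟨i, hi, Or.inr ⟨k, by omega, ?_⟩⟩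
      rw [if_pos hk]
      cases s <;> cases s' <;> simp [h]

/-- eliminate diagonals -/
def pass2 (d : ℕ) : Con α × ℕ → List (Con1 (α ⊕ (ℕ × ℕ)))
  | (Con.unit a b, _) => [Con1.unit (Sum.inl a) (Sum.inl b)]
  | (Con.far a b, _) => [Con1.far (Sum.inl a) (Sum.inl b)]
  | (Con.diag a b, j) => crossG d a b j

theorem norm_of_dsq_two {x y : E d} (h : dsq x y = 2) : 2 / 3 ≤ ‖x - y‖ ∧ ‖x - y‖ ≤ 12 / 5 := by
  have h0 : 0 ≤ ‖x - y‖ := norm_nonneg _
  have h1 : ‖x - y‖ ^ 2 = 2 := h
  constructor <;> nlinarith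

theorem pass2_strong (hd : 3 ≤ d) (l : List (Con α)) (p : α → E d)
    (hp : ∀ c ∈ l, Con.Strong p c) :
    ∃ r : ℕ × ℕ → E d, ∀ c ∈ expand (pass2 d) l, Con1.Strong (Sum.elim p r) c := by
  refine expand_exists (X := E d) (pass2 d) (Con.Strong p) (fun q c => Con1.Strong q c) l p hp ?_
  rintro (⟨a, b⟩ | ⟨a, b⟩ | ⟨a, b⟩) j hc
  · refine ⟨fun _ => 0, fun r _ e he => ?_⟩
    simp only [pass2, List.mem_singleton] at he
    subst he
    exact hc
  · obtain ⟨A, A', hA, hA', h1, h2, h3, h4⟩ := cross_strong (⟨0, by omega⟩ : Fin d)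
      (u := p a) (v := p b) hc
    refine ⟨fun n => if h : n / 2 < d then (if n % 2 = 0 then A ⟨n / 2, h⟩ else A' ⟨n / 2, h⟩)
      else 0, fun r hr c he => ?_⟩
    have hT : ∀ i (hi : i < d), Sum.elim p r (crossPt a b j i true) = A ⟨i, hi⟩ := by
      intro i hi
      unfold crossPt
      by_cases h0 : i = 0
      · subst h0; simp [hA]
      · have e1 : 2 * i / 2 = i := by omega
        have e2 : 2 * i % 2 = 0 := by omega
        simp [h0, hr, hi]
    have hF : ∀ i (hi : i < d), Sum.elim p r (crossPt a b j i false) = A' ⟨i, hi⟩ := by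
      intro i hi
      unfold crossPt
      by_cases h0 : i = 0
      · subst h0; simp [hA']
      · have e1 : (2 * i + 1) / 2 = i := by omega
        have e2 : ¬ (2 * i + 1) % 2 = 0 := by omega
        simp [h0, hr, e1, hi]
    rcases mem_crossG.mp he with ⟨i, hi, rfl⟩ | ⟨i, k, s, s', hi, hk, rfl⟩
    · unfold Con1.Strong
      simp only
      rw [hT i hi, hF i hi]
      exact norm_of_dsq_two (h4 _)
    · have hk' : k < d := by omega
      have hik : (⟨i, hi⟩ : Fin d) ≠ ⟨k, hk'⟩ := by simp only [ne_eq, Fin.mk.injEq]; omega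
      unfold Con1.Strong
      simp only
      cases s <;> cases s'
      · rw [hF i hi, hF k hk']; exact h3 _ _ hik
      · rw [hF i hi, hT k hk', dsq_comm]; exact h2 _ _ (Ne.symm hik)
      · rw [hT i hi, hF k hk']; exact h2 _ _ hik
      · rw [hT i hi, hT k hk']; exact h1 _ _ hik
  · refine ⟨fun _ => 0, fun r _ e he => ?_⟩
    simp only [pass2, List.mem_singleton] at he
    subst he
    exact hc

theorem pass2_weak (hd : 3 ≤ d) (l : List (Con α)) (p : α ⊕ (ℕ × ℕ) → E d)
    (hp : ∀ c ∈ expand (pass2 d) l, Con1.Weak p c) :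
    ∀ c ∈ l, Con.Weak (fun a => p (Sum.inl a)) c := by
  refine expand_forall hp ?_
  rintro (⟨a, b⟩ | ⟨a, b⟩ | ⟨a, b⟩) j h
  · exact h (Con1.unit (Sum.inl a) (Sum.inl b)) (by simp [pass2])
  · have h' : ∀ c ∈ crossG d a b j, Con1.Weak p c := h
    have hu : ∀ i k s s', i < d → k < d → i ≠ k →
        dsq (p (crossPt a b j i s)) (p (crossPt a b j k s')) = 1 := by
      intro i k s s' hi hk hik
      rcases lt_or_gt_of_ne hik with hlt | hlt
      · rw [dsq_comm]
        exact h' _ (mem_crossG.mpr (Or.inr ⟨k, i, s', s, hk, hlt, rfl⟩))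
      · exact h' _ (mem_crossG.mpr (Or.inr ⟨i, k, s, s', hi, hlt, rfl⟩))
    have := cross_weak hd (fun i : Fin d => p (crossPt a b j i true))
      (fun i : Fin d => p (crossPt a b j i false))
      (fun i => h' _ (mem_crossG.mpr (Or.inl ⟨i, i.2, rfl⟩)))
      (fun i k hik => hu i k true true i.2 k.2 (fun h => hik (Fin.ext h)))
      (fun i k hik => hu i k true false i.2 k.2 (fun h => hik (Fin.ext h)))
      (fun i k hik => hu i k false false i.2 k.2 (fun h => hik (Fin.ext h)))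
      ⟨0, by omega⟩
    simpa [crossPt, Con.Weak] using this
  · exact h (Con1.far (Sum.inl a) (Sum.inl b)) (by simp [pass2])

end Pool.Agent.H69.UL
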