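import Mathlib
import Pool.Agent.H69.UL.Defs
import Pool.Agent.H69.UL.Ball3
import Pool.Agent.H69.UL.Levels

/-!
From formulas to elementary equations.
-/

set_option autoImplicit false

namespace Pool.Agent.H69.UL

/-- symbols -/
abbrev Sym := ℕ × ℤ
/-- nodes: position, symbol, positions of the arguments -/
abbrev Node := ℕ × Sym × ℕ × ℕ

/-- scanning state: stack of roots, nodes so far -/
def scanStep (s : List ℕ × List Node) (z : Sym × ℕ) : List ℕ × List Node :=
  if z.1.1 ≤ 1 then (z.2 :: s.1, (z.2, z.1, 0, 0) :: s.2)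
  else if z.1.1 = 7 then (z.2 :: s.1.tail, (z.2, z.1, s.1.headD 0, 0) :: s.2)
  else (z.2 :: s.1.tail.tail, (z.2, z.1, s.1.tail.headD 0, s.1.headD 0) :: s.2)

/-- the nodes of an expression -/
def scan (l : List Sym) : List Node := (l.zipIdx.foldl scanStep ([], [])).2

/-- number of symbols -/
def PTerm.len (t : PTerm) : ℕ := t.symbols.length
/-- number of symbols -/
def Fml.len (φ : Fml) : ℕ := φ.symbols.length

theorem PTerm.len_pos (t : PTerm) : 0 < t.len := by
  unfold PTerm.len; cases t <;> simp [PTerm.symbols]

theorem Fml.len_pos (φ : Fml) : 0 < φ.len := by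
  unfold Fml.len; cases φ <;> simp [Fml.symbols]

/-- nodes of a term starting at position `i` -/
def nodesT : PTerm → ℕ → List Node
  | PTerm.const z, i => [(i, (0, z), 0, 0)]
  | PTerm.var k, i => [(i, (1, (k : ℤ)), 0, 0)]
  | PTerm.add s t, i => (i + s.len + t.len, (2, 0), i + s.len - 1, i + s.len + t.len - 1) ::
      (nodesT t (i + s.len) ++ nodesT s i)
  | PTerm.mul s t, i => (i + s.len + t.len, (3, 0), i + s.len - 1, i + s.len + t.len - 1) ::
      (nodesT t (i + s.len) ++ nodesT s i)

/-- nodes of a formula starting at position `i` -/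
def nodesF : Fml → ℕ → List Node
  | Fml.eq s t, i => (i + s.len + t.len, (4, 0), i + s.len - 1, i + s.len + t.len - 1) ::
      (nodesT t (i + s.len) ++ nodesT s i)
  | Fml.lt s t, i => (i + s.len + t.len, (5, 0), i + s.len - 1, i + s.len + t.len - 1) ::
      (nodesT t (i + s.len) ++ nodesT s i)
  | Fml.le s t, i => (i + s.len + t.len, (6, 0), i + s.len - 1, i + s.len + t.len - 1) ::
      (nodesT t (i + s.len) ++ nodesT s i)
  | Fml.not φ, i => (i + φ.len, (7, 0), i + φ.len - 1, 0) :: nodesF φ i
  | Fml.and s t, i => (i + s.len + t.len, (8, 0), i + s.len - 1, i + s.len + t.len - 1) ::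
      (nodesF t (i + s.len) ++ nodesF s i)
  | Fml.or s t, i => (i + s.len + t.len, (9, 0), i + s.len - 1, i + s.len + t.len - 1) ::
      (nodesF t (i + s.len) ++ nodesF s i)

/-- scanning from position `i` -/
def Scans (l : List Sym) (i : ℕ) (N : List Node) : Prop := ∀ (st : List ℕ) (out : List Node),
  (l.zipIdx i).foldl scanStep (st, out) = ((i + l.length - 1) :: st, N ++ out)

theorem scans_bin {l1 l2 : List Sym} {i k : ℕ} {N1 N2 : List Node} (h1 : Scans l1 i N1)
    (h2 : Scans l2 (i + l1.length) N2) (hk : 2 ≤ k) (hk7 : k ≠ 7) :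
    Scans (l1 ++ l2 ++ [(k, 0)]) i
      ((i + l1.length + l2.length, (k, 0), i + l1.length - 1, i + l1.length + l2.length - 1) ::
        (N2 ++ N1)) := by
  intro st out
  rw [List.zipIdx_append, List.zipIdx_append, List.foldl_append, List.foldl_append, h1, h2]
  simp only [List.zipIdx_cons, List.zipIdx_nil, List.foldl_cons, List.foldl_nil, scanStep]
  have h3 : ¬ k ≤ 1 := by omega
  simp only [if_neg h3, if_neg hk7, List.tail_cons, List.headD_cons, List.length_append,
    List.length_cons, List.length_nil, List.cons_append, List.append_assoc]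
  congr 2
  · congr 1; omega

theorem scans_un {l : List Sym} {i : ℕ} {N : List Node} (h : Scans l i N) :
    Scans (l ++ [(7, 0)]) i ((i + l.length, (7, 0), i + l.length - 1, 0) :: N) := by
  intro st out
  rw [List.zipIdx_append, List.foldl_append, h]
  simp only [List.zipIdx_cons, List.zipIdx_nil, List.foldl_cons, List.foldl_nil, scanStep]
  have h3 : ¬ (7:ℕ) ≤ 1 := by omega
  simp only [if_neg h3, if_true, List.tail_cons, List.headD_cons, List.length_append,
    List.length_cons, List.length_nil, List.cons_append]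
  congr 2

theorem scans_term (t : PTerm) : ∀ i, Scans t.symbols i (nodesT t i) := by
  induction t with
  | const z => intro i st out; simp [PTerm.symbols, scanStep, nodesT]
  | var k => intro i st out; simp [PTerm.symbols, scanStep, nodesT]
  | add s t ihs iht => intro i; exact scans_bin (ihs i) (iht _) (by omega) (by omega)
  | mul s t ihs iht => intro i; exact scans_bin (ihs i) (iht _) (by omega) (by omega)

theorem scans_fml (φ : Fml) : ∀ i, Scans φ.symbols i (nodesF φ i) := by
  induction φ with
  | eq s t => intro i; exact scans_bin (scans_term s i) (scans_term t _) (by omega) (by omega)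
  | lt s t => intro i; exact scans_bin (scans_term s i) (scans_term t _) (by omega) (by omega)
  | le s t => intro i; exact scans_bin (scans_term s i) (scans_term t _) (by omega) (by omega)
  | not φ ih => intro i; exact scans_un (ih i)
  | and s t ihs iht => intro i; exact scans_bin (ihs i) (iht _) (by omega) (by omega)
  | or s t ihs iht => intro i; exact scans_bin (ihs i) (iht _) (by omega) (by omega)

theorem scan_fml (φ : Fml) : scan φ.symbols = nodesF φ 0 := by
  unfold scan
  rw [scans_fml φ 0 [] []]
  simp

/-! ### values of nodes -/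

open Classical in
/-- value of a symbol applied to arguments; formulas have value `1` or `0` -/
noncomputable def nodeVal (x : ℕ → ℝ) (s : Sym) (u w : ℝ) : ℝ :=
  if s.1 = 0 then (s.2 : ℝ)
  else if s.1 = 1 then x s.2.toNat
  else if s.1 = 2 then u + w
  else if s.1 = 3 then u * w
  else if s.1 = 4 then (if u = w then 1 else 0)
  else if s.1 = 5 then (if u < w then 1 else 0)
  else if s.1 = 6 then (if u ≤ w then 1 else 0)
  else if s.1 = 7 then 1 - u
  else if s.1 = 8 then u * w
  else if s.1 = 9 then u + w - u * w
  else 0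

/-- the value at a node is the right one -/
def NodeHolds (x : ℕ → ℝ) (v : ℕ → ℝ) (nd : Node) : Prop :=
  v nd.1 = nodeVal x nd.2.1 (v nd.2.2.1) (v nd.2.2.2)

open Classical in
/-- truth value of a formula -/
noncomputable def Fml.ind (x : ℕ → ℝ) (φ : Fml) : ℝ := if φ.Holds x then 1 else 0

theorem term_forced {x : ℕ → ℝ} {v : ℕ → ℝ} (t : PTerm) :
    ∀ i, (∀ nd ∈ nodesT t i, NodeHolds x v nd) → v (i + t.len - 1) = t.eval x := by
  induction t with
  | const z =>
    intro i h
    have h1 := h (i, (0, z), 0, 0) (by simp [nodesT])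
    simpa [NodeHolds, nodeVal, PTerm.len, PTerm.symbols, PTerm.eval] using h1
  | var k =>
    intro i h
    have h1 := h (i, (1, (k : ℤ)), 0, 0) (by simp [nodesT])
    simpa [NodeHolds, nodeVal, PTerm.len, PTerm.symbols, PTerm.eval] using h1
  | add s t ihs iht =>
    intro i h
    have h1 := h _ (List.mem_cons_self)
    have h2 := iht (i + s.len) (fun nd hnd => h nd (by simp [nodesT, hnd]))
    have h3 := ihs i (fun nd hnd => h nd (by simp [nodesT, hnd]))
    simp only [NodeHolds] at h1
    rw [h2, h3] at h1
    have e : i + (PTerm.add s t).len - 1 = i + s.len + t.len := by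
      simp [PTerm.len, PTerm.symbols]; omega
    rw [e, h1]; simp [nodeVal, PTerm.eval]
  | mul s t ihs iht =>
    intro i h
    have h1 := h _ (List.mem_cons_self)
    have h2 := iht (i + s.len) (fun nd hnd => h nd (by simp [nodesT, hnd]))
    have h3 := ihs i (fun nd hnd => h nd (by simp [nodesT, hnd]))
    simp only [NodeHolds] at h1
    rw [h2, h3] at h1
    have e : i + (PTerm.mul s t).len - 1 = i + s.len + t.len := by
      simp [PTerm.len, PTerm.symbols]; omega
    rw [e, h1]; simp [nodeVal, PTerm.eval]

theorem fml_forced {x : ℕ → ℝ} {v : ℕ → ℝ} (φ : Fml) :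
    ∀ i, (∀ nd ∈ nodesF φ i, NodeHolds x v nd) → v (i + φ.len - 1) = φ.ind x := by
  classical
  induction φ with
  | eq s t =>
    intro i h
    have h1 := h _ (List.mem_cons_self)
    have h2 := term_forced t (i + s.len) (fun nd hnd => h nd (by simp [nodesF, hnd]))
    have h3 := term_forced s i (fun nd hnd => h nd (by simp [nodesF, hnd]))
    simp only [NodeHolds] at h1
    rw [h2, h3] at h1
    have e : i + (Fml.eq s t).len - 1 = i + s.len + t.len := by
      simp [Fml.len, PTerm.len, Fml.symbols]; omega
    rw [e, h1]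
    by_cases hh : s.eval x = t.eval x <;> simp [nodeVal, Fml.ind, Fml.Holds, hh]
  | lt s t =>
    intro i h
    have h1 := h _ (List.mem_cons_self)
    have h2 := term_forced t (i + s.len) (fun nd hnd => h nd (by simp [nodesF, hnd]))
    have h3 := term_forced s i (fun nd hnd => h nd (by simp [nodesF, hnd]))
    simp only [NodeHolds] at h1
    rw [h2, h3] at h1
    have e : i + (Fml.lt s t).len - 1 = i + s.len + t.len := by
      simp [Fml.len, PTerm.len, Fml.symbols]; omega
    rw [e, h1]
    by_cases hh : s.eval x < t.eval x <;> simp [nodeVal, Fml.ind, Fml.Holds, hh]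
  | le s t =>
    intro i h
    have h1 := h _ (List.mem_cons_self)
    have h2 := term_forced t (i + s.len) (fun nd hnd => h nd (by simp [nodesF, hnd]))
    have h3 := term_forced s i (fun nd hnd => h nd (by simp [nodesF, hnd]))
    simp only [NodeHolds] at h1
    rw [h2, h3] at h1
    have e : i + (Fml.le s t).len - 1 = i + s.len + t.len := by
      simp [Fml.len, PTerm.len, Fml.symbols]; omega
    rw [e, h1]
    by_cases hh : s.eval x ≤ t.eval x <;> simp [nodeVal, Fml.ind, Fml.Holds, hh]
  | not φ ih =>
    intro i h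
    have h1 := h _ (List.mem_cons_self)
    have h2 := ih i (fun nd hnd => h nd (by simp [nodesF, hnd]))
    simp only [NodeHolds] at h1
    rw [h2] at h1
    have e : i + (Fml.not φ).len - 1 = i + φ.len := by
      simp [Fml.len, Fml.symbols]
    rw [e, h1]
    by_cases hh : φ.Holds x <;> simp [nodeVal, Fml.ind, Fml.Holds, hh]
  | and s t ihs iht =>
    intro i h
    have h1 := h _ (List.mem_cons_self)
    have h2 := iht (i + s.len) (fun nd hnd => h nd (by simp [nodesF, hnd]))
    have h3 := ihs i (fun nd hnd => h nd (by simp [nodesF, hnd]))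
    simp only [NodeHolds] at h1
    rw [h2, h3] at h1
    have e : i + (Fml.and s t).len - 1 = i + s.len + t.len := by
      simp [Fml.len, Fml.symbols]; omega
    rw [e, h1]
    by_cases hs : s.Holds x <;> by_cases ht : t.Holds x <;>
      simp [nodeVal, Fml.ind, Fml.Holds, hs, ht]
  | or s t ihs iht =>
    intro i h
    have h1 := h _ (List.mem_cons_self)
    have h2 := iht (i + s.len) (fun nd hnd => h nd (by simp [nodesF, hnd]))
    have h3 := ihs i (fun nd hnd => h nd (by simp [nodesF, hnd]))
    simp only [NodeHolds] at h1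
    rw [h2, h3] at h1
    have e : i + (Fml.or s t).len - 1 = i + s.len + t.len := by
      simp [Fml.len, Fml.symbols]; omega
    rw [e, h1]
    by_cases hs : s.Holds x <;> by_cases ht : t.Holds x <;>
      simp [nodeVal, Fml.ind, Fml.Holds, hs, ht]

/-! ### existence of values -/

/-- the nodes `N`, on the positions from `i` to `k - 1`, have consistent values -/
def Cons (x : ℕ → ℝ) (N : List Node) (i k : ℕ) : Prop :=
  i < k ∧ ∃ v : ℕ → ℝ, ∀ v' : ℕ → ℝ, (∀ p, i ≤ p → p < k → v' p = v p) →
    ∀ nd ∈ N, NodeHolds x v' nd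

theorem cons_bin {x : ℕ → ℝ} {N1 N2 : List Node} {i j k c : ℕ} (h1 : Cons x N1 i j)
    (h2 : Cons x N2 j k) (nd : Node) (hnd : nd = (k, (c, 0), j - 1, k - 1)) :
    Cons x (nd :: (N2 ++ N1)) i (k + 1) := by
  obtain ⟨hij, v1, h1⟩ := h1
  obtain ⟨hjk, v2, h2⟩ := h2
  refine ⟨by omega, fun p => if p < j then v1 p else if p < k then v2 p else
    nodeVal x (c, 0) (v1 (j - 1)) (v2 (k - 1)), fun v' hv' => ?_⟩
  beta_reduce at hv'
  intro nd' hnd'
  rw [List.mem_cons, List.mem_append] at hnd'
  rcases hnd' with rfl | hnd' | hnd'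
  · subst hnd
    unfold NodeHolds
    simp only
    rw [hv' k (by omega) (by omega), hv' (j - 1) (by omega) (by omega),
      hv' (k - 1) (by omega) (by omega)]
    rw [if_neg (by omega), if_neg (by omega), if_pos (by omega), if_neg (by omega),
      if_pos (by omega)]
  · apply h2 v' _ nd' hnd'
    intro p hp1 hp2
    rw [hv' p (by omega) (by omega), if_neg (by omega), if_pos hp2]
  · apply h1 v' _ nd' hnd'
    intro p hp1 hp2
    rw [hv' p (by omega) (by omega), if_pos hp2]

theorem cons_un {x : ℕ → ℝ} {N : List Node} {i k : ℕ} (h1 : Cons x N i k) :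
    Cons x ((k, (7, 0), k - 1, 0) :: N) i (k + 1) := by
  obtain ⟨hij, v1, h1⟩ := h1
  refine ⟨by omega, fun p => if p < k then v1 p else 1 - v1 (k - 1), fun v' hv' => ?_⟩
  beta_reduce at hv'
  intro nd' hnd'
  rw [List.mem_cons] at hnd'
  rcases hnd' with rfl | hnd'
  · unfold NodeHolds
    simp only
    rw [hv' k (by omega) (by omega), hv' (k - 1) (by omega) (by omega)]
    rw [if_neg (by omega), if_pos (by omega)]
    simp [nodeVal]
  · apply h1 v' _ nd' hnd'
    intro p hp1 hp2
    rw [hv' p (by omega) (by omega), if_pos hp2]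

theorem cons_term (x : ℕ → ℝ) (t : PTerm) : ∀ i, Cons x (nodesT t i) i (i + t.len) := by
  induction t with
  | const z =>
    intro i
    refine ⟨by simp [PTerm.len, PTerm.symbols], fun _ => z, fun v' hv' nd hnd => ?_⟩
    simp only [nodesT, List.mem_singleton] at hnd
    subst hnd
    unfold NodeHolds
    rw [hv' i le_rfl (by simp [PTerm.len, PTerm.symbols])]
    simp [nodeVal]
  | var k =>
    intro i
    refine ⟨by simp [PTerm.len, PTerm.symbols], fun _ => x k, fun v' hv' nd hnd => ?_⟩
    simp only [nodesT, List.mem_singleton] at hnd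
    subst hnd
    unfold NodeHolds
    rw [hv' i le_rfl (by simp [PTerm.len, PTerm.symbols])]
    simp [nodeVal]
  | add s t ihs iht =>
    intro i
    have e : i + (PTerm.add s t).len = i + s.len + t.len + 1 := by
      simp [PTerm.len, PTerm.symbols]; omega
    rw [e]
    exact cons_bin (ihs i) (iht _) _ rfl
  | mul s t ihs iht =>
    intro i
    have e : i + (PTerm.mul s t).len = i + s.len + t.len + 1 := by
      simp [PTerm.len, PTerm.symbols]; omega
    rw [e]
    exact cons_bin (ihs i) (iht _) _ rfl

theorem cons_fml (x : ℕ → ℝ) (φ : Fml) : ∀ i, Cons x (nodesF φ i) i (i + φ.len) := by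
  induction φ with
  | eq s t =>
    intro i
    have e : i + (Fml.eq s t).len = i + s.len + t.len + 1 := by
      simp [Fml.len, PTerm.len, Fml.symbols]; omega
    rw [e]
    exact cons_bin (cons_term x s i) (cons_term x t _) _ rfl
  | lt s t =>
    intro i
    have e : i + (Fml.lt s t).len = i + s.len + t.len + 1 := by
      simp [Fml.len, PTerm.len, Fml.symbols]; omega
    rw [e]
    exact cons_bin (cons_term x s i) (cons_term x t _) _ rfl
  | le s t =>
    intro i
    have e : i + (Fml.le s t).len = i + s.len + t.len + 1 := by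
      simp [Fml.len, PTerm.len, Fml.symbols]; omega
    rw [e]
    exact cons_bin (cons_term x s i) (cons_term x t _) _ rfl
  | not φ ih =>
    intro i
    have e : i + (Fml.not φ).len = i + φ.len + 1 := by
      simp [Fml.len, Fml.symbols]; omega
    rw [e]
    exact cons_un (ih i)
  | and s t ihs iht =>
    intro i
    have e : i + (Fml.and s t).len = i + s.len + t.len + 1 := by
      simp [Fml.len, Fml.symbols]; omega
    rw [e]
    exact cons_bin (ihs i) (iht _) _ rfl
  | or s t ihs iht =>
    intro i
    have e : i + (Fml.or s t).len = i + s.len + t.len + 1 := by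
      simp [Fml.len, Fml.symbols]; omega
    rw [e]
    exact cons_bin (ihs i) (iht _) _ rfl

/-- satisfiability through the nodes -/
theorem sat_iff_nodes (φ : Fml) : (∃ x, φ.Holds x) ↔
    ∃ x v, (∀ nd ∈ scan φ.symbols, NodeHolds x v nd) ∧ v (φ.symbols.length - 1) = 1 := by
  classical
  rw [scan_fml]
  constructor
  · rintro ⟨x, hx⟩
    obtain ⟨_, v, hv⟩ := cons_fml x φ 0
    have h1 := hv v (fun _ _ _ => rfl)
    refine ⟨x, v, h1, ?_⟩
    have h2 := fml_forced φ 0 h1
    rw [zero_add] at h2
    rw [show φ.symbols.length - 1 = φ.len - 1 from rfl, h2]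
    simp [Fml.ind, hx]
  · rintro ⟨x, v, h1, h2⟩
    refine ⟨x, ?_⟩
    have h3 := fml_forced φ 0 h1
    rw [zero_add] at h3
    rw [show φ.symbols.length - 1 = φ.len - 1 from rfl, h3] at h2
    by_contra hcon
    simp [Fml.ind, hcon] at h2

end Pool.Agent.H69.UL
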