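import Mathlib
import Pool.Agent.H69.UL.Formula

/-!
Elementary equations computing the value at a node.
-/

set_option autoImplicit false

namespace Pool.Agent.H69.UL

open Pool.Agent.H80.Poly (val val_encodeNat)

/-- variables of the elementary equations: variables of the formula, values of nodes, fresh ones -/
abbrev V5 := (ℕ ⊕ ℕ) ⊕ (ℕ × ℕ)

/-- variable of the formula -/
def vx (i : ℕ) : V5 := Sum.inl (Sum.inl i)
/-- value of a node -/
def vn (p : ℕ) : V5 := Sum.inl (Sum.inr p)
/-- fresh variable -/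
def vf (j k : ℕ) : V5 := Sum.inr (j, k)

/-- binary digits of a natural number -/
def bitsOf (n : ℕ) : List Bool := Computability.encodeNat n

/-- the variable `y` has the value of the integer `z` -/
def constG (z : ℤ) (y : V5) (j : ℕ) : List (PCon V5) :=
  PCon.one (vf j 1) ::
  PCon.add (vf j (2 * (bitsOf z.natAbs).length + 2)) (vf j (2 * (bitsOf z.natAbs).length + 2))
    (vf j (2 * (bitsOf z.natAbs).length + 2)) ::
  (if z < 0 then PCon.add y (vf j 2) (vf j (2 * (bitsOf z.natAbs).length + 2))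
    else PCon.add (vf j 2) (vf j (2 * (bitsOf z.natAbs).length + 2)) y) ::
  (bitsOf z.natAbs).zipIdx.flatMap fun b =>
    [PCon.add (vf j (2 * b.2 + 4)) (vf j (2 * b.2 + 4)) (vf j (2 * b.2 + 3)),
     PCon.add (vf j (2 * b.2 + 3))
      (if b.1 then vf j 1 else vf j (2 * (bitsOf z.natAbs).length + 2)) (vf j (2 * b.2 + 2))]

/-- the variable `y` is `1` if `a < b` and `0` otherwise -/
def ltG (a b y : V5) (j : ℕ) : List (PCon V5) :=
  [PCon.add (vf j 0) a b, PCon.one (vf j 1), PCon.add (vf j 2) (vf j 2) (vf j 2),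
   PCon.mul y y y, PCon.add (vf j 3) y (vf j 1),
   PCon.mul (vf j 4) (vf j 4) (vf j 5), PCon.mul (vf j 0) (vf j 5) (vf j 6),
   PCon.add (vf j 7) (vf j 1) (vf j 6), PCon.mul y (vf j 7) (vf j 2),
   PCon.mul (vf j 8) (vf j 8) (vf j 9), PCon.add (vf j 0) (vf j 9) (vf j 10),
   PCon.mul (vf j 3) (vf j 10) (vf j 2)]

/-- the variable `y` is `1` if `a = b` and `0` otherwise -/
def eqG (a b y : V5) (j : ℕ) : List (PCon V5) :=
  [PCon.add (vf j 0) a b, PCon.one (vf j 1), PCon.add (vf j 2) (vf j 2) (vf j 2),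
   PCon.mul y y y, PCon.add (vf j 3) y (vf j 1), PCon.mul y (vf j 0) (vf j 2),
   PCon.mul (vf j 0) (vf j 4) (vf j 5), PCon.add (vf j 6) (vf j 1) (vf j 5),
   PCon.mul (vf j 3) (vf j 6) (vf j 2)]

/-- equations for a node -/
def nodeG (z : Node × ℕ) : List (PCon V5) :=
  if z.1.2.1.1 = 0 then constG z.1.2.1.2 (vn z.1.1) z.2
  else if z.1.2.1.1 = 1 then
    [PCon.add (vf z.2 0) (vf z.2 0) (vf z.2 0),
      PCon.add (vx z.1.2.1.2.toNat) (vf z.2 0) (vn z.1.1)]
  else if z.1.2.1.1 = 2 then [PCon.add (vn z.1.2.2.1) (vn z.1.2.2.2) (vn z.1.1)]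
  else if z.1.2.1.1 = 3 then [PCon.mul (vn z.1.2.2.1) (vn z.1.2.2.2) (vn z.1.1)]
  else if z.1.2.1.1 = 4 then eqG (vn z.1.2.2.1) (vn z.1.2.2.2) (vn z.1.1) z.2
  else if z.1.2.1.1 = 5 then ltG (vn z.1.2.2.1) (vn z.1.2.2.2) (vn z.1.1) z.2
  else if z.1.2.1.1 = 6 then
    PCon.add (vf z.2 11) (vn z.1.1) (vf z.2 1) ::
      ltG (vn z.1.2.2.2) (vn z.1.2.2.1) (vf z.2 11) z.2
  else if z.1.2.1.1 = 7 then
    [PCon.one (vf z.2 0), PCon.add (vn z.1.1) (vn z.1.2.2.1) (vf z.2 0)]
  else if z.1.2.1.1 = 8 then [PCon.mul (vn z.1.2.2.1) (vn z.1.2.2.2) (vn z.1.1)]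
  else if z.1.2.1.1 = 9 then
    [PCon.mul (vn z.1.2.2.1) (vn z.1.2.2.2) (vf z.2 0),
     PCon.add (vn z.1.2.2.1) (vn z.1.2.2.2) (vf z.2 1),
     PCon.add (vn z.1.1) (vf z.2 0) (vf z.2 1)]
  else [PCon.add (vn z.1.1) (vn z.1.1) (vn z.1.1)]

/-- all equations hold -/
def AllP (Y : V5 → ℝ) (l : List (PCon V5)) : Prop := ∀ c ∈ l, c.Holds Y

theorem AllP_nil (Y : V5 → ℝ) : AllP Y [] := by simp [AllP]
theorem AllP_cons (Y : V5 → ℝ) (c : PCon V5) (l : List (PCon V5)) :
    AllP Y (c :: l) ↔ c.Holds Y ∧ AllP Y l := by simp [AllP]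

/-! ### constants -/

theorem val_drop {bs : List Bool} {k : ℕ} (hk : k < bs.length) :
    val (bs.drop k) = (bs[k]).toNat + 2 * val (bs.drop (k + 1)) := by
  rw [List.drop_eq_getElem_cons hk]
  rfl

theorem constG_forced {Y : V5 → ℝ} {z : ℤ} {y : V5} {j : ℕ} (h : AllP Y (constG z y j)) :
    Y y = z := by
  unfold constG at h
  set bs := bitsOf z.natAbs with hbs
  rw [AllP_cons, AllP_cons, AllP_cons] at h
  obtain ⟨h1, h2, h3, h4⟩ := h
  simp only [PCon.Holds] at h1 h2
  have hz : Y (vf j (2 * bs.length + 2)) = 0 := by linarith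
  have hs : ∀ k (hk : k < bs.length),
      Y (vf j (2 * k + 2)) = ((bs[k]).toNat : ℝ) + 2 * Y (vf j (2 * (k + 1) + 2)) := by
    intro k hk
    have hm : (bs[k], k) ∈ bs.zipIdx := by
      rw [List.mem_zipIdx_iff_getElem?]; simp [hk]
    have h5 := h4 _ (List.mem_flatMap.mpr ⟨_, hm, List.mem_cons_self⟩)
    have h6 := h4 _ (List.mem_flatMap.mpr ⟨_, hm, List.mem_cons_of_mem _ List.mem_cons_self⟩)
    simp only [PCon.Holds] at h5 h6
    have e : 2 * (k + 1) + 2 = 2 * k + 4 := by ring
    rw [e]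
    cases hb : bs[k] with
    | true => rw [hb] at h6; simp only [if_true, h1] at h6; simp only [Bool.toNat_true]; push_cast; linarith
    | false => rw [hb] at h6; simp [hz] at h6; simp only [Bool.toNat_false]; push_cast; linarith
  have key : ∀ k, k ≤ bs.length →
      Y (vf j (2 * (bs.length - k) + 2)) = (val (bs.drop (bs.length - k)) : ℝ) := by
    intro k
    induction k with
    | zero => intro _; simp [hz, val]
    | succ k ih =>
      intro hk
      have h5 := hs (bs.length - (k + 1)) (by omega)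
      have h6 := val_drop (bs := bs) (k := bs.length - (k + 1)) (by omega)
      have e : bs.length - (k + 1) + 1 = bs.length - k := by omega
      rw [e] at h5 h6
      rw [h5, ih (by omega), h6]
      push_cast; ring
  have h7 := key bs.length le_rfl
  rw [Nat.sub_self, List.drop_zero] at h7
  have h8 : (val bs : ℝ) = (z.natAbs : ℝ) := by
    rw [hbs, bitsOf, val_encodeNat]
  rw [h8] at h7
  simp only [Nat.mul_zero, Nat.zero_add] at h7
  split_ifs at h3 with hneg
  · simp only [PCon.Holds] at h3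
    have h9 : ((z.natAbs : ℤ) : ℝ) = ((-z : ℤ) : ℝ) := by
      congr 1; omega
    push_cast at h9
    rw [h7, hz] at h3
    simp only [Nat.cast_natAbs] at h3 h9 ⊢
    push_cast at h3 h9
    linarith
  · simp only [PCon.Holds] at h3
    have h9 : ((z.natAbs : ℤ) : ℝ) = ((z : ℤ) : ℝ) := by
      congr 1; omega
    push_cast at h9
    rw [h7, hz] at h3
    simp only [Nat.cast_natAbs] at h3 h9 ⊢
    push_cast at h3 h9
    linarith

theorem constG_exists {p : ℕ ⊕ ℕ → ℝ} {z : ℤ} {n : ℕ} (hn : p (Sum.inr n) = z) (j : ℕ) :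
    ∃ q : ℕ → ℝ, ∀ r : ℕ × ℕ → ℝ, (∀ k, r (j, k) = q k) →
      AllP (Sum.elim p r) (constG z (vn n) j) := by
  set bs := bitsOf z.natAbs with hbs
  refine ⟨fun k => if k = 1 then 1 else if k % 2 = 0 then (val (bs.drop ((k - 2) / 2)) : ℝ) else
    2 * (val (bs.drop ((k - 3) / 2 + 1)) : ℝ), fun r hr => ?_⟩
  have e1 : Sum.elim p r (vf j 1) = 1 := by simp [vf, hr]
  have ev : ∀ k, Sum.elim p r (vf j (2 * k + 2)) = (val (bs.drop k) : ℝ) := by
    intro k
    simp only [vf, Sum.elim_inr, hr]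
    rw [if_neg (by omega), if_pos (by omega)]
    have : (2 * k + 2 - 2) / 2 = k := by omega
    rw [this]
  have ew : ∀ k, Sum.elim p r (vf j (2 * k + 3)) = 2 * (val (bs.drop (k + 1)) : ℝ) := by
    intro k
    simp only [vf, Sum.elim_inr, hr]
    rw [if_neg (by omega), if_neg (by omega)]
    have : (2 * k + 3 - 3) / 2 = k := by omega
    rw [this]
  have ez : Sum.elim p r (vf j (2 * bs.length + 2)) = 0 := by
    rw [ev, List.drop_length]; simp [val]
  have ey : Sum.elim p r (vn n) = z := by simp [vn, hn]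
  have e2 : Sum.elim p r (vf j 2) = (z.natAbs : ℝ) := by
    have := ev 0
    simp only [Nat.mul_zero, Nat.zero_add, List.drop_zero] at this
    rw [this, hbs, bitsOf, val_encodeNat]
  unfold constG
  rw [← hbs, AllP_cons, AllP_cons, AllP_cons]
  refine ⟨e1, by simp only [PCon.Holds, ez]; norm_num, ?_, ?_⟩
  · split_ifs with hneg
    · simp only [PCon.Holds, ez, ey, e2]
      have h9 : ((z.natAbs : ℤ) : ℝ) = ((-z : ℤ) : ℝ) := by
        congr 1; omega
      simp only [Nat.cast_natAbs] at h9 ⊢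
      push_cast at h9 ⊢
      linarith
    · simp only [PCon.Holds, ez, ey, e2]
      have h9 : ((z.natAbs : ℤ) : ℝ) = ((z : ℤ) : ℝ) := by
        congr 1; omega
      simp only [Nat.cast_natAbs] at h9 ⊢
      push_cast at h9 ⊢
      linarith
  · intro c hc
    rw [List.mem_flatMap] at hc
    obtain ⟨⟨b, k⟩, hm, hc⟩ := hc
    rw [List.mem_zipIdx_iff_getElem?] at hm
    have hk : k < bs.length := by
      rw [List.getElem?_eq_some_iff] at hm
      exact hm.1
    have hb : bs[k] = b := by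
      rw [List.getElem?_eq_some_iff] at hm
      exact hm.2
    have h6 := val_drop hk
    have e4 : 2 * k + 4 = 2 * (k + 1) + 2 := by ring
    simp only [List.mem_cons, List.not_mem_nil, or_false] at hc
    rcases hc with rfl | rfl
    · simp only [PCon.Holds]
      rw [e4, ev, ew]; ring
    · simp only [PCon.Holds]
      rw [ev, ew, h6, hb]
      cases b with
      | true => simp only [if_true, e1, Bool.toNat_true]; push_cast; ring
      | false => simp [ez]

/-! ### comparisons -/

theorem bool_of_mul {y : ℝ} (h : y * y = y) : y = 0 ∨ y = 1 := by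
  have : y * (y - 1) = 0 := by linarith
  rcases mul_eq_zero.mp this with h | h
  · exact Or.inl h
  · exact Or.inr (by linarith)

theorem ltG_forced {Y : V5 → ℝ} {a b y : V5} {j : ℕ} (h : AllP Y (ltG a b y j)) :
    (Y y = 1 ∧ Y a < Y b) ∨ (Y y = 0 ∧ ¬ Y a < Y b) := by
  unfold ltG at h
  simp only [AllP_cons, PCon.Holds] at h
  obtain ⟨h0, h1, h2, hy, h3, h5, h6, h7, h8, h9, h10, h11, -⟩ := h
  have hz : Y (vf j 2) = 0 := by linarith
  rcases bool_of_mul hy with hy0 | hy1
  · right
    refine ⟨hy0, ?_⟩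
    have hc : Y (vf j 3) = 1 := by linarith
    rw [hc, hz, one_mul] at h11
    rw [h11, ← h9] at h10
    nlinarith [sq_nonneg (Y (vf j 8))]
  · left
    refine ⟨hy1, ?_⟩
    rw [hy1, hz, one_mul] at h8
    rw [h8, h1, zero_add, ← h6, ← h5] at h7
    by_contra hcon
    have : Y (vf j 0) ≤ 0 := by linarith
    nlinarith [sq_nonneg (Y (vf j 4)), mul_nonneg (neg_nonneg.mpr this) (sq_nonneg (Y (vf j 4)))]

theorem eqG_forced {Y : V5 → ℝ} {a b y : V5} {j : ℕ} (h : AllP Y (eqG a b y j)) :
    (Y y = 1 ∧ Y a = Y b) ∨ (Y y = 0 ∧ ¬ Y a = Y b) := by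
  unfold eqG at h
  simp only [AllP_cons, PCon.Holds] at h
  obtain ⟨h0, h1, h2, hy, h3, h4, h5, h6, h7, -⟩ := h
  have hz : Y (vf j 2) = 0 := by linarith
  rcases bool_of_mul hy with hy0 | hy1
  · right
    refine ⟨hy0, ?_⟩
    have hc : Y (vf j 3) = 1 := by linarith
    rw [hc, hz, one_mul] at h7
    rw [h7, h1, zero_add, ← h5] at h6
    intro hab
    have : Y (vf j 0) = 0 := by linarith
    rw [this] at h6
    simp at h6
  · left
    refine ⟨hy1, ?_⟩
    rw [hy1, hz, one_mul] at h4
    linarith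

/-- a fresh assignment for the comparison -/
theorem ltG_exists (A B : ℝ) : ∃ q : ℕ → ℝ, ∀ Y : V5 → ℝ, ∀ a b y : V5, ∀ j : ℕ,
    Y a = A → Y b = B → (Y y = if A < B then 1 else 0) → (∀ k, k < 11 → Y (vf j k) = q k) →
      AllP Y (ltG a b y j) := by
  by_cases h : A < B
  · have hpos : 0 < B - A := by linarith
    have hs : (Real.sqrt (B - A))⁻¹ * (Real.sqrt (B - A))⁻¹ = (B - A)⁻¹ := by
      rw [← mul_inv, Real.mul_self_sqrt hpos.le]
    refine ⟨fun k => if k = 0 then B - A else if k = 1 then 1 else if k = 4 then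
      (Real.sqrt (B - A))⁻¹ else if k = 5 then (B - A)⁻¹ else if k = 6 then 1 else
      if k = 10 then B - A else 0, fun Y a b y j ha hb hy hY => ?_⟩
    have e : ∀ k, k < 11 → _ := hY
    rw [if_pos h] at hy
    simp only [ltG, AllP_cons, PCon.Holds]
    have f0 := hY 0 (by omega)
    have f1 := hY 1 (by omega)
    have f2 := hY 2 (by omega)
    have f3 := hY 3 (by omega)
    have f4 := hY 4 (by omega)
    have f5 := hY 5 (by omega)
    have f6 := hY 6 (by omega)
    have f7 := hY 7 (by omega)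
    have f8 := hY 8 (by omega)
    have f9 := hY 9 (by omega)
    have f10 := hY 10 (by omega)
    norm_num at f0 f1 f2 f3 f4 f5 f6 f7 f8 f9 f10
    rw [f0, f1, f2, f3, f4, f5, f6, f7, f8, f9, f10, ha, hb, hy]
    refine ⟨by ring, rfl, by ring, by ring, by ring, hs, mul_inv_cancel₀ hpos.ne', by ring,
      by ring, by ring, by ring, by ring, AllP_nil _⟩
  · have hneg : 0 ≤ A - B := by linarith
    have hs : Real.sqrt (A - B) * Real.sqrt (A - B) = A - B := Real.mul_self_sqrt hneg
    refine ⟨fun k => if k = 0 then B - A else if k = 1 then 1 else if k = 3 then 1 else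
      if k = 7 then -1 else if k = 8 then Real.sqrt (A - B) else if k = 9 then A - B else 0,
      fun Y a b y j ha hb hy hY => ?_⟩
    rw [if_neg h] at hy
    simp only [ltG, AllP_cons, PCon.Holds]
    have f0 := hY 0 (by omega)
    have f1 := hY 1 (by omega)
    have f2 := hY 2 (by omega)
    have f3 := hY 3 (by omega)
    have f4 := hY 4 (by omega)
    have f5 := hY 5 (by omega)
    have f6 := hY 6 (by omega)
    have f7 := hY 7 (by omega)
    have f8 := hY 8 (by omega)
    have f9 := hY 9 (by omega)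
    have f10 := hY 10 (by omega)
    norm_num at f0 f1 f2 f3 f4 f5 f6 f7 f8 f9 f10
    rw [f0, f1, f2, f3, f4, f5, f6, f7, f8, f9, f10, ha, hb, hy]
    refine ⟨by ring, rfl, by ring, by ring, by ring, by ring, by ring, by ring,
      by ring, hs, by ring, by ring, AllP_nil _⟩

/-- a fresh assignment for the equality test -/
theorem eqG_exists (A B : ℝ) : ∃ q : ℕ → ℝ, ∀ Y : V5 → ℝ, ∀ a b y : V5, ∀ j : ℕ,
    Y a = A → Y b = B → (Y y = if A = B then 1 else 0) → (∀ k, k < 11 → Y (vf j k) = q k) →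
      AllP Y (eqG a b y j) := by
  by_cases h : A = B
  · refine ⟨fun k => if k = 1 then 1 else if k = 6 then -1 else 0,
      fun Y a b y j ha hb hy hY => ?_⟩
    rw [if_pos h] at hy
    simp only [eqG, AllP_cons, PCon.Holds]
    have f0 := hY 0 (by omega)
    have f1 := hY 1 (by omega)
    have f2 := hY 2 (by omega)
    have f3 := hY 3 (by omega)
    have f4 := hY 4 (by omega)
    have f5 := hY 5 (by omega)
    have f6 := hY 6 (by omega)
    norm_num at f0 f1 f2 f3 f4 f5 f6
    rw [f0, f1, f2, f3, f4, f5, f6, ha, hb, hy]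
    refine ⟨by linarith, rfl, by ring, by ring, by ring, by ring, by ring, by ring,
      by ring, AllP_nil _⟩
  · have hne : B - A ≠ 0 := fun hh => h (by linarith)
    refine ⟨fun k => if k = 0 then B - A else if k = 1 then 1 else if k = 3 then 1 else
      if k = 4 then (B - A)⁻¹ else if k = 5 then 1 else 0,
      fun Y a b y j ha hb hy hY => ?_⟩
    rw [if_neg h] at hy
    simp only [eqG, AllP_cons, PCon.Holds]
    have f0 := hY 0 (by omega)
    have f1 := hY 1 (by omega)
    have f2 := hY 2 (by omega)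
    have f3 := hY 3 (by omega)
    have f4 := hY 4 (by omega)
    have f5 := hY 5 (by omega)
    have f6 := hY 6 (by omega)
    norm_num at f0 f1 f2 f3 f4 f5 f6
    rw [f0, f1, f2, f3, f4, f5, f6, ha, hb, hy]
    refine ⟨by ring, rfl, by ring, by ring, by ring, by ring, mul_inv_cancel₀ hne, by ring,
      by ring, AllP_nil _⟩

/-! ### nodes -/

theorem nodeG_forced {Y : V5 → ℝ} (nd : Node) (j : ℕ) (h : AllP Y (nodeG (nd, j))) :
    NodeHolds (fun i => Y (vx i)) (fun p => Y (vn p)) nd := by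
  obtain ⟨p, ⟨k, z⟩, a, b⟩ := nd
  unfold nodeG at h
  unfold NodeHolds nodeVal
  simp only at h ⊢
  split_ifs at h with h0 h1 h2 h3 h4 h5 h6 h7 h8 h9
  · rw [if_pos h0]; exact constG_forced h
  · rw [if_neg h0, if_pos h1]
    simp only [AllP_cons, PCon.Holds] at h
    linarith [h.1, h.2.1]
  · rw [if_neg h0, if_neg h1, if_pos h2]
    simp only [AllP_cons, PCon.Holds] at h
    exact h.1.symm
  · rw [if_neg h0, if_neg h1, if_neg h2, if_pos h3]
    simp only [AllP_cons, PCon.Holds] at h
    exact h.1.symm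
  · rw [if_neg h0, if_neg h1, if_neg h2, if_neg h3, if_pos h4]
    rcases eqG_forced h with ⟨h10, h11⟩ | ⟨h10, h11⟩
    · rw [h10, if_pos h11]
    · rw [h10, if_neg h11]
  · rw [if_neg h0, if_neg h1, if_neg h2, if_neg h3, if_neg h4, if_pos h5]
    rcases ltG_forced h with ⟨h10, h11⟩ | ⟨h10, h11⟩
    · rw [h10, if_pos h11]
    · rw [h10, if_neg h11]
  · rw [if_neg h0, if_neg h1, if_neg h2, if_neg h3, if_neg h4, if_neg h5, if_pos h6]
    rw [AllP_cons] at h
    obtain ⟨h12, h⟩ := h
    have h13 : Y (vf j 1) = 1 := by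
      have := h
      simp only [ltG, AllP_cons, PCon.Holds] at this
      exact this.2.1
    simp only [PCon.Holds] at h12
    rcases ltG_forced h with ⟨h10, h11⟩ | ⟨h10, h11⟩
    · rw [if_neg (by linarith)]; linarith
    · rw [if_pos (by linarith)]; linarith
  · rw [if_neg h0, if_neg h1, if_neg h2, if_neg h3, if_neg h4, if_neg h5, if_neg h6, if_pos h7]
    simp only [AllP_cons, PCon.Holds] at h
    linarith [h.1, h.2.1]
  · rw [if_neg h0, if_neg h1, if_neg h2, if_neg h3, if_neg h4, if_neg h5, if_neg h6, if_neg h7,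
      if_pos h8]
    simp only [AllP_cons, PCon.Holds] at h
    exact h.1.symm
  · rw [if_neg h0, if_neg h1, if_neg h2, if_neg h3, if_neg h4, if_neg h5, if_neg h6, if_neg h7,
      if_neg h8, if_pos h9]
    simp only [AllP_cons, PCon.Holds] at h
    obtain ⟨h10, h11, h12, -⟩ := h
    linarith
  · rw [if_neg h0, if_neg h1, if_neg h2, if_neg h3, if_neg h4, if_neg h5, if_neg h6, if_neg h7,
      if_neg h8, if_neg h9]
    simp only [AllP_cons, PCon.Holds] at h
    linarith [h.1]

theorem nodeG_exists {x v : ℕ → ℝ} (nd : Node) (j : ℕ) (h : NodeHolds x v nd) :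
    ∃ q : ℕ → ℝ, ∀ r : ℕ × ℕ → ℝ, (∀ k, r (j, k) = q k) →
      ∀ c ∈ nodeG (nd, j), PCon.Holds (Sum.elim (Sum.elim x v) r) c := by
  classical
  obtain ⟨p, ⟨k, z⟩, a, b⟩ := nd
  unfold NodeHolds at h
  simp only at h
  have ex : ∀ (r : ℕ × ℕ → ℝ) i, Sum.elim (Sum.elim x v) r (vx i) = x i := fun r i => rfl
  have en : ∀ (r : ℕ × ℕ → ℝ) i, Sum.elim (Sum.elim x v) r (vn i) = v i := fun r i => rfl
  have ef : ∀ (r : ℕ × ℕ → ℝ) i, Sum.elim (Sum.elim x v) r (vf j i) = r (j, i) := fun r i => rfl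
  unfold nodeVal at h
  simp only at h
  unfold nodeG
  simp only
  by_cases h0 : k = 0
  · rw [if_pos h0] at h
    simp only [if_pos h0]
    exact constG_exists (p := Sum.elim x v) h j
  rw [if_neg h0] at h
  simp only [if_neg h0]
  by_cases h1 : k = 1
  · rw [if_pos h1] at h
    simp only [if_pos h1]
    refine ⟨fun _ => 0, fun r hr => ?_⟩
    intro c hc
    simp only [List.mem_cons, List.not_mem_nil, or_false] at hc
    rcases hc with rfl | rfl
    · simp only [PCon.Holds, ef, hr]; norm_num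
    · simp only [PCon.Holds, ef, ex, en, hr, h]; norm_num
  rw [if_neg h1] at h
  simp only [if_neg h1]
  by_cases h2 : k = 2
  · rw [if_pos h2] at h
    simp only [if_pos h2]
    refine ⟨fun _ => 0, fun r hr c hc => ?_⟩
    simp only [List.mem_cons, List.not_mem_nil, or_false] at hc
    subst hc
    simp only [PCon.Holds, en, h]
  rw [if_neg h2] at h
  simp only [if_neg h2]
  by_cases h3 : k = 3
  · rw [if_pos h3] at h
    simp only [if_pos h3]
    refine ⟨fun _ => 0, fun r hr c hc => ?_⟩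
    simp only [List.mem_cons, List.not_mem_nil, or_false] at hc
    subst hc
    simp only [PCon.Holds, en, h]
  rw [if_neg h3] at h
  simp only [if_neg h3]
  by_cases h4 : k = 4
  · rw [if_pos h4] at h
    simp only [if_pos h4]
    obtain ⟨q, hq⟩ := eqG_exists (v a) (v b)
    refine ⟨q, fun r hr => hq _ _ _ _ j (en r a) (en r b) ?_ (fun k _ => (ef r k).trans (hr k))⟩
    rw [en, h]
  rw [if_neg h4] at h
  simp only [if_neg h4]
  by_cases h5 : k = 5
  · rw [if_pos h5] at h
    simp only [if_pos h5]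
    obtain ⟨q, hq⟩ := ltG_exists (v a) (v b)
    refine ⟨q, fun r hr => hq _ _ _ _ j (en r a) (en r b) ?_ (fun k _ => (ef r k).trans (hr k))⟩
    rw [en, h]
  rw [if_neg h5] at h
  simp only [if_neg h5]
  by_cases h6 : k = 6
  · rw [if_pos h6] at h
    simp only [if_pos h6]
    obtain ⟨q, hq⟩ := ltG_exists (v b) (v a)
    refine ⟨fun k => if k = 11 then (if v b < v a then 1 else 0) else q k, fun r hr => ?_⟩
    beta_reduce at hr
    have hlt : AllP (Sum.elim (Sum.elim x v) r) (ltG (vn b) (vn a) (vf j 11) j) := by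
      refine hq _ _ _ _ j (en r b) (en r a) ?_ (fun k hk => ?_)
      · rw [ef, hr]; simp
      · rw [ef, hr, if_neg (by omega)]
    rw [← AllP, AllP_cons]
    refine ⟨?_, hlt⟩
    have h13 : Sum.elim (Sum.elim x v) r (vf j 1) = 1 := by
      have := hlt
      simp only [ltG, AllP_cons, PCon.Holds] at this
      exact this.2.1
    simp only [PCon.Holds]
    rw [h13, en, ef, hr, h]
    simp only [if_true]
    by_cases hab : v a ≤ v b
    · rw [if_pos hab, if_neg (by linarith)]; norm_num
    · rw [if_neg hab, if_pos (by linarith)]; norm_num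
  rw [if_neg h6] at h
  simp only [if_neg h6]
  by_cases h7 : k = 7
  · rw [if_pos h7] at h
    simp only [if_pos h7]
    refine ⟨fun _ => 1, fun r hr c hc => ?_⟩
    simp only [List.mem_cons, List.not_mem_nil, or_false] at hc
    rcases hc with rfl | rfl
    · simp only [PCon.Holds, ef, hr]
    · simp only [PCon.Holds, ef, en, hr, h]; ring
  rw [if_neg h7] at h
  simp only [if_neg h7]
  by_cases h8 : k = 8
  · rw [if_pos h8] at h
    simp only [if_pos h8]
    refine ⟨fun _ => 0, fun r hr c hc => ?_⟩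
    simp only [List.mem_cons, List.not_mem_nil, or_false] at hc
    subst hc
    simp only [PCon.Holds, en, h]
  rw [if_neg h8] at h
  simp only [if_neg h8]
  by_cases h9 : k = 9
  · rw [if_pos h9] at h
    simp only [if_pos h9]
    refine ⟨fun k => if k = 0 then v a * v b else v a + v b, fun r hr c hc => ?_⟩
    simp only [List.mem_cons, List.not_mem_nil, or_false] at hc
    rcases hc with rfl | rfl | rfl
    · simp [PCon.Holds, ef, en, hr]
    · simp [PCon.Holds, ef, en, hr]
    · simp [PCon.Holds, ef, en, hr, h]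
  rw [if_neg h9] at h
  simp only [if_neg h9]
  refine ⟨fun _ => 0, fun r hr c hc => ?_⟩
  simp only [List.mem_cons, List.not_mem_nil, or_false] at hc
  subst hc
  simp only [PCon.Holds, en, h]; norm_num

/-- the elementary equations of an expression -/
def pcs (l : List Sym) : List (PCon V5) := PCon.one (vn (l.length - 1)) :: expand nodeG (scan l)

theorem sat_iff_pcs (φ : Fml) : (∃ x, φ.Holds x) ↔ ∃ Y, ∀ c ∈ pcs φ.symbols, c.Holds Y := by
  rw [sat_iff_nodes]
  constructor
  · rintro ⟨x, v, h1, h2⟩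
    obtain ⟨r, hr⟩ := expand_exists (X := ℝ) nodeG (NodeHolds x v)
      (fun Y c => PCon.Holds Y c) (scan φ.symbols) (Sum.elim x v) h1
      (fun nd j hnd => nodeG_exists nd j hnd)
    refine ⟨Sum.elim (Sum.elim x v) r, fun c hc => ?_⟩
    unfold pcs at hc
    rw [List.mem_cons] at hc
    rcases hc with rfl | hc
    · exact h2
    · exact hr c hc
  · rintro ⟨Y, hY⟩
    refine ⟨fun i => Y (vx i), fun p => Y (vn p), ?_, hY _ List.mem_cons_self⟩
    exact expand_forall (S' := PCon.Holds Y)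
      (fun c hc => hY c (List.mem_cons_of_mem _ hc)) (fun nd j h => nodeG_forced nd j h)

end Pool.Agent.H69.UL
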