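import Mathlib
import Pool.Agent.H69.UL.Levels

/-!
Framed points: every point carries an orthonormal frame, and frames are transported along edges.
-/

namespace Pool.Agent.H69.UL

open scoped RealInnerProductSpace

variable {d : ℕ} {α : Type}

/-- offsets of the frame points -/
abbrev Off (d : ℕ) := Option (Fin d × Bool)

/-- standard basis vector -/
noncomputable def e (i : Fin d) : E d := EuclideanSpace.single i (1:ℝ)

/-- offset vectors -/
noncomputable def off : Off d → E d
  | none => 0
  | some (i, true) => e i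
  | some (i, false) => - e i

@[simp] theorem off_none : off (none : Off d) = 0 := rfl
@[simp] theorem off_true (i : Fin d) : off (some (i, true)) = e i := rfl
@[simp] theorem off_false (i : Fin d) : off (some (i, false)) = - e i := rfl

theorem inner_e_right (x : E d) (i : Fin d) : ⟪x, e i⟫ = x i := by
  simp [e, EuclideanSpace.inner_single_right]

theorem inner_e_left (x : E d) (i : Fin d) : ⟪e i, x⟫ = x i := by
  rw [real_inner_comm]; exact inner_e_right x i

theorem e_apply (i j : Fin d) : (e i : E d) j = if j = i then 1 else 0 := by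
  simp [e, Pi.single_apply]

theorem norm_e (i : Fin d) : ‖(e i : E d)‖ = 1 := by simp [e]

theorem inner_e_e (i j : Fin d) : ⟪(e i : E d), e j⟫ = if i = j then (1:ℝ) else 0 := by
  rw [inner_e_right, e_apply]; simp [eq_comm]

theorem dsq_eq_sum (x y : E d) : dsq x y = ∑ i, (x i - y i) ^ 2 := by
  unfold dsq
  rw [EuclideanSpace.norm_sq_eq]
  simp

theorem dsq_add_e (x y : E d) (i : Fin d) : dsq x (y + e i) = dsq x y - 2 * (x i - y i) + 1 := by
  have h : x - (y + e i) = (x - y) - e i := by abel
  unfold dsq
  rw [h, norm_sub_sq_real, inner_e_right, norm_e]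
  simp

theorem dsq_sub_e (x y : E d) (i : Fin d) : dsq x (y - e i) = dsq x y + 2 * (x i - y i) + 1 := by
  have h : x - (y - e i) = (x - y) + e i := by abel
  unfold dsq
  rw [h, norm_add_sq_real, inner_e_right, norm_e]
  simp

theorem dsq_add_right (x y z : E d) : dsq (x + z) (y + z) = dsq x y := by
  unfold dsq; congr 2; abel

/-! ### the gadgets -/

/-- the frame of a point -/
def frameC (d : ℕ) (v : α) : List (Con (α × Off d)) :=
  (List.finRange d).flatMap fun i =>
    [Con.unit (v, none) (v, some (i, true)), Con.unit (v, none) (v, some (i, false)),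
      Con.far (v, some (i, true)) (v, some (i, false))] ++
    ((List.finRange d).flatMap fun k => if i = k then [] else
      [Con.diag (v, some (i, true)) (v, some (k, true)),
       Con.diag (v, some (i, true)) (v, some (k, false)),
       Con.diag (v, some (i, false)) (v, some (k, false))])

/-- a unit edge between framed points with parallel frames -/
def edgeC (d : ℕ) (u v : α) : List (Con (α × Off d)) :=
  frameC d u ++ (frameC d v ++ (Con.unit (u, none) (v, none) ::
    ((List.finRange d).flatMap fun i =>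
      [Con.unit (u, some (i, true)) (v, some (i, true)),
       Con.unit (u, some (i, false)) (v, some (i, false))])))

/-- an edge orthogonal to axis `i` -/
def perpC (d : ℕ) (i : Fin d) (u v : α) : List (Con (α × Off d)) :=
  Con.diag (v, none) (u, some (i, true)) :: edgeC d u v

/-- equality of the `i`-th coordinates, through a common neighbour -/
def eqC (d : ℕ) (i : Fin d) (u m v : α) : List (Con (α × Off d)) :=
  perpC d i u m ++ perpC d i v m

/-- all constraints hold with room -/
def AllS (p : α → E d) (l : List (Con α)) : Prop := ∀ c ∈ l, Con.Strong p c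
/-- all constraints hold -/
def AllW (p : α → E d) (l : List (Con α)) : Prop := ∀ c ∈ l, Con.Weak p c

@[simp] theorem AllS_nil (p : α → E d) : AllS p [] := by simp [AllS]
@[simp] theorem AllW_nil (p : α → E d) : AllW p [] := by simp [AllW]
@[simp] theorem AllS_cons (p : α → E d) (c : Con α) (l : List (Con α)) :
    AllS p (c :: l) ↔ c.Strong p ∧ AllS p l := by simp [AllS]
@[simp] theorem AllW_cons (p : α → E d) (c : Con α) (l : List (Con α)) :
    AllW p (c :: l) ↔ c.Weak p ∧ AllW p l := by simp [AllW]
@[simp] theorem AllS_append (p : α → E d) (l l' : List (Con α)) :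
    AllS p (l ++ l') ↔ AllS p l ∧ AllS p l' := by
  simp only [AllS, List.mem_append, or_imp, forall_and]
@[simp] theorem AllW_append (p : α → E d) (l l' : List (Con α)) :
    AllW p (l ++ l') ↔ AllW p l ∧ AllW p l' := by
  simp only [AllW, List.mem_append, or_imp, forall_and]
@[simp] theorem AllS_flatMap {β : Type} (p : α → E d) (l : List β) (f : β → List (Con α)) :
    AllS p (l.flatMap f) ↔ ∀ b ∈ l, AllS p (f b) := by
  simp only [AllS, List.mem_flatMap]
  exact ⟨fun h b hb c hc => h c ⟨b, hb, hc⟩, fun h c ⟨b, hb, hc⟩ => h b hb c hc⟩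
@[simp] theorem AllW_flatMap {β : Type} (p : α → E d) (l : List β) (f : β → List (Con α)) :
    AllW p (l.flatMap f) ↔ ∀ b ∈ l, AllW p (f b) := by
  simp only [AllW, List.mem_flatMap]
  exact ⟨fun h b hb c hc => h c ⟨b, hb, hc⟩, fun h c ⟨b, hb, hc⟩ => h b hb c hc⟩

/-- positions of the framed points, in standard frames -/
noncomputable def pos (y : α → E d) : α × Off d → E d := fun x => y x.1 + off x.2

/-! ### realizability -/

theorem frameC_strong (y : α → E d) (v : α) : AllS (pos y) (frameC d v) := by
  unfold frameC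
  simp only [AllS_flatMap, AllS_append, AllS_cons, AllS_nil, and_true]
  intro i _
  refine ⟨⟨?_, ?_, ?_⟩, ?_⟩
  · simp [Con.Strong, pos, dsq, norm_e]
  · simp [Con.Strong, pos, dsq, norm_e]
  · have : pos y (v, some (i, true)) - pos y (v, some (i, false)) = (2:ℝ) • e i := by
      simp only [pos, off_true, off_false, two_smul]; abel
    simp only [Con.Strong]
    rw [this, norm_smul, norm_e]
    norm_num
  · intro k _
    split_ifs with hik
    · simp
    · simp only [AllS_cons, AllS_nil, and_true, Con.Strong]
      have h1 : ∀ a b : E d, dsq (y v + a) (y v + b) = ⟪a - b, a - b⟫ := by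
        intro a b
        rw [dsq_eq_inner]; congr 1 <;> abel
      have hki : ¬ k = i := fun h => hik h.symm
      refine ⟨?_, ?_, ?_⟩ <;>
      · simp only [pos, off_true, off_false]
        rw [h1]
        simp only [inner_sub_left, inner_sub_right, inner_neg_left, inner_neg_right, inner_e_e,
          if_true, if_neg hik, if_neg hki]
        norm_num

theorem edgeC_strong {y : α → E d} {u v : α} (h : dsq (y u) (y v) = 1) :
    AllS (pos y) (edgeC d u v) := by
  unfold edgeC
  simp only [AllS_append, AllS_cons, AllS_flatMap, AllS_nil, and_true]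
  refine ⟨frameC_strong y u, frameC_strong y v, ?_, fun i _ => ⟨?_, ?_⟩⟩
  · simpa [Con.Strong, pos] using h
  · simpa [Con.Strong, pos, dsq_add_right] using h
  · simp only [Con.Strong, pos, dsq_add_right]; exact h

theorem perpC_strong {y : α → E d} {i : Fin d} {u v : α} (h : dsq (y u) (y v) = 1)
    (hi : y u i = y v i) : AllS (pos y) (perpC d i u v) := by
  unfold perpC
  simp only [AllS_cons]
  refine ⟨?_, edgeC_strong h⟩
  simp only [Con.Strong, pos, off_none, off_true, add_zero]
  rw [dsq_add_e, dsq_comm, h, hi]; norm_num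

theorem eqC_strong {y : α → E d} {i : Fin d} {u m v : α} (h1 : dsq (y u) (y m) = 1)
    (h2 : dsq (y v) (y m) = 1) (hu : y u i = y m i) (hv : y v i = y m i) :
    AllS (pos y) (eqC d i u m v) := by
  unfold eqC
  rw [AllS_append]
  exact ⟨perpC_strong h1 hu, perpC_strong h2 hv⟩

/-- existence of the common neighbour -/
theorem exists_mid (hd : 3 ≤ d) (i : Fin d) {u v : E d} (huv : dsq u v ≤ 4) (hi : u i = v i) :
    ∃ m : E d, dsq u m = 1 ∧ dsq v m = 1 ∧ u i = m i ∧ v i = m i := by
  obtain ⟨j, k, hij, hik, hjk⟩ : ∃ j k : Fin d, i ≠ j ∧ i ≠ k ∧ j ≠ k := by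
    have : ∃ j k : ℕ, j < d ∧ k < d ∧ i.val ≠ j ∧ i.val ≠ k ∧ j ≠ k := by
      rcases Nat.lt_or_ge i.val 1 with h | h
      · exact ⟨1, 2, by omega, by omega, by omega, by omega, by omega⟩
      · rcases Nat.lt_or_ge i.val 2 with h' | h'
        · exact ⟨0, 2, by omega, by omega, by omega, by omega, by omega⟩
        · exact ⟨0, 1, by omega, by omega, by omega, by omega, by omega⟩
    obtain ⟨j, k, hj, hk, h4, h5, h6⟩ := this
    exact ⟨⟨j, hj⟩, ⟨k, hk⟩, fun h => h4 (by rw [h]), fun h => h5 (by rw [h]),
      fun h => h6 (by simpa using h)⟩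
  set w : E d := (1 / 2 : ℝ) • (v - u) with hw
  have hwi : w i = 0 := by simp [hw, hi]
  have hww : ⟪w, w⟫ ≤ (1:ℝ) := by
    rw [hw, inner_smul_left, inner_smul_right, ← dsq_eq_inner, dsq_comm]
    simp only [conj_trivial]; linarith
  -- a unit vector orthogonal to `w` and to axis `i`
  obtain ⟨n, hn1, hn2, hn3⟩ : ∃ n : E d, ⟪n, n⟫ = (1:ℝ) ∧ ⟪w, n⟫ = (0:ℝ) ∧ n i = 0 := by
    by_cases h0 : w j ^ 2 + w k ^ 2 = 0
    · have hj : w j = 0 := by nlinarith [sq_nonneg (w j), sq_nonneg (w k)]
      exact ⟨e j, by rw [inner_e_e, if_pos rfl], by rw [inner_e_right, hj],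
        by rw [e_apply, if_neg hij]⟩
    · set s := w j ^ 2 + w k ^ 2 with hs
      have hspos : 0 < s := lt_of_le_of_ne (by positivity) (Ne.symm h0)
      have hsq : Real.sqrt s * Real.sqrt s = s := Real.mul_self_sqrt hspos.le
      have hsn : Real.sqrt s ≠ 0 := (Real.sqrt_pos.mpr hspos).ne'
      refine ⟨(Real.sqrt s)⁻¹ • (w k • e j - w j • e k), ?_, ?_, ?_⟩
      · simp only [inner_smul_left, inner_smul_right, inner_sub_left, inner_sub_right, inner_e_e,
          conj_trivial, if_true, if_neg hjk, if_neg (Ne.symm hjk)]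
        have : (Real.sqrt s)⁻¹ * ((Real.sqrt s)⁻¹ * (w k * (w k * 1) - w j * (w k * 0) -
            (w k * (w j * 0) - w j * (w j * 1)))) = (Real.sqrt s * Real.sqrt s)⁻¹ * s := by
          rw [mul_inv, hs]; ring
        rw [hsq, inv_mul_cancel₀ h0] at this
        linarith [this]
      · simp only [inner_smul_right, inner_sub_right, inner_e_right]; ring
      · simp [e_apply, hij, hik]
  set t := Real.sqrt (1 - ⟪w, w⟫) with ht
  have htt : t * t = 1 - ⟪w, w⟫ := Real.mul_self_sqrt (by linarith)
  have hnw : ⟪n, w⟫ = (0:ℝ) := by rw [real_inner_comm]; exact hn2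
  refine ⟨u + w + t • n, ?_, ?_, ?_, ?_⟩
  · have : u - (u + w + t • n) = -(w + t • n) := by abel
    rw [dsq_eq_inner, this]
    simp only [inner_neg_left, inner_neg_right, inner_add_left, inner_add_right, inner_smul_left,
      inner_smul_right, hn1, hn2, hnw, conj_trivial]
    linarith
  · have hv : v = u + w + w := by
      have : w + w = v - u := by
        rw [hw, ← add_smul]; norm_num
      rw [add_assoc, this]; abel
    have : v - (u + w + t • n) = w - t • n := by rw [hv]; abel
    rw [dsq_eq_inner, this]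
    simp only [inner_sub_left, inner_sub_right, inner_smul_left,
      inner_smul_right, hn1, hn2, hnw, conj_trivial]
    linarith
  · simp [hwi, hn3]
  · simp [hwi, hn3, hi]

/-! ### rigidity -/

/-- the frame of `v` is standard -/
def Good (p : α × Off d → E d) (v : α) : Prop := ∀ o, p (v, o) = p (v, none) + off o

theorem unit_eq_or_neg {f : Fin d → E d} (hf : ∀ i j, i ≠ j → ⟪f i, f j⟫ = (0:ℝ))
    (hf1 : ∀ i, ‖f i‖ = 1) {g : E d} {i : Fin d} (hg : ‖g‖ = 1)
    (hgf : ∀ j, i ≠ j → ⟪f j, g⟫ = (0:ℝ)) : g = f i ∨ g = - f i := by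
  have hon : Orthonormal ℝ f := ⟨hf1, fun i j hij => hf i j hij⟩
  have hspan : Submodule.span ℝ (Set.range f) = ⊤ :=
    hon.linearIndependent.span_eq_top_of_card_eq_finrank' (by simp)
  set b := OrthonormalBasis.mk hon hspan.ge with hb
  have hbi : ∀ j, b j = f j := fun j => by rw [hb]; simp
  have hsum : g = ⟪f i, g⟫ • f i := by
    have h1 := b.sum_repr' g
    rw [Finset.sum_eq_single i] at h1
    · rw [hbi] at h1; exact h1.symm
    · intro j _ hj
      rw [hbi, hgf j (Ne.symm hj), zero_smul]
    · simp
  have habs : |(⟪f i, g⟫ : ℝ)| = 1 := by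
    have := congrArg norm hsum
    rw [norm_smul, hg, hf1, mul_one] at this
    exact this.symm
  rcases (abs_eq (by norm_num)).mp habs with h | h
  · left; rw [h, one_smul] at hsum; exact hsum
  · right; rw [h, neg_smul, one_smul] at hsum; exact hsum

/-- rigidity of one frame -/
theorem frameC_weak {p : α × Off d → E d} {v : α} (h : AllW p (frameC d v)) :
    ∃ f : Fin d → E d, Orthonormal ℝ f ∧ (∀ i, p (v, some (i, true)) = p (v, none) + f i) ∧
      ∀ i, p (v, some (i, false)) = p (v, none) - f i := by
  unfold frameC at h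
  simp only [AllW_flatMap, AllW_append, AllW_cons, AllW_nil, and_true] at h
  set f : Fin d → E d := fun i => p (v, some (i, true)) - p (v, none) with hf
  set g : Fin d → E d := fun i => p (v, some (i, false)) - p (v, none) with hg
  have hfu : ∀ i, dsq (p (v, some (i, true))) (p (v, none)) = 1 := by
    intro i
    rw [dsq_comm]; exact (h i (List.mem_finRange i)).1.1
  have hgu : ∀ i, dsq (p (v, some (i, false))) (p (v, none)) = 1 := by
    intro i
    rw [dsq_comm]; exact (h i (List.mem_finRange i)).1.2.1
  have hne : ∀ i, p (v, some (i, true)) ≠ p (v, some (i, false)) := fun i =>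
    (h i (List.mem_finRange i)).1.2.2
  have key : ∀ i k, i ≠ k → dsq (p (v, some (i, true))) (p (v, some (k, true))) = 2 ∧
      dsq (p (v, some (i, true))) (p (v, some (k, false))) = 2 ∧
      dsq (p (v, some (i, false))) (p (v, some (k, false))) = 2 := by
    intro i k hik
    have h1 := (h i (List.mem_finRange i)).2 k (List.mem_finRange k)
    rw [if_neg hik] at h1
    simpa only [AllW_cons, AllW_nil, and_true, Con.Weak] using h1
  have norm_one : ∀ x y : E d, dsq x y = 1 → ‖x - y‖ = 1 := by
    intro x y hxy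
    have : ‖x - y‖ ^ 2 = 1 := hxy
    nlinarith [norm_nonneg (x - y)]
  have hf1 : ∀ i, ‖f i‖ = 1 := fun i => norm_one _ _ (hfu i)
  have hg1 : ∀ i, ‖g i‖ = 1 := fun i => norm_one _ _ (hgu i)
  have hff : ∀ i k, i ≠ k → ⟪f i, f k⟫ = (0:ℝ) := by
    intro i k hik
    simp only [hf]
    rw [inner_sub_left_eq, hfu, hfu, (key i k hik).1]; norm_num
  have hfg : ∀ i k, i ≠ k → ⟪f k, g i⟫ = (0:ℝ) := by
    intro i k hik
    simp only [hf, hg]
    rw [inner_sub_left_eq, hfu, hgu, (key k i (Ne.symm hik)).2.1]; norm_num
  refine ⟨f, ⟨hf1, fun i j hij => hff i j hij⟩, fun i => by simp only [hf]; abel, fun i => ?_⟩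
  rcases unit_eq_or_neg hff hf1 (hg1 i) (fun j hij => hfg i j hij) with h2 | h2
  · exfalso
    apply hne i
    have h3 : p (v, some (i, false)) - p (v, none) = p (v, some (i, true)) - p (v, none) := h2
    exact (sub_left_injective h3).symm
  · have h3 : p (v, some (i, false)) = p (v, none) + g i := by simp only [hg]; abel
    rw [h3, h2, sub_eq_add_neg]

theorem good_of_frame {p : α × Off d → E d} {v : α} (h : AllW p (frameC d v))
    (h1 : ∀ i, p (v, some (i, true)) = p (v, none) + e i) : Good p v := by
  obtain ⟨f, _, hf1, hf2⟩ := frameC_weak h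
  have hfe : ∀ i, f i = e i := by
    intro i
    have := (hf1 i).symm.trans (h1 i)
    exact add_left_cancel this
  rintro (_ | ⟨i, _ | _⟩)
  · simp
  · rw [hf2 i, hfe, off_false, sub_eq_add_neg]
  · rw [h1 i, off_true]

/-- transport of frames along an edge -/
theorem edgeC_weak {p : α × Off d → E d} {u v : α} (h : AllW p (edgeC d u v)) (hu : Good p u) :
    Good p v ∧ dsq (p (u, none)) (p (v, none)) = 1 := by
  unfold edgeC at h
  simp only [AllW_append, AllW_cons, AllW_flatMap, AllW_nil, and_true] at h
  obtain ⟨-, hv, huv, hi⟩ := h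
  refine ⟨good_of_frame hv ?_, huv⟩
  obtain ⟨f, hon, hf1, hf2⟩ := frameC_weak hv
  intro i
  rw [hf1 i]
  congr 1
  have h1 : dsq (p (u, none) + e i) (p (v, none) + f i) = 1 := by
    have := (hi i (List.mem_finRange i)).1
    simp only [Con.Weak] at this
    rwa [hf1, hu (some (i, true)), off_true] at this
  have h2 : dsq (p (u, none) - e i) (p (v, none) - f i) = 1 := by
    have := (hi i (List.mem_finRange i)).2
    simp only [Con.Weak] at this
    rwa [hf2, hu (some (i, false)), off_false, ← sub_eq_add_neg] at this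
  have h0 : dsq (p (u, none)) (p (v, none)) = 1 := huv
  have e1 : p (u, none) + e i - (p (v, none) + f i) = (p (u, none) - p (v, none)) - (f i - e i) := by
    abel
  have e2 : p (u, none) - e i - (p (v, none) - f i) = (p (u, none) - p (v, none)) + (f i - e i) := by
    abel
  unfold dsq at h0 h1 h2
  rw [e1] at h1
  rw [e2] at h2
  have h3 := parallelogram_law_with_norm ℝ (p (u, none) - p (v, none)) (f i - e i)
  have h4 : ‖f i - e i‖ ^ 2 = 0 := by nlinarith
  have h5 : ‖f i - e i‖ = 0 := by
    have := sq_eq_zero_iff.mp h4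
    exact this
  exact sub_eq_zero.mp (norm_eq_zero.mp h5)

theorem edgeC_weak' {p : α × Off d → E d} {u v : α} (h : AllW p (edgeC d u v)) (hv : Good p v) :
    Good p u := by
  have h' : AllW p (edgeC d v u) := by
    unfold edgeC at h ⊢
    simp only [AllW_append, AllW_cons, AllW_flatMap, AllW_nil, and_true] at h ⊢
    obtain ⟨h1, h2, h3, h4⟩ := h
    refine ⟨h2, h1, ?_, fun i hi => ⟨?_, ?_⟩⟩
    · simp only [Con.Weak] at h3 ⊢; rw [dsq_comm]; exact h3
    · have := (h4 i hi).1
      simp only [Con.Weak] at this ⊢; rw [dsq_comm]; exact this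
    · have := (h4 i hi).2
      simp only [Con.Weak] at this ⊢; rw [dsq_comm]; exact this
  exact (edgeC_weak h' hv).1

theorem perpC_weak {p : α × Off d → E d} {i : Fin d} {u v : α} (h : AllW p (perpC d i u v))
    (hu : Good p u) : Good p v ∧ p (u, none) i = p (v, none) i := by
  unfold perpC at h
  rw [AllW_cons] at h
  obtain ⟨h1, h2⟩ := edgeC_weak h.2 hu
  refine ⟨h1, ?_⟩
  have h3 := h.1
  simp only [Con.Weak] at h3
  rw [hu (some (i, true)), off_true, dsq_add_e, dsq_comm, h2] at h3
  linarith

theorem perpC_weak' {p : α × Off d → E d} {i : Fin d} {u v : α} (h : AllW p (perpC d i u v))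
    (hv : Good p v) : Good p u := by
  unfold perpC at h
  rw [AllW_cons] at h
  exact edgeC_weak' h.2 hv

theorem eqC_weak {p : α × Off d → E d} {i : Fin d} {u m v : α} (h : AllW p (eqC d i u m v))
    (hu : Good p u) : Good p v ∧ p (u, none) i = p (v, none) i := by
  unfold eqC at h
  rw [AllW_append] at h
  obtain ⟨h1, h2⟩ := perpC_weak h.1 hu
  have h3 := perpC_weak' h.2 h1
  obtain ⟨_, h4⟩ := perpC_weak h.2 h3
  exact ⟨h3, h2.trans h4.symm⟩

theorem eqC_weak' {p : α × Off d → E d} {i : Fin d} {u m v : α} (h : AllW p (eqC d i u m v))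
    (hv : Good p v) : Good p u ∧ p (u, none) i = p (v, none) i := by
  unfold eqC at h
  rw [AllW_append] at h
  obtain ⟨h1, h2⟩ := perpC_weak h.2 hv
  have h3 := perpC_weak' h.1 h1
  obtain ⟨_, h4⟩ := perpC_weak h.1 h3
  exact ⟨h3, h4.trans h2.symm⟩

theorem Con.weak_comp {β : Type} {p q : β → E d} (h : ∀ a b, dsq (q a) (q b) = dsq (p a) (p b))
    {c : Con β} (hc : c.Weak p) : c.Weak q := by
  cases c with
  | unit a b => simp only [Con.Weak] at hc ⊢; rw [h]; exact hc
  | diag a b => simp only [Con.Weak] at hc ⊢; rw [h]; exact hc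
  | far a b =>
    simp only [Con.Weak] at hc ⊢
    intro hq
    have h1 := dsq_pos hc
    rw [← h a b, hq, dsq_self] at h1
    exact lt_irrefl _ h1

/-- normalization: the origin is at `0` with the standard frame -/
theorem normalize {p : α × Off d → E d} {l : List (Con (α × Off d))} {O : α}
    (hl : AllW p l) (hO : AllW p (frameC d O)) :
    ∃ q : α × Off d → E d, AllW q l ∧ Good q O ∧ q (O, none) = 0 := by
  obtain ⟨f, hon, hf1, hf2⟩ := frameC_weak hO
  have hspan : Submodule.span ℝ (Set.range f) = ⊤ :=
    hon.linearIndependent.span_eq_top_of_card_eq_finrank' (by simp)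
  set b := OrthonormalBasis.mk hon hspan.ge with hb
  have hbi : ∀ j, b.repr (f j) = e j := by
    intro j
    have : b j = f j := by rw [hb]; simp
    rw [← this, b.repr_self]; rfl
  set q : α × Off d → E d := fun x => b.repr (p x - p (O, none)) with hq
  have hd : ∀ x y, dsq (q x) (q y) = dsq (p x) (p y) := by
    intro x y
    unfold dsq
    rw [hq]
    simp only
    rw [← map_sub, LinearIsometryEquiv.norm_map]
    congr 2; abel
  have hq0 : q (O, none) = 0 := by simp [hq]
  have hw : ∀ l' : List (Con (α × Off d)), AllW p l' → AllW q l' := fun l' h c hc =>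
    Con.weak_comp hd (h c hc)
  refine ⟨q, hw l hl, good_of_frame (hw _ hO) ?_, hq0⟩
  intro i
  rw [hq0, zero_add, hq]
  simp only
  rw [hf1 i, add_sub_cancel_left, hbi]

end Pool.Agent.H69.UL
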