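import Mathlib
import Pool.Agent.H69.UL.Frame

/-!
Arithmetic on a rail: numbers `t` are points `t • e 0`.
-/

namespace Pool.Agent.H69.UL

open scoped RealInnerProductSpace

variable {n : ℕ} {V : Type}

/-- arithmetic constraints on small numbers -/
inductive RCon (V : Type) where
  | quarter (a : V)
  | add (a b c : V)
  | sq (a b : V)

/-- meaning of the arithmetic constraints -/
def RCon.Holds (t : V → ℝ) : RCon V → Prop
  | quarter a => t a = 1 / 4
  | add a b c => t a + t b = t c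
  | sq a b => 4 * t b = t a ^ 2

/-- labels of framed points -/
abbrev Lab (V : Type) := Option (V × ℕ) ⊕ (ℕ × ℕ)

/-- the origin -/
def lO : Lab V := Sum.inl none
/-- the rail point of a variable -/
def lX (a : V) : Lab V := Sum.inl (some (a, 0))
/-- the diagonal point of a variable -/
def lZ (a : V) : Lab V := Sum.inl (some (a, 1))
/-- auxiliary points of a variable -/
def lM (a : V) (i : ℕ) : Lab V := Sum.inl (some (a, i + 2))
/-- fresh points -/
def lF (j k : ℕ) : Lab V := Sum.inr (j, k)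

/-- the rail of a variable -/
def railC (n : ℕ) (a : V) : List (Con (Lab V × Off (n + 3))) :=
  ((List.finRange (n + 3)).flatMap fun i => if i = 0 then [] else eqC _ i lO (lM a i) (lX a)) ++
    (eqC _ 0 (lX a) (lM a 0) (lZ a) ++
      [Con.diag (lZ a, none) (lO, some (0, true)), Con.diag (lZ a, none) (lO, some (1, true))])

/-- gadget for `t = 1/4` -/
def quarterG (n : ℕ) (a : V) (j : ℕ) : List (Con (Lab V × Off (n + 3))) :=
  railC n a ++ (eqC _ 0 (lX a) (lF j 1) (lF j 0) ++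
    [Con.unit (lF j 0, none) (lO, some (0, true)), Con.diag (lF j 0, none) (lO, some (0, false))])

/-- gadget for addition -/
def addG (n : ℕ) (a b c : V) (j : ℕ) : List (Con (Lab V × Off (n + 3))) :=
  railC n a ++ (railC n b ++ (railC n c ++ (edgeC _ (lX a) (lF j 0) ++
    (eqC _ 0 (lF j 0) (lF j 2) (lF j 1) ++
      [Con.unit (lF j 0, none) (lX b, some (0, true)),
       Con.far (lX a, none) (lX b, some (0, true)),
       Con.unit (lF j 1, none) (lX c, none),
       Con.unit (lF j 1, none) (lO, some (0, true)),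
       Con.far (lX c, none) (lO, some (0, true))]))))

/-- gadget for squaring -/
def sqG (n : ℕ) (a b : V) (j : ℕ) : List (Con (Lab V × Off (n + 3))) :=
  railC n a ++ (railC n b ++ (eqC _ 1 (lZ b) (lF j 2) (lF j 0) ++
    (eqC _ 0 (lX a) (lF j 3) (lF j 0) ++ (eqC _ 0 lO (lF j 4) (lF j 1) ++
      (((List.finRange (n + 3)).flatMap fun i => if i = 0 then [] else
          eqC _ i (lF j 0) (lF j (i + 5)) (lF j 1)) ++
      [Con.diag (lF j 0, none) (lO, some (1, true)),
       Con.diag (lF j 1, none) (lO, some (1, false))])))))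

/-- from arithmetic to point constraints -/
def pass3 (n : ℕ) : RCon V × ℕ → List (Con (Lab V × Off (n + 3)))
  | (RCon.quarter a, j) => quarterG n a j
  | (RCon.add a b c, j) => addG n a b c j
  | (RCon.sq a b, j) => sqG n a b j

/-! ### correctness: what is enforced -/

section weak

variable {q : Lab V × Off (n + 3) → E (n + 3)}

theorem rail_weak (hO : Good q lO) (h0 : q (lO, none) = 0) {a : V} (h : AllW q (railC n a)) :
    Good q (lX a) ∧ (∀ i, i ≠ 0 → q (lX a, none) i = 0) ∧ Good q (lZ a) ∧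
      q (lZ a, none) 1 = q (lX a, none) 0 := by
  unfold railC at h
  simp only [AllW_append, AllW_cons, AllW_flatMap, AllW_nil, and_true] at h
  obtain ⟨h1, h2, h3, h4⟩ := h
  have h1' : ∀ i, i ≠ 0 → Good q (lX a) ∧ q (lO, none) i = q (lX a, none) i := by
    intro i hi
    have := h1 i (List.mem_finRange i)
    rw [if_neg hi] at this
    exact eqC_weak this hO
  have hX := (h1' 1 (by simp)).1
  obtain ⟨hZ, h5⟩ := eqC_weak h2 hX
  refine ⟨hX, ?_, hZ, ?_⟩
  · intro i hi
    rw [← (h1' i hi).2, h0]; rfl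
  · simp only [Con.Weak] at h3 h4
    rw [hO (some (0, true)), off_true, h0, dsq_add_e] at h3
    rw [hO (some (1, true)), off_true, h0, dsq_add_e] at h4
    rw [h5]
    simp only [PiLp.zero_apply] at h3 h4
    linarith

theorem quarter_weak (hO : Good q lO) (h0 : q (lO, none) = 0) {a : V} {j : ℕ}
    (h : AllW q (quarterG n a j)) : q (lX a, none) 0 = 1 / 4 := by
  unfold quarterG at h
  simp only [AllW_append, AllW_cons, AllW_nil, and_true] at h
  obtain ⟨h1, h2, h3, h4⟩ := h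
  obtain ⟨hX, _, _, _⟩ := rail_weak hO h0 h1
  obtain ⟨_, h5⟩ := eqC_weak h2 hX
  simp only [Con.Weak] at h3 h4
  rw [hO (some (0, true)), off_true, h0, dsq_add_e] at h3
  rw [hO (some (0, false)), off_false, ← sub_eq_add_neg, h0, dsq_sub_e] at h4
  rw [h5]
  simp only [PiLp.zero_apply] at h3 h4
  linarith

/-- equidistant from two different points of the axis -/
theorem axis_mid {x y m : E (n + 3)} (hx : ∀ i, i ≠ 0 → x i = 0) (hy : ∀ i, i ≠ 0 → y i = 0)
    (hxy : x ≠ y) (h1 : dsq m x = 1) (h2 : dsq m y = 1) : 2 * m 0 = x 0 + y 0 := by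
  have h3 : x 0 ≠ y 0 := by
    intro h
    apply hxy
    ext i
    by_cases hi : i = 0
    · rw [hi, h]
    · rw [hx i hi, hy i hi]
  rw [dsq_eq_sum, Fin.sum_univ_succ] at h1 h2
  have h4 : ∀ i : Fin (n + 2), (m i.succ - x i.succ) ^ 2 = (m i.succ - y i.succ) ^ 2 := by
    intro i
    rw [hx _ (Fin.succ_ne_zero i), hy _ (Fin.succ_ne_zero i)]
  rw [Finset.sum_congr rfl (fun i _ => h4 i)] at h1
  have h5 : (m 0 - x 0) ^ 2 = (m 0 - y 0) ^ 2 := by linarith
  have h6 : (y 0 - x 0) * (2 * m 0 - (x 0 + y 0)) = 0 := by linear_combination h5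
  rcases mul_eq_zero.mp h6 with h | h
  · exact absurd (by linarith) h3
  · linarith

theorem add_weak (hO : Good q lO) (h0 : q (lO, none) = 0) {a b c : V} {j : ℕ}
    (h : AllW q (addG n a b c j)) :
    q (lX a, none) 0 + q (lX b, none) 0 = q (lX c, none) 0 := by
  unfold addG at h
  simp only [AllW_append, AllW_cons, AllW_nil, and_true] at h
  obtain ⟨ha, hb, hc, h1, h2, h3, h4, h5, h6, h7⟩ := h
  obtain ⟨hXa, ha', _, _⟩ := rail_weak hO h0 ha
  obtain ⟨hXb, hb', _, _⟩ := rail_weak hO h0 hb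
  obtain ⟨hXc, hc', _, _⟩ := rail_weak hO h0 hc
  obtain ⟨hM, hM1⟩ := edgeC_weak h1 hXa
  obtain ⟨hM', hMM⟩ := eqC_weak h2 hM
  simp only [Con.Weak] at h3 h4 h5 h6 h7
  rw [hXb (some (0, true)), off_true] at h3 h4
  rw [hO (some (0, true)), off_true, h0] at h6 h7
  have k1 := axis_mid (n := n) (x := q (lX a, none)) (y := q (lX b, none) + e 0)
    (m := q (lF j 0, none)) ha' (fun i hi => by simp [hb' i hi, e_apply, hi]) h4
    (by rw [dsq_comm]; exact hM1) h3
  have k2 := axis_mid (n := n) (x := q (lX c, none)) (y := 0 + e 0)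
    (m := q (lF j 1, none)) hc' (fun i hi => by simp [e_apply, hi]) h7 h5 h6
  have e1 : (q (lX b, none) + e 0 : E (n + 3)) 0 = q (lX b, none) 0 + 1 := by simp [e_apply]
  have e2 : (0 + e 0 : E (n + 3)) 0 = 1 := by simp [e_apply]
  rw [e1] at k1
  rw [e2] at k2
  rw [hMM] at k1
  linarith

theorem sq_weak (hO : Good q lO) (h0 : q (lO, none) = 0) {a b : V} {j : ℕ}
    (h : AllW q (sqG n a b j)) :
    4 * q (lX b, none) 0 = q (lX a, none) 0 ^ 2 := by
  unfold sqG at h
  simp only [AllW_append, AllW_cons, AllW_nil, AllW_flatMap, and_true] at h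
  obtain ⟨ha, hb, h1, h2, h3, h4, h5, h6⟩ := h
  obtain ⟨hXa, ha', _, _⟩ := rail_weak hO h0 ha
  obtain ⟨hXb, hb', hZb, hZ⟩ := rail_weak hO h0 hb
  obtain ⟨hW, hW1⟩ := eqC_weak h1 hZb
  obtain ⟨_, hW0⟩ := eqC_weak h2 hXa
  obtain ⟨hW', hW'0⟩ := eqC_weak h3 hO
  have h4' : ∀ i, i ≠ 0 → q (lF j 0, none) i = q (lF j 1, none) i := by
    intro i hi
    have := h4 i (List.mem_finRange i)
    rw [if_neg hi] at this
    exact (eqC_weak this hW).2
  simp only [Con.Weak] at h5 h6
  rw [hO (some (1, true)), off_true, h0, dsq_add_e] at h5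
  rw [hO (some (1, false)), off_false, ← sub_eq_add_neg, h0, dsq_sub_e] at h6
  rw [dsq_eq_sum, Fin.sum_univ_succ] at h5 h6
  have h7 : ∀ i : Fin (n + 2), (q (lF j 0, none) i.succ - (0 : E (n + 3)) i.succ) ^ 2 =
      (q (lF j 1, none) i.succ - (0 : E (n + 3)) i.succ) ^ 2 := by
    intro i
    rw [h4' _ (Fin.succ_ne_zero i)]
  rw [Finset.sum_congr rfl (fun i _ => h7 i)] at h5
  rw [h0] at hW'0
  rw [h4' 1 (by simp)] at h5 hW1
  rw [← hW0] at h5
  rw [← hW'0, ← hW1, hZ] at h6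
  rw [← hW1, hZ] at h5
  simp only [PiLp.zero_apply] at h5 h6
  linear_combination h6 - h5

theorem pass3_weak {l : List (RCon V)} {p : Lab V × Off (n + 3) → E (n + 3)}
    (h : AllW p (frameC _ lO ++ expand (pass3 n) l)) :
    ∃ t : V → ℝ, ∀ c ∈ l, c.Holds t := by
  have h' := h
  rw [AllW_append] at h'
  obtain ⟨q, hq, hO, h0⟩ := normalize h h'.1
  rw [AllW_append] at hq
  refine ⟨fun a => q (lX a, none) 0, expand_forall (S' := Con.Weak q) hq.2 ?_⟩
  rintro (a | ⟨a, b, c⟩ | ⟨a, b⟩) j hj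
  · exact quarter_weak hO h0 (j := j) hj
  · exact add_weak hO h0 (j := j) hj
  · exact sq_weak hO h0 (j := j) hj

end weak

/-! ### correctness: realizability -/

theorem two_ne_zero_fin : (2 : Fin (n + 3)) ≠ 0 := by
  intro h
  have h1 : (2 : Fin (n + 3)).val = (0 : Fin (n + 3)).val := congrArg Fin.val h
  rw [Fin.val_two] at h1
  simp at h1

theorem two_ne_one_fin : (2 : Fin (n + 3)) ≠ 1 := by
  intro h
  have h1 : (2 : Fin (n + 3)).val = (1 : Fin (n + 3)).val := congrArg Fin.val h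
  rw [Fin.val_two] at h1
  simp at h1

/-- explicit vectors -/
noncomputable def vec (n : ℕ) (a b c : ℝ) : E (n + 3) := a • e 0 + b • e 1 + c • e 2

theorem vec_apply (a b c : ℝ) (i : Fin (n + 3)) :
    vec n a b c i = if i = 0 then a else if i = 1 then b else if i = 2 then c else 0 := by
  unfold vec
  simp only [PiLp.add_apply, PiLp.smul_apply, e_apply, smul_eq_mul]
  have h1 : (1 : Fin (n + 3)) ≠ 0 := by simp
  have h2 : (2 : Fin (n + 3)) ≠ 0 := two_ne_zero_fin
  have h3 : (2 : Fin (n + 3)) ≠ 1 := two_ne_one_fin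
  split_ifs with h4 h5 h6 <;> simp_all

theorem vec_dsq (a b c a' b' c' : ℝ) :
    dsq (vec n a b c) (vec n a' b' c') = (a - a') ^ 2 + (b - b') ^ 2 + (c - c') ^ 2 := by
  have h1 : (1 : Fin (n + 3)) ≠ 0 := by simp
  have h2 : (2 : Fin (n + 3)) ≠ 0 := two_ne_zero_fin
  have h3 : (2 : Fin (n + 3)) ≠ 1 := two_ne_one_fin
  have : vec n a b c - vec n a' b' c' = (a - a') • e 0 + (b - b') • e 1 + (c - c') • e 2 := by
    unfold vec; simp only [sub_smul]; abel
  rw [dsq_eq_inner, this]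
  simp only [inner_add_left, inner_add_right, inner_smul_left, inner_smul_right, inner_e_e,
    conj_trivial, if_true, if_neg h1, if_neg h2, if_neg h3, if_neg h1.symm, if_neg h2.symm,
    if_neg h3.symm]
  ring

theorem vec_zero : vec n 0 0 0 = 0 := by simp [vec]

theorem dsq_vec_zero (a b c : ℝ) : dsq (vec n a b c) 0 = a ^ 2 + b ^ 2 + c ^ 2 := by
  rw [← vec_zero, vec_dsq]; ring

theorem dsq_zero_vec (a b c : ℝ) : dsq 0 (vec n a b c) = a ^ 2 + b ^ 2 + c ^ 2 := by
  rw [dsq_comm, dsq_vec_zero]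

theorem vec_0 (a b c : ℝ) : vec n a b c 0 = a := by rw [vec_apply, if_pos rfl]
theorem vec_1 (a b c : ℝ) : vec n a b c 1 = b := by
  rw [vec_apply, if_neg (by simp), if_pos rfl]

theorem vec_succ {a a' b c : ℝ} {i : Fin (n + 3)} (hi : i ≠ 0) : vec n a b c i = vec n a' b c i := by
  rw [vec_apply, vec_apply, if_neg hi, if_neg hi]

theorem norm_of_dsq {x y : E (n + 3)} (h1 : 4 / 9 ≤ dsq x y) (h2 : dsq x y ≤ 4) :
    2 / 3 ≤ ‖x - y‖ ∧ ‖x - y‖ ≤ 12 / 5 := by
  unfold dsq at h1 h2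
  have h0 : 0 ≤ ‖x - y‖ := norm_nonneg _
  constructor <;> nlinarith

/-- third coordinate of the diagonal point -/
noncomputable def cz (t : ℝ) : ℝ := Real.sqrt (1 + 2 * t - 2 * t ^ 2)

theorem cz_sq {t : ℝ} (ht : |t| ≤ 1 / 4) : cz t ^ 2 = 1 + 2 * t - 2 * t ^ 2 := by
  obtain ⟨h1, h2⟩ := abs_le.mp ht
  unfold cz
  rw [Real.sq_sqrt (by nlinarith)]

theorem cz_nonneg (t : ℝ) : 0 ≤ cz t := Real.sqrt_nonneg _

theorem sq_le_of_abs {t c : ℝ} (ht : |t| ≤ c) : t ^ 2 ≤ c ^ 2 := by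
  have h0 := abs_nonneg t
  rw [← sq_abs]
  exact pow_le_pow_left₀ h0 ht 2

/-- positions of rails -/
theorem rail_base {t : V → ℝ} (ht : ∀ a, |t a| ≤ 1 / 4) :
    ∃ y : Option (V × ℕ) → E (n + 3), y none = 0 ∧ (∀ a, y (some (a, 0)) = vec n (t a) 0 0) ∧
      (∀ a, y (some (a, 1)) = vec n (t a) (t a) (cz (t a))) ∧
      ∀ (r : ℕ × ℕ → E (n + 3)) a, AllS (pos (Sum.elim y r)) (railC n a) := by
  have h16 : ∀ a, t a ^ 2 ≤ (1 / 4) ^ 2 := fun a => sq_le_of_abs (ht a)
  have hM : ∀ a (i : Fin (n + 3)), ∃ m : E (n + 3),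
      (i = 0 → dsq (vec n (t a) 0 0) m = 1 ∧ dsq (vec n (t a) (t a) (cz (t a))) m = 1 ∧
        vec n (t a) 0 0 0 = m 0 ∧ vec n (t a) (t a) (cz (t a)) 0 = m 0) ∧
      (i ≠ 0 → dsq 0 m = 1 ∧ dsq (vec n (t a) 0 0) m = 1 ∧
        (0 : E (n + 3)) i = m i ∧ vec n (t a) 0 0 i = m i) := by
    intro a i
    by_cases hi : i = 0
    · obtain ⟨m, hm⟩ := exists_mid (d := n + 3) (by omega) 0 (u := vec n (t a) 0 0)
        (v := vec n (t a) (t a) (cz (t a))) (by
          rw [vec_dsq]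
          have h1 := cz_sq (ht a)
          have h2 := h16 a
          obtain ⟨h3, h4⟩ := abs_le.mp (ht a)
          nlinarith) (by rw [vec_0, vec_0])
      exact ⟨m, fun _ => hm, fun h => absurd hi h⟩
    · obtain ⟨m, hm⟩ := exists_mid (d := n + 3) (by omega) i (u := 0)
        (v := vec n (t a) 0 0) (by
          rw [dsq_zero_vec]
          have h2 := h16 a
          nlinarith) (by rw [vec_succ (a' := 0) hi, vec_zero])
      exact ⟨m, fun h => absurd h hi, fun _ => hm⟩
  choose M hM0 hM1 using hM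
  refine ⟨fun x => match x with
    | none => 0
    | some (a, 0) => vec n (t a) 0 0
    | some (a, 1) => vec n (t a) (t a) (cz (t a))
    | some (a, k + 2) => if h : k < n + 3 then M a ⟨k, h⟩ else 0, rfl, fun a => rfl, fun a => rfl,
    fun r a => ?_⟩
  unfold railC
  simp only [AllS_append, AllS_flatMap, AllS_cons, AllS_nil, and_true]
  refine ⟨fun i _ => ?_, ?_, ?_, ?_⟩
  · split_ifs with hi
    · simp
    · obtain ⟨h1, h2, h3, h4⟩ := hM1 a i hi
      apply eqC_strong
      · simpa [lO, lM] using h1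
      · simpa [lX, lM] using h2
      · simpa [lO, lM] using h3
      · simpa [lX, lM] using h4
  · obtain ⟨h1, h2, h3, h4⟩ := hM0 a 0 rfl
    apply eqC_strong
    · simpa [lX, lM] using h1
    · simpa [lZ, lM] using h2
    · simpa [lX, lM] using h3
    · simpa [lZ, lM] using h4
  · simp only [Con.Strong, pos, off_none, off_true, add_zero]
    rw [dsq_add_e]
    simp only [lZ, lO, Sum.elim_inl]
    rw [dsq_vec_zero, vec_0, cz_sq (ht a)]
    simp only [PiLp.zero_apply]
    ring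
  · simp only [Con.Strong, pos, off_none, off_true, add_zero]
    rw [dsq_add_e]
    simp only [lZ, lO, Sum.elim_inl]
    rw [dsq_vec_zero, vec_1, cz_sq (ht a)]
    simp only [PiLp.zero_apply]
    ring

/-- arithmetic constraints with room -/
def RCon.Strong (t : V → ℝ) : RCon V → Prop
  | quarter a => t a = 1 / 4
  | add a b c => t a + t b = t c ∧ |t a| ≤ 1 / 8 ∧ |t b| ≤ 1 / 8
  | sq a b => 4 * t b = t a ^ 2

section strong

variable {t : V → ℝ} {y : Option (V × ℕ) → E (n + 3)}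

theorem quarter_strong (h0 : y none = 0) (hX : ∀ a, y (some (a, 0)) = vec n (t a) 0 0)
    (hR : ∀ (r : ℕ × ℕ → E (n + 3)) a, AllS (pos (Sum.elim y r)) (railC n a))
    {a : V} (ha : t a = 1 / 4) (j : ℕ) : ∃ q : ℕ → E (n + 3), ∀ r : ℕ × ℕ → E (n + 3),
      (∀ k, r (j, k) = q k) → AllS (pos (Sum.elim y r)) (quarterG n a j) := by
  set s := Real.sqrt 7 with hs
  have hs2 : s ^ 2 = 7 := Real.sq_sqrt (by norm_num)
  obtain ⟨m, h1, h2, h3, h4⟩ := exists_mid (d := n + 3) (by omega) 0 (u := vec n (t a) 0 0)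
    (v := vec n (1 / 4) (s / 4) 0) (by rw [vec_dsq, ha]; nlinarith) (by rw [vec_0, vec_0, ha])
  refine ⟨fun k => if k = 0 then vec n (1 / 4) (s / 4) 0 else m, fun r hr => ?_⟩
  have e0 : Sum.elim y r (lF j 0) = vec n (1 / 4) (s / 4) 0 := by simp [lF, hr]
  have e1 : Sum.elim y r (lF j 1) = m := by simp [lF, hr]
  have eX : Sum.elim y r (lX a) = vec n (t a) 0 0 := by simp [lX, hX]
  have eO : Sum.elim y r lO = 0 := by simp [lO, h0]
  unfold quarterG
  simp only [AllS_append, AllS_cons, AllS_nil, and_true]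
  refine ⟨hR r a, ?_, ?_, ?_⟩
  · apply eqC_strong <;> simp only [e0, e1, eX] <;> assumption
  · simp only [Con.Strong, pos, off_none, off_true, add_zero, e0, eO]
    rw [dsq_add_e, dsq_vec_zero, vec_0]
    simp only [PiLp.zero_apply]
    nlinarith
  · simp only [Con.Strong, pos, off_none, off_false, add_zero, e0, eO]
    rw [← sub_eq_add_neg, dsq_sub_e, dsq_vec_zero, vec_0]
    simp only [PiLp.zero_apply]
    nlinarith

theorem add_strong (h0 : y none = 0) (hX : ∀ a, y (some (a, 0)) = vec n (t a) 0 0)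
    (hR : ∀ (r : ℕ × ℕ → E (n + 3)) a, AllS (pos (Sum.elim y r)) (railC n a))
    {a b c : V} (habc : t a + t b = t c) (ha : |t a| ≤ 1 / 8) (hb : |t b| ≤ 1 / 8) (j : ℕ) :
    ∃ q : ℕ → E (n + 3), ∀ r : ℕ × ℕ → E (n + 3),
      (∀ k, r (j, k) = q k) → AllS (pos (Sum.elim y r)) (addG n a b c j) := by
  obtain ⟨ha1, ha2⟩ := abs_le.mp ha
  obtain ⟨hb1, hb2⟩ := abs_le.mp hb
  set μ := (t a + t b + 1) / 2 with hμ
  set ρ := Real.sqrt (1 - (μ - t a) ^ 2) with hρ
  set ρ' := Real.sqrt (1 - (μ - t c) ^ 2) with hρ'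
  have hρ2 : ρ ^ 2 = 1 - (μ - t a) ^ 2 := Real.sq_sqrt (by rw [hμ]; nlinarith)
  have hρ'2 : ρ' ^ 2 = 1 - (μ - t c) ^ 2 := Real.sq_sqrt (by rw [hμ, ← habc]; nlinarith)
  have hρ0 : 0 ≤ ρ := Real.sqrt_nonneg _
  have hρ'0 : 0 ≤ ρ' := Real.sqrt_nonneg _
  obtain ⟨m, h1, h2, h3, h4⟩ := exists_mid (d := n + 3) (by omega) 0 (u := vec n μ ρ 0)
    (v := vec n μ ρ' 0) (by
      rw [vec_dsq]
      nlinarith [sq_nonneg (μ - t a), sq_nonneg (μ - t c), mul_nonneg hρ0 hρ'0])
    (by rw [vec_0, vec_0])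
  refine ⟨fun k => if k = 0 then vec n μ ρ 0 else if k = 1 then vec n μ ρ' 0 else m,
    fun r hr => ?_⟩
  have e0 : Sum.elim y r (lF j 0) = vec n μ ρ 0 := by simp [lF, hr]
  have e1 : Sum.elim y r (lF j 1) = vec n μ ρ' 0 := by simp [lF, hr]
  have e2 : Sum.elim y r (lF j 2) = m := by simp [lF, hr]
  have eX : ∀ a, Sum.elim y r (lX a) = vec n (t a) 0 0 := by simp [lX, hX]
  have eO : Sum.elim y r lO = 0 := by simp [lO, h0]
  unfold addG
  simp only [AllS_append, AllS_cons, AllS_nil, and_true]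
  refine ⟨hR r a, hR r b, hR r c, ?_, ?_, ?_, ?_, ?_, ?_, ?_⟩
  · apply edgeC_strong
    rw [e0, eX, vec_dsq]; linarith
  · apply eqC_strong <;> simp only [e0, e1, e2] <;> assumption
  · simp only [Con.Strong, pos, off_none, off_true, add_zero, e0, eX]
    rw [dsq_add_e, vec_dsq, vec_0, vec_0]
    rw [hμ] at hρ2 ⊢
    linarith
  · simp only [Con.Strong, pos, off_none, off_true, add_zero, eX]
    apply norm_of_dsq
    · rw [dsq_add_e, vec_dsq, vec_0, vec_0]; nlinarith
    · rw [dsq_add_e, vec_dsq, vec_0, vec_0]; nlinarith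
  · simp only [Con.Strong, pos, off_none, add_zero, e1, eX]
    rw [vec_dsq]; linarith
  · simp only [Con.Strong, pos, off_none, off_true, add_zero, e1, eO]
    rw [dsq_add_e, dsq_vec_zero, vec_0]
    simp only [PiLp.zero_apply]
    rw [← habc] at hρ'2
    rw [hμ] at hρ'2 ⊢
    linarith
  · simp only [Con.Strong, pos, off_none, off_true, add_zero, eX, eO]
    apply norm_of_dsq
    · rw [dsq_add_e, dsq_vec_zero, vec_0, ← habc]
      simp only [PiLp.zero_apply]; nlinarith
    · rw [dsq_add_e, dsq_vec_zero, vec_0, ← habc]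
      simp only [PiLp.zero_apply]; nlinarith

theorem sq_strong (ht : ∀ a, |t a| ≤ 1 / 4) (h0 : y none = 0)
    (hX : ∀ a, y (some (a, 0)) = vec n (t a) 0 0)
    (hZ : ∀ a, y (some (a, 1)) = vec n (t a) (t a) (cz (t a)))
    (hR : ∀ (r : ℕ × ℕ → E (n + 3)) a, AllS (pos (Sum.elim y r)) (railC n a))
    {a b : V} (hab : 4 * t b = t a ^ 2) (j : ℕ) :
    ∃ q : ℕ → E (n + 3), ∀ r : ℕ × ℕ → E (n + 3),
      (∀ k, r (j, k) = q k) → AllS (pos (Sum.elim y r)) (sqG n a b j) := by
  set u := t a with hu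
  set w := t b with hw
  have hu2 : u ^ 2 ≤ (1 / 4) ^ 2 := sq_le_of_abs (ht a)
  have hw0 : 0 ≤ w := by nlinarith [sq_nonneg u]
  have hw1 : w ≤ 1 / 64 := by nlinarith
  set v := Real.sqrt (2 - (w + 1) ^ 2) with hv
  have hv2 : v ^ 2 = 2 - (w + 1) ^ 2 := Real.sq_sqrt (by nlinarith)
  have hv0 : 0 ≤ v := Real.sqrt_nonneg _
  have hcz := cz_sq (ht b)
  have hcz0 := cz_nonneg (t b)
  rw [← hw] at hcz hcz0
  obtain ⟨m2, h21, h22, h23, h24⟩ := exists_mid (d := n + 3) (by omega) 1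
    (u := vec n w w (cz w)) (v := vec n u w v) (by
      rw [vec_dsq]
      have h5 : (w - u) ^ 2 ≤ 1 := by
        obtain ⟨h6, h7⟩ := abs_le.mp (ht a)
        nlinarith
      nlinarith [mul_nonneg hcz0 hv0]) (by rw [vec_1, vec_1])
  obtain ⟨m3, h31, h32, h33, h34⟩ := exists_mid (d := n + 3) (by omega) 0
    (u := vec n u 0 0) (v := vec n u w v) (by rw [vec_dsq]; nlinarith) (by rw [vec_0, vec_0])
  obtain ⟨m4, h41, h42, h43, h44⟩ := exists_mid (d := n + 3) (by omega) 0
    (u := 0) (v := vec n 0 w v) (by rw [dsq_zero_vec]; nlinarith) (by rw [vec_0]; rfl)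
  have hM : ∀ i : Fin (n + 3), ∃ m : E (n + 3), i ≠ 0 → dsq (vec n u w v) m = 1 ∧
      dsq (vec n 0 w v) m = 1 ∧ vec n u w v i = m i ∧ vec n 0 w v i = m i := by
    intro i
    by_cases hi : i = 0
    · exact ⟨0, fun h => absurd hi h⟩
    · obtain ⟨m, hm⟩ := exists_mid (d := n + 3) (by omega) i
        (u := vec n u w v) (v := vec n 0 w v) (by rw [vec_dsq]; nlinarith) (vec_succ hi)
      exact ⟨m, fun _ => hm⟩
  choose M hM using hM
  refine ⟨fun k => if k = 0 then vec n u w v else if k = 1 then vec n 0 w v else if k = 2 then m2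
    else if k = 3 then m3 else if k = 4 then m4 else if h : k - 5 < n + 3 then M ⟨k - 5, h⟩ else 0,
    fun r hr => ?_⟩
  have e0 : Sum.elim y r (lF j 0) = vec n u w v := by simp [lF, hr]
  have e1 : Sum.elim y r (lF j 1) = vec n 0 w v := by simp [lF, hr]
  have e2 : Sum.elim y r (lF j 2) = m2 := by simp [lF, hr]
  have e3 : Sum.elim y r (lF j 3) = m3 := by simp [lF, hr]
  have e4 : Sum.elim y r (lF j 4) = m4 := by simp [lF, hr]
  have e5 : ∀ i : Fin (n + 3), Sum.elim y r (lF j (i + 5)) = M i := by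
    intro i
    have : i.val < n + 3 := i.2
    simp only [lF, Sum.elim_inr, hr]
    rw [if_neg (by omega), if_neg (by omega), if_neg (by omega), if_neg (by omega),
      if_neg (by omega), dif_pos (by omega)]
    congr 1
  have eX : ∀ a, Sum.elim y r (lX a) = vec n (t a) 0 0 := by simp [lX, hX]
  have eZ : ∀ a, Sum.elim y r (lZ a) = vec n (t a) (t a) (cz (t a)) := by simp [lZ, hZ]
  have eO : Sum.elim y r lO = 0 := by simp [lO, h0]
  unfold sqG
  simp only [AllS_append, AllS_flatMap, AllS_cons, AllS_nil, and_true]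
  refine ⟨hR r a, hR r b, ?_, ?_, ?_, fun i _ => ?_, ?_, ?_⟩
  · apply eqC_strong <;> simp only [eZ, e0, e2] <;> assumption
  · apply eqC_strong <;> simp only [eX, e0, e3] <;> assumption
  · apply eqC_strong <;> simp only [eO, e1, e4] <;> assumption
  · split_ifs with hi
    · simp
    · obtain ⟨h5, h6, h7, h8⟩ := hM i hi
      apply eqC_strong <;> simp only [e0, e1, e5] <;> assumption
  · simp only [Con.Strong, pos, off_none, off_true, add_zero, e0, eO]
    rw [dsq_add_e, dsq_vec_zero, vec_1]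
    simp only [PiLp.zero_apply]
    nlinarith
  · simp only [Con.Strong, pos, off_none, off_false, add_zero, e1, eO]
    rw [← sub_eq_add_neg, dsq_sub_e, dsq_vec_zero, vec_1]
    simp only [PiLp.zero_apply]
    nlinarith

theorem pass3_strong {l : List (RCon V)} {t : V → ℝ} (ht : ∀ a, |t a| ≤ 1 / 4)
    (hl : ∀ c ∈ l, c.Strong t) :
    ∃ p : Lab V × Off (n + 3) → E (n + 3), AllS p (frameC _ lO ++ expand (pass3 n) l) := by
  obtain ⟨y, h0, hX, hZ, hR⟩ := rail_base (n := n) ht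
  obtain ⟨r, hr⟩ := expand_exists (X := E (n + 3)) (pass3 n) (RCon.Strong t)
    (fun Y c => Con.Strong (pos Y) c) l y hl (by
      rintro (a | ⟨a, b, c⟩ | ⟨a, b⟩) j hc
      · exact quarter_strong h0 hX hR hc j
      · exact add_strong h0 hX hR hc.1 hc.2.1 hc.2.2 j
      · exact sq_strong ht h0 hX hZ hR hc j)
  refine ⟨pos (Sum.elim y r), ?_⟩
  rw [AllS_append]
  exact ⟨frameC_strong _ _, hr⟩

end strong

end Pool.Agent.H69.UL
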