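import Mathlib
import Pool.Agent.H69.UL.Ball3
import Pool.Agent.H69.UL.Rails

/-!
From elementary equations to arithmetic on small numbers, by scaling with `4 * 16 ^ (-2 ^ q)`.
-/

namespace Pool.Agent.H69.UL

variable {V : Type}

/-- variables after scaling -/
abbrev SV (V : Type) := (V ⊕ ℕ) ⊕ (ℕ × ℕ)

/-- scaled variable -/
def sT (a : V) : SV V := Sum.inl (Sum.inl a)
/-- tower of small numbers -/
def sL (k : ℕ) : SV V := Sum.inl (Sum.inr k)
/-- fresh variables -/
def sF (j k : ℕ) : SV V := Sum.inr (j, k)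

/-- the tower of small numbers -/
def tower (V : Type) (q : ℕ) : List (RCon (SV V)) :=
  RCon.quarter (sL 0) :: (List.range q).map fun k => RCon.sq (sL k) (sL (k + 1))

/-- scaling -/
def pass4 (q : ℕ) : PCon V × ℕ → List (RCon (SV V))
  | (PCon.one a, j) => [RCon.add (sF j 0) (sF j 0) (sF j 0), RCon.add (sT a) (sF j 0) (sL q)]
  | (PCon.add a b c, _) => [RCon.add (sT a) (sT b) (sT c)]
  | (PCon.mul a b c, j) =>
    [RCon.add (sT a) (sT b) (sF j 0), RCon.add (sL q) (sT c) (sF j 1),
     RCon.sq (sF j 0) (sF j 2), RCon.sq (sT a) (sF j 3), RCon.sq (sT b) (sF j 4),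
     RCon.sq (sF j 1) (sF j 5), RCon.sq (sL q) (sF j 6), RCon.sq (sT c) (sF j 7),
     RCon.add (sF j 2) (sF j 6) (sF j 8), RCon.add (sF j 8) (sF j 7) (sF j 9),
     RCon.add (sF j 5) (sF j 3) (sF j 10), RCon.add (sF j 10) (sF j 4) (sF j 9)]

/-- the scaled system -/
def scale (q : ℕ) (l : List (PCon V)) : List (RCon (SV V)) :=
  tower V q ++ expand (pass4 q) l

/-- small numbers -/
noncomputable def ell (k : ℕ) : ℝ := 4 * (1 / 16) ^ 2 ^ k

theorem ell_pos (k : ℕ) : 0 < ell k := by unfold ell; positivity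

theorem ell_succ (k : ℕ) : 4 * ell (k + 1) = ell k ^ 2 := by
  unfold ell
  rw [mul_pow, ← pow_mul, pow_succ 2 k]; ring

theorem ell_zero : ell 0 = 1 / 4 := by unfold ell; norm_num

theorem ell_le (k : ℕ) : ell k ≤ 1 / 4 := by
  induction k with
  | zero => rw [ell_zero]
  | succ k ih => nlinarith [ell_succ k, ell_pos k]

theorem ell_mul {q : ℕ} (hq : 1 ≤ q) : ell q * 2 ^ 2 ^ q ≤ 1 / 16 := by
  unfold ell
  have h1 : (4:ℝ) * (1 / 16) ^ 2 ^ q * 2 ^ 2 ^ q = 4 * (1 / 8) ^ 2 ^ q := by
    rw [mul_assoc, ← mul_pow]; norm_num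
  rw [h1]
  have h2 : 2 ≤ 2 ^ q := by
    calc 2 = 2 ^ 1 := by norm_num
      _ ≤ 2 ^ q := Nat.pow_le_pow_right (by norm_num) hq
  have h3 : ((1:ℝ) / 8) ^ 2 ^ q ≤ (1 / 8) ^ 2 :=
    pow_le_pow_of_le_one (by norm_num) (by norm_num) h2
  calc (4:ℝ) * (1 / 8) ^ 2 ^ q ≤ 4 * (1 / 8) ^ 2 := by linarith
    _ = 1 / 16 := by norm_num

theorem scale_strong {q : ℕ} (hq : 1 ≤ q) (l : List (PCon V)) (y : V → ℝ)
    (hy : ∀ c ∈ l, c.Holds y) (hb : ∀ a, |y a| ≤ 2 ^ 2 ^ q) :
    ∃ t : SV V → ℝ, (∀ a, |t a| ≤ 1 / 4) ∧ ∀ c ∈ scale q l, c.Strong t := by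
  set lam := ell q with hlam
  have hl0 : 0 < lam := ell_pos q
  have hl2 : lam * 2 ^ 2 ^ q ≤ 1 / 16 := ell_mul hq
  have hl1 : lam ≤ 1 / 16 := by
    have : (1:ℝ) ≤ 2 ^ 2 ^ q := one_le_pow₀ (by norm_num)
    nlinarith
  set z : V → ℝ := fun a => lam * y a with hz
  have hzb : ∀ a, |z a| ≤ 1 / 16 := by
    intro a
    simp only [hz]
    rw [abs_mul, abs_of_pos hl0]
    exact (mul_le_mul_of_nonneg_left (hb a) hl0.le).trans hl2
  set p : V ⊕ ℕ → ℝ := Sum.elim z ell with hp
  have : Nonempty {x : ℝ // |x| ≤ 1 / 4} := ⟨⟨0, by norm_num⟩⟩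
  have hP : ∀ a, |p a| ≤ 1 / 4 := by
    rintro (a | k)
    · simp only [hp, Sum.elim_inl]; exact (hzb a).trans (by norm_num)
    · simp only [hp, Sum.elim_inr]; rw [abs_of_pos (ell_pos k)]; exact ell_le k
  obtain ⟨r, hr⟩ := expand_exists (X := {x : ℝ // |x| ≤ 1 / 4}) (pass4 q) (fun c : PCon V => c.Holds y)
    (fun t c => RCon.Strong (fun a => (t a).1) c) l
    (fun a => ⟨p a, hP a⟩) hy (by
      rintro (a | ⟨a, b, c⟩ | ⟨a, b, c⟩) j hc
      · refine ⟨fun _ => ⟨0, by norm_num⟩, fun r hr c' hc' => ?_⟩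
        have hc1 : y a = 1 := hc
        simp only [pass4, List.mem_cons, List.not_mem_nil, or_false] at hc'
        rcases hc' with rfl | rfl
        · simp [RCon.Strong, sF, hr]
        · simp only [RCon.Strong, sF, sT, sL, Sum.elim_inl, Sum.elim_inr, hr, hp]
          refine ⟨by simp [hz, hc1, hlam], (hzb a).trans (by norm_num), by norm_num⟩
      · refine ⟨fun _ => ⟨0, by norm_num⟩, fun r hr c' hc' => ?_⟩
        have hc1 : y a + y b = y c := hc
        simp only [pass4, List.mem_cons, List.not_mem_nil, or_false] at hc'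
        subst hc'
        simp only [RCon.Strong, sT, Sum.elim_inl, hp]
        refine ⟨by simp only [hz]; rw [← hc1]; ring, (hzb a).trans (by norm_num),
          (hzb b).trans (by norm_num)⟩
      · have hc1 : y a * y b = y c := hc
        have ha := abs_le.mp (hzb a)
        have hb := abs_le.mp (hzb b)
        have hcc := abs_le.mp (hzb c)
        have hprod : z a * z b = lam * z c := by simp only [hz]; rw [← hc1]; ring
        have sqb : ∀ x : ℝ, |x| ≤ 1 / 8 → 0 ≤ x ^ 2 / 4 ∧ x ^ 2 / 4 ≤ 1 / 256 := by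
          intro x hx
          have := sq_le_of_abs hx
          constructor
          · positivity
          · linarith
        have b0 : |z a + z b| ≤ 1 / 8 := by rw [abs_le]; constructor <;> linarith
        have b1 : |lam + z c| ≤ 1 / 8 := by rw [abs_le]; constructor <;> linarith
        have ba : |z a| ≤ 1 / 8 := (hzb a).trans (by norm_num)
        have bb : |z b| ≤ 1 / 8 := (hzb b).trans (by norm_num)
        have bc : |z c| ≤ 1 / 8 := (hzb c).trans (by norm_num)
        have bl : |lam| ≤ 1 / 8 := by rw [abs_of_pos hl0]; linarith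
        obtain ⟨p2, q2⟩ := sqb _ b0
        obtain ⟨p3, q3⟩ := sqb _ ba
        obtain ⟨p4, q4⟩ := sqb _ bb
        obtain ⟨p5, q5⟩ := sqb _ b1
        obtain ⟨p6, q6⟩ := sqb _ bl
        obtain ⟨p7, q7⟩ := sqb _ bc
        set S2 := (z a + z b) ^ 2 / 4 with hS2
        set S3 := (z a) ^ 2 / 4 with hS3
        set S4 := (z b) ^ 2 / 4 with hS4
        set S5 := (lam + z c) ^ 2 / 4 with hS5
        set S6 := lam ^ 2 / 4 with hS6
        set S7 := (z c) ^ 2 / 4 with hS7
        have hfin : S5 + S3 + S4 = S2 + S6 + S7 := by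
          rw [hS2, hS3, hS4, hS5, hS6, hS7]; linear_combination (-1/2) * hprod
        let w : ℕ → ℝ := fun k => if k = 0 then z a + z b else if k = 1 then lam + z c
          else if k = 2 then S2 else if k = 3 then S3 else if k = 4 then S4 else if k = 5 then S5
          else if k = 6 then S6 else if k = 7 then S7 else if k = 8 then S2 + S6
          else if k = 9 then S2 + S6 + S7 else if k = 10 then S5 + S3 else 0
        have hw : ∀ k, |w k| ≤ 1 / 4 := by
          intro k
          simp only [w]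
          split_ifs
          · exact b0.trans (by norm_num)
          · exact b1.trans (by norm_num)
          all_goals rw [abs_le]; constructor <;> linarith
        refine ⟨fun k => ⟨w k, hw k⟩, fun r hr c' hc' => ?_⟩
        have e0 : w 0 = z a + z b := rfl
        have e1 : w 1 = lam + z c := rfl
        have e2 : w 2 = S2 := rfl
        have e3 : w 3 = S3 := rfl
        have e4 : w 4 = S4 := rfl
        have e5 : w 5 = S5 := rfl
        have e6 : w 6 = S6 := rfl
        have e7 : w 7 = S7 := rfl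
        have e8 : w 8 = S2 + S6 := rfl
        have e9 : w 9 = S2 + S6 + S7 := rfl
        have e10 : w 10 = S5 + S3 := rfl
        simp only [pass4, List.mem_cons, List.not_mem_nil, or_false] at hc'
        rcases hc' with rfl | rfl | rfl | rfl | rfl | rfl | rfl | rfl | rfl | rfl | rfl | rfl <;>
          simp only [RCon.Strong, sF, sT, sL, Sum.elim_inl, Sum.elim_inr, hr, hp, e0, e1, e2, e3,
            e4, e5, e6, e7, e8, e9, e10, ← hlam]
        · exact ⟨trivial, ba, bb⟩
        · exact ⟨trivial, bl, bc⟩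
        · rw [hS2]; ring
        · rw [hS3]; ring
        · rw [hS4]; ring
        · rw [hS5]; ring
        · rw [hS6]; ring
        · rw [hS7]; ring
        · exact ⟨trivial, by rw [abs_le]; constructor <;> linarith,
            by rw [abs_le]; constructor <;> linarith⟩
        · exact ⟨trivial, by rw [abs_le]; constructor <;> linarith,
            by rw [abs_le]; constructor <;> linarith⟩
        · exact ⟨trivial, by rw [abs_le]; constructor <;> linarith,
            by rw [abs_le]; constructor <;> linarith⟩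
        · exact ⟨hfin, by rw [abs_le]; constructor <;> linarith,
            by rw [abs_le]; constructor <;> linarith⟩)
  refine ⟨fun a => (Sum.elim (fun a => (⟨p a, hP a⟩ : {x : ℝ // |x| ≤ 1 / 4})) r a).1,
    fun a => (Sum.elim (fun a => (⟨p a, hP a⟩ : {x : ℝ // |x| ≤ 1 / 4})) r a).2, ?_⟩
  intro c hc
  unfold scale tower at hc
  rw [List.mem_append, List.mem_cons, List.mem_map] at hc
  rcases hc with (rfl | ⟨k, _, rfl⟩) | hc
  · simp [RCon.Strong, sL, hp, ell_zero]
  · simp [RCon.Strong, sL, hp, ell_succ]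
  · exact hr c hc

theorem scale_weak {q : ℕ} (l : List (PCon V)) (t : SV V → ℝ) (ht : ∀ c ∈ scale q l, c.Holds t) :
    ∃ y : V → ℝ, ∀ c ∈ l, c.Holds y := by
  unfold scale tower at ht
  simp only [List.mem_append, List.mem_cons, List.mem_map, List.mem_range] at ht
  have h0 : t (sL 0) = 1 / 4 := ht _ (Or.inl (Or.inl rfl))
  have hs : ∀ k < q, 4 * t (sL (k + 1)) = t (sL k) ^ 2 := fun k hk =>
    ht (RCon.sq (sL k) (sL (k + 1))) (Or.inl (Or.inr ⟨k, hk, rfl⟩))
  have hpos : ∀ k ≤ q, 0 < t (sL k) := by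
    intro k
    induction k with
    | zero => intro _; rw [h0]; norm_num
    | succ k ih =>
      intro hk
      have := hs k (by omega)
      have h1 := ih (by omega)
      have h2 : 0 < t (sL k) ^ 2 := by positivity
      linarith
  have hl : t (sL q) ≠ 0 := (hpos q le_rfl).ne'
  set lam := t (sL q) with hlam
  refine ⟨fun a => t (sT a) / lam, expand_forall (S' := RCon.Holds t)
    (fun c hc => ht c (Or.inr hc)) ?_⟩
  rintro (a | ⟨a, b, c⟩ | ⟨a, b, c⟩) j hj
  · simp only [pass4, List.mem_cons, List.not_mem_nil, or_false, forall_eq_or_imp, forall_eq,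
      RCon.Holds] at hj
    obtain ⟨h1, h2⟩ := hj
    simp only [PCon.Holds]
    rw [div_eq_one_iff_eq hl]; linarith
  · simp only [pass4, List.mem_cons, List.not_mem_nil, or_false, forall_eq_or_imp, forall_eq,
      RCon.Holds] at hj
    simp only [PCon.Holds]
    rw [← hj]; ring
  · simp only [pass4, List.mem_cons, List.not_mem_nil, or_false, forall_eq_or_imp, forall_eq,
      RCon.Holds] at hj
    obtain ⟨h1, h2, h3, h4, h5, h6, h7, h8, h9, h10, h11, h12⟩ := hj
    simp only [PCon.Holds]
    rw [← hlam] at h2 h7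
    have h13 : t (sT a) * t (sT b) = lam * t (sT c) := by
      rw [← h1] at h3
      rw [← h2] at h6
      linarith
    rw [div_mul_div_comm, h13]
    field_simp

end Pool.Agent.H69.UL
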