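import Mathlib
import Pool.Agent.H69.UL.Gates
import Pool.Agent.H69.UL.Scale

/-!
From formulas to finite graphs: correctness.
-/

set_option autoImplicit false

namespace Pool.Agent.H69.UL

/-- labels of the vertices of the unit linkage -/
abbrev VL (n : ℕ) := ((Lab (SV V5) × Off (n + 3)) ⊕ (ℕ × ℕ)) ⊕ (ℕ × ℕ)

instance decSV : DecidableEq (SV V5) := inferInstance
instance decLab : DecidableEq (Lab (SV V5)) := inferInstance
instance decP (n : ℕ) : DecidableEq (Lab (SV V5) × Off (n + 3)) := inferInstance
instance decP1 (n : ℕ) : DecidableEq ((Lab (SV V5) × Off (n + 3)) ⊕ (ℕ × ℕ)) := inferInstance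
instance decVL (n : ℕ) : DecidableEq (VL n) := inferInstance

/-- point constraints of an expression -/
def conList (n : ℕ) (l : List Sym) : List (Con (Lab (SV V5) × Off (n + 3))) :=
  frameC (n + 3) lO ++ expand (pass3 n) (scale (qb (pcs l).length) (pcs l))

/-- edges of the unit linkage of an expression -/
def rawEdges (n : ℕ) (l : List Sym) : List (VL n × VL n) :=
  expand (pass1 (n + 3)) (expand (pass2 (n + 3)) (conList n l))

theorem qb_pos (m : ℕ) : 1 ≤ qb m := by unfold qb; omega

theorem raw_iff (n : ℕ) (φ : Fml) : (∃ x, φ.Holds x) ↔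
    ∃ p : VL n → E (n + 3), ∀ e ∈ rawEdges n φ.symbols, EdgeSat p e := by
  rw [sat_iff_pcs]
  constructor
  · rintro ⟨Y, hY⟩
    obtain ⟨y, hy1, hy2⟩ := ball _ Y hY
    obtain ⟨t, ht1, ht2⟩ := scale_strong (qb_pos _) _ y hy1 hy2
    obtain ⟨p, hp⟩ := pass3_strong (n := n) ht1 ht2
    obtain ⟨r, hr⟩ := pass2_strong (by omega) _ p hp
    obtain ⟨r', hr'⟩ := pass1_strong (by omega) _ _ hr
    exact ⟨_, hr'⟩
  · rintro ⟨p, hp⟩
    have h1 := pass1_weak _ _ hp
    have h2 := pass2_weak (by omega) _ _ h1
    obtain ⟨t, ht⟩ := pass3_weak h2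
    exact scale_weak _ t ht

/-! ### relabelling -/

/-- the graph on `N` vertices given by a relation on numbers -/
def graphOf (N : ℕ) (R : ℕ → ℕ → Prop) : FinGraph :=
  ⟨N, SimpleGraph.fromRel fun u v => R u.val v.val⟩

/-- the matrix of `graphOf` -/
def matrixOf (N : ℕ) (R : ℕ → ℕ → Prop) [∀ u v, Decidable (R u v)] : List (List Bool) :=
  (List.range N).map fun u => (List.range N).map fun v => decide (u ≠ v ∧ (R u v ∨ R v u))

theorem adjMatrix_graphOf (N : ℕ) (R : ℕ → ℕ → Prop) [∀ u v, Decidable (R u v)] :
    adjMatrix (graphOf N R) = matrixOf N R := by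
  unfold adjMatrix matrixOf graphOf
  simp only
  rw [← List.map_coe_finRange_eq_range, List.map_map]
  apply List.map_congr_left
  intro u _
  simp only [Function.comp]
  rw [List.map_map]
  apply List.map_congr_left
  intro v _
  simp only [Function.comp, SimpleGraph.fromRel_adj, Fin.ext_iff, ne_eq]

section relabel

variable {Λ : Type} [DecidableEq Λ] {d : ℕ}

/-- all labels -/
def labelsOf (E : List (Λ × Λ)) : List Λ := E.flatMap fun e => [e.1, e.2]

/-- is there a loop -/
def hasLoop (E : List (Λ × Λ)) : Bool := E.any fun e => decide (e.1 = e.2)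

/-- number of vertices -/
def relN (d : ℕ) (E : List (Λ × Λ)) : ℕ := if hasLoop E = true then d + 2 else (labelsOf E).length

/-- adjacency -/
def relR (E : List (Λ × Λ)) (u v : ℕ) : Prop :=
  hasLoop E = true ∨ ∃ e ∈ E, (labelsOf E).idxOf e.1 = u ∧ (labelsOf E).idxOf e.2 = v

instance (E : List (Λ × Λ)) (u v : ℕ) : Decidable (relR E u v) := by unfold relR; infer_instance

theorem rel_iff (E : List (Λ × Λ)) :
    (∃ p : Λ → EuclideanSpace ℝ (Fin d), ∀ e ∈ E, EdgeSat p e) ↔
      (UnitLinkage d).Yes (graphOf (relN d E) (relR E)) := by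
  show _ ↔ ∃ p : Fin (relN d E) → EuclideanSpace ℝ (Fin d),
    ∀ u v, (SimpleGraph.fromRel fun u v : Fin (relN d E) => relR E u.val v.val).Adj u v →
      dist (p u) (p v) = 1
  by_cases hl : hasLoop E = true
  · have hN : relN d E = d + 2 := by unfold relN; rw [if_pos hl]
    constructor
    · rintro ⟨p, hp⟩
      exfalso
      unfold hasLoop at hl
      rw [List.any_eq_true] at hl
      obtain ⟨e, he, h⟩ := hl
      have h1 := hp e he
      unfold EdgeSat at h1
      rw [of_decide_eq_true h, dsq_self] at h1
      norm_num at h1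
    · rintro ⟨p, hp⟩
      exfalso
      refine no_simplex (d := d) (fun i => p (i.cast hN.symm)) (fun i j hij => ?_)
      rw [← dist_eq_one_iff]
      apply hp
      rw [SimpleGraph.fromRel_adj]
      refine ⟨fun h => hij ?_, Or.inl (Or.inl hl)⟩
      exact Fin.cast_injective _ h
  · have hN : relN d E = (labelsOf E).length := by unfold relN; rw [if_neg hl]
    have hmem1 : ∀ e ∈ E, e.1 ∈ labelsOf E := fun e he =>
      List.mem_flatMap.mpr ⟨e, he, by simp⟩
    have hmem2 : ∀ e ∈ E, e.2 ∈ labelsOf E := fun e he =>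
      List.mem_flatMap.mpr ⟨e, he, by simp⟩
    constructor
    · rintro ⟨p, hp⟩
      refine ⟨fun u => p ((labelsOf E).get (u.cast hN)), fun u v huv => ?_⟩
      rw [SimpleGraph.fromRel_adj] at huv
      have key : ∀ u v : Fin (relN d E), relR E u.val v.val →
          dsq (p ((labelsOf E).get (u.cast hN))) (p ((labelsOf E).get (v.cast hN))) = 1 := by
        rintro u v (h | ⟨e, he, h1, h2⟩)
        · exact absurd h hl
        · have h3 := hp e he
          unfold EdgeSat at h3
          have e1 : (labelsOf E).get (u.cast hN) = e.1 := by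
            rw [List.get_eq_getElem]
            simp only [Fin.val_cast, ← h1]
            exact List.getElem_idxOf (List.idxOf_lt_length_of_mem (hmem1 e he))
          have e2 : (labelsOf E).get (v.cast hN) = e.2 := by
            rw [List.get_eq_getElem]
            simp only [Fin.val_cast, ← h2]
            exact List.getElem_idxOf (List.idxOf_lt_length_of_mem (hmem2 e he))
          rw [e1, e2]; exact h3
      rw [dist_eq_one_iff]
      rcases huv.2 with h | h
      · exact key u v h
      · rw [dsq_comm]; exact key v u h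
    · rintro ⟨P, hP⟩
      refine ⟨fun a => if h : (labelsOf E).idxOf a < relN d E then P ⟨(labelsOf E).idxOf a, h⟩
        else 0, fun e he => ?_⟩
      have h1 : (labelsOf E).idxOf e.1 < relN d E := by
        rw [hN]; exact List.idxOf_lt_length_of_mem (hmem1 e he)
      have h2 : (labelsOf E).idxOf e.2 < relN d E := by
        rw [hN]; exact List.idxOf_lt_length_of_mem (hmem2 e he)
      unfold EdgeSat
      simp only [h1, h2, dite_true]
      rw [← dist_eq_one_iff]
      apply hP
      rw [SimpleGraph.fromRel_adj]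
      refine ⟨fun h => ?_, Or.inl (Or.inr ⟨e, he, rfl, rfl⟩)⟩
      have h3 : (labelsOf E).idxOf e.1 = (labelsOf E).idxOf e.2 := congrArg Fin.val h
      have h4 : e.1 = e.2 := by
        have e1 := List.getElem_idxOf (List.idxOf_lt_length_of_mem (hmem1 e he))
        have e2 := List.getElem_idxOf (List.idxOf_lt_length_of_mem (hmem2 e he))
        rw [← e1, ← e2]
        congr 1
      apply hl
      unfold hasLoop
      rw [List.any_eq_true]
      exact ⟨e, he, decide_eq_true h4⟩

end relabel

/-- the reduction -/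
def redGraph (n : ℕ) (φ : Fml) : FinGraph :=
  graphOf (relN (n + 3) (rawEdges n φ.symbols)) (relR (rawEdges n φ.symbols))

theorem redGraph_correct (n : ℕ) (φ : Fml) :
    ETR.Yes φ ↔ (UnitLinkage (n + 3)).Yes (redGraph n φ) := by
  unfold redGraph
  rw [← rel_iff]
  exact raw_iff n φ

end Pool.Agent.H69.UL
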