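import Mathlib
import Pool.Agent.H69.UL.Chain

/-!
The reduction is computable in polynomial time, part 1: encodings and the geometric passes.
-/

set_option autoImplicit false

namespace Pool.Agent.H69.UL

open Pool.Agent.H80.Poly

section basic

variable {Γ α β δ : Type} [BEnc Γ] [BEnc α] [BEnc β]

theorem pt_flatMap_fixed (l : List δ) {g : δ → Γ → List β} (h : ∀ d ∈ l, PolyTime (g d)) :
    PolyTime (fun a => l.flatMap (fun d => g d a)) := by
  induction l with
  | nil => exact PolyTime.const []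
  | cons d l ih =>
    exact ((h d List.mem_cons_self).append (ih (fun e he => h e (List.mem_cons_of_mem _ he)))).congr
      (fun a => by rw [List.flatMap_cons])

theorem pt_single {f : Γ → β} (hf : PolyTime f) : PolyTime (fun a => [f a]) :=
  hf.cons (PolyTime.const [])

theorem pt_inl {f : Γ → α} (hf : PolyTime f) : PolyTime (fun a => (Sum.inl (f a) : α ⊕ β)) :=
  PolyTime.inl'.comp hf

theorem pt_inr {f : Γ → β} (hf : PolyTime f) : PolyTime (fun a => (Sum.inr (f a) : α ⊕ β)) :=
  PolyTime.inr'.comp hf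

theorem pt_ite_const {P : Prop} [Decidable P] {f g : Γ → β} (hf : P → PolyTime f)
    (hg : ¬ P → PolyTime g) : PolyTime (fun a => if P then f a else g a) := by
  by_cases h : P
  · exact (hf h).congr (fun a => by rw [if_pos h])
  · exact (hg h).congr (fun a => by rw [if_neg h])

/-- expansion of a list of constraints -/
theorem pt_expand {l : Γ → List α} {g : Γ × (α × ℕ) → List β} (hl : PolyTime l)
    (hg : PolyTime g) : PolyTime (fun a => expand (fun z => g (a, z)) (l a)) :=
  hl.zipIdx.flatMap hg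

theorem pt_expand' {l : Γ → List α} {g : α × ℕ → List β} (hl : PolyTime l)
    (hg : PolyTime g) : PolyTime (fun a => expand g (l a)) :=
  pt_expand (g := fun w => g w.2) hl (hg.comp (PolyTime.id (α := Γ × (α × ℕ))).snd)

end basic

/-! ### encodings of constraints -/

section encodings

variable {Γ α β : Type} [BEnc Γ] [BEnc α] [BEnc β]

/-- constraints as a sum type -/
def Con1.toSum : Con1 α → (α × α) ⊕ (α × α)
  | Con1.unit a b => Sum.inl (a, b)
  | Con1.far a b => Sum.inr (a, b)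

theorem Con1.toSum_injective : Function.Injective (Con1.toSum : Con1 α → _) := by
  rintro (⟨a, b⟩ | ⟨a, b⟩) (⟨a', b'⟩ | ⟨a', b'⟩) h <;> simp_all [Con1.toSum]

instance : BEnc (Con1 α) := BEnc.ofInj Con1.toSum Con1.toSum_injective

/-- constraints as a sum type -/
def Con.toSum : Con α → (α × α) ⊕ ((α × α) ⊕ (α × α))
  | Con.unit a b => Sum.inl (a, b)
  | Con.diag a b => Sum.inr (Sum.inl (a, b))
  | Con.far a b => Sum.inr (Sum.inr (a, b))

theorem Con.toSum_injective : Function.Injective (Con.toSum : Con α → _) := by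
  rintro (⟨a, b⟩ | ⟨a, b⟩ | ⟨a, b⟩) (⟨a', b'⟩ | ⟨a', b'⟩ | ⟨a', b'⟩) h <;>
    simp_all [Con.toSum]

instance : BEnc (Con α) := BEnc.ofInj Con.toSum Con.toSum_injective

/-- constraints as a sum type -/
def RCon.toSum : RCon α → α ⊕ ((α × α × α) ⊕ (α × α))
  | RCon.quarter a => Sum.inl a
  | RCon.add a b c => Sum.inr (Sum.inl (a, b, c))
  | RCon.sq a b => Sum.inr (Sum.inr (a, b))

theorem RCon.toSum_injective : Function.Injective (RCon.toSum : RCon α → _) := by
  rintro (a | ⟨a, b, c⟩ | ⟨a, b⟩) (a' | ⟨a', b', c'⟩ | ⟨a', b'⟩) h <;>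
    simp_all [RCon.toSum]

instance : BEnc (RCon α) := BEnc.ofInj RCon.toSum RCon.toSum_injective

/-- constraints as a sum type -/
def PCon.toSum : PCon α → α ⊕ ((α × α × α) ⊕ (α × α × α))
  | PCon.one a => Sum.inl a
  | PCon.add a b c => Sum.inr (Sum.inl (a, b, c))
  | PCon.mul a b c => Sum.inr (Sum.inr (a, b, c))

theorem PCon.toSum_injective : Function.Injective (PCon.toSum : PCon α → _) := by
  rintro (a | ⟨a, b, c⟩ | ⟨a, b, c⟩) (a' | ⟨a', b', c'⟩ | ⟨a', b', c'⟩) h <;>
    simp_all [PCon.toSum]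

instance : BEnc (PCon α) := BEnc.ofInj PCon.toSum PCon.toSum_injective

theorem pt_unit1 {f g : Γ → α} (hf : PolyTime f) (hg : PolyTime g) :
    PolyTime (fun a => Con1.unit (f a) (g a)) :=
  (pt_inl (β := α × α) (hf.pair hg)).transfer (fun _ => rfl)
theorem pt_far1 {f g : Γ → α} (hf : PolyTime f) (hg : PolyTime g) :
    PolyTime (fun a => Con1.far (f a) (g a)) :=
  (pt_inr (α := α × α) (hf.pair hg)).transfer (fun _ => rfl)
theorem pt_unit {f g : Γ → α} (hf : PolyTime f) (hg : PolyTime g) :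
    PolyTime (fun a => Con.unit (f a) (g a)) :=
  (pt_inl (β := (α × α) ⊕ (α × α)) (hf.pair hg)).transfer (fun _ => rfl)
theorem pt_diag {f g : Γ → α} (hf : PolyTime f) (hg : PolyTime g) :
    PolyTime (fun a => Con.diag (f a) (g a)) :=
  (pt_inr (α := α × α) (pt_inl (β := α × α) (hf.pair hg))).transfer (fun _ => rfl)
theorem pt_far {f g : Γ → α} (hf : PolyTime f) (hg : PolyTime g) :
    PolyTime (fun a => Con.far (f a) (g a)) :=
  (pt_inr (α := α × α) (pt_inr (α := α × α) (hf.pair hg))).transfer (fun _ => rfl)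
theorem pt_quarter {f : Γ → α} (hf : PolyTime f) : PolyTime (fun a => RCon.quarter (f a)) :=
  (pt_inl (β := (α × α × α) ⊕ (α × α)) hf).transfer (fun _ => rfl)
theorem pt_radd {f g h : Γ → α} (hf : PolyTime f) (hg : PolyTime g) (hh : PolyTime h) :
    PolyTime (fun a => RCon.add (f a) (g a) (h a)) :=
  (pt_inr (α := α) (pt_inl (β := α × α) (hf.pair (hg.pair hh)))).transfer (fun _ => rfl)
theorem pt_rsq {f g : Γ → α} (hf : PolyTime f) (hg : PolyTime g) :
    PolyTime (fun a => RCon.sq (f a) (g a)) :=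
  (pt_inr (α := α) (pt_inr (α := α × α × α) (hf.pair hg))).transfer (fun _ => rfl)
theorem pt_one {f : Γ → α} (hf : PolyTime f) : PolyTime (fun a => PCon.one (f a)) :=
  (pt_inl (β := (α × α × α) ⊕ (α × α × α)) hf).transfer (fun _ => rfl)
theorem pt_add {f g h : Γ → α} (hf : PolyTime f) (hg : PolyTime g) (hh : PolyTime h) :
    PolyTime (fun a => PCon.add (f a) (g a) (h a)) :=
  (pt_inr (α := α) (pt_inl (β := α × α × α) (hf.pair (hg.pair hh)))).transfer (fun _ => rfl)
theorem pt_mul {f g h : Γ → α} (hf : PolyTime f) (hg : PolyTime g) (hh : PolyTime h) :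
    PolyTime (fun a => PCon.mul (f a) (g a) (h a)) :=
  (pt_inr (α := α) (pt_inr (α := α × α × α) (hf.pair (hg.pair hh)))).transfer (fun _ => rfl)

/-- case distinction over a constraint, with context -/
theorem pt_con1Case {F : Con1 α × Γ → β} {f g : (α × α) × Γ → β} (hf : PolyTime f)
    (hg : PolyTime g) (h1 : ∀ a b c, F (Con1.unit a b, c) = f ((a, b), c))
    (h2 : ∀ a b c, F (Con1.far a b, c) = g ((a, b), c)) : PolyTime F := by
  have e : PolyTime (fun z : Con1 α × Γ => (z.1.toSum, z.2)) := PolyTime.of_enc_eq (fun _ => rfl)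
  refine ((PolyTime.sumCase hf hg).comp e).congr ?_
  rintro ⟨⟨a, b⟩ | ⟨a, b⟩, c⟩
  · exact (h1 a b c).symm
  · exact (h2 a b c).symm

theorem pt_conCase {F : Con α × Γ → β} {f g h : (α × α) × Γ → β} (hf : PolyTime f)
    (hg : PolyTime g) (hh : PolyTime h) (h1 : ∀ a b c, F (Con.unit a b, c) = f ((a, b), c))
    (h2 : ∀ a b c, F (Con.diag a b, c) = g ((a, b), c))
    (h3 : ∀ a b c, F (Con.far a b, c) = h ((a, b), c)) : PolyTime F := by
  have e : PolyTime (fun z : Con α × Γ => (z.1.toSum, z.2)) := PolyTime.of_enc_eq (fun _ => rfl)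
  refine ((PolyTime.sumCase hf (PolyTime.sumCase hg hh)).comp e).congr ?_
  rintro ⟨⟨a, b⟩ | ⟨a, b⟩ | ⟨a, b⟩, c⟩
  · exact (h1 a b c).symm
  · exact (h2 a b c).symm
  · exact (h3 a b c).symm

theorem pt_rconCase {F : RCon α × Γ → β} {f : α × Γ → β} {g : (α × α × α) × Γ → β}
    {h : (α × α) × Γ → β} (hf : PolyTime f)
    (hg : PolyTime g) (hh : PolyTime h) (h1 : ∀ a c, F (RCon.quarter a, c) = f (a, c))
    (h2 : ∀ a b a' c, F (RCon.add a b a', c) = g ((a, b, a'), c))
    (h3 : ∀ a b c, F (RCon.sq a b, c) = h ((a, b), c)) : PolyTime F := by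
  have e : PolyTime (fun z : RCon α × Γ => (z.1.toSum, z.2)) := PolyTime.of_enc_eq (fun _ => rfl)
  refine ((PolyTime.sumCase hf (PolyTime.sumCase hg hh)).comp e).congr ?_
  rintro ⟨a | ⟨a, b, a'⟩ | ⟨a, b⟩, c⟩
  · exact (h1 a c).symm
  · exact (h2 a b a' c).symm
  · exact (h3 a b c).symm

theorem pt_pconCase {F : PCon α × Γ → β} {f : α × Γ → β} {g : (α × α × α) × Γ → β}
    {h : (α × α × α) × Γ → β} (hf : PolyTime f)
    (hg : PolyTime g) (hh : PolyTime h) (h1 : ∀ a c, F (PCon.one a, c) = f (a, c))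
    (h2 : ∀ a b a' c, F (PCon.add a b a', c) = g ((a, b, a'), c))
    (h3 : ∀ a b a' c, F (PCon.mul a b a', c) = h ((a, b, a'), c)) : PolyTime F := by
  have e : PolyTime (fun z : PCon α × Γ => (z.1.toSum, z.2)) := PolyTime.of_enc_eq (fun _ => rfl)
  refine ((PolyTime.sumCase hf (PolyTime.sumCase hg hh)).comp e).congr ?_
  rintro ⟨a | ⟨a, b, a'⟩ | ⟨a, b, a'⟩, c⟩
  · exact (h1 a c).symm
  · exact (h2 a b a' c).symm
  · exact (h3 a b a' c).symm

end encodings

/-! ### the passes to unit edges -/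

section passes

variable {Γ α : Type} [BEnc Γ] [BEnc α]

theorem pt_farG (d : ℕ) {a b : Γ → α} {j : Γ → ℕ} (ha : PolyTime a) (hb : PolyTime b)
    (hj : PolyTime j) : PolyTime (fun c => farG d (a c) (b c) (j c)) := by
  unfold farG
  have hv : ∀ k : ℕ, PolyTime (fun c => (Sum.inr (j c, k) : α ⊕ (ℕ × ℕ))) := fun k =>
    pt_inr (hj.pair (PolyTime.const k))
  refine ((pt_inl hb).pair (hv 0)).cons (pt_flatMap_fixed _ fun i _ => ?_)
  refine PolyTime.append ?_ ?_
  · exact pt_ite_const (fun _ => PolyTime.const _) (fun _ => pt_single ((pt_inl ha).pair (hv i)))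
  · refine pt_flatMap_fixed _ fun k _ => ?_
    exact pt_ite_const (fun _ => pt_single ((hv i).pair (hv k))) (fun _ => PolyTime.const _)

theorem pt_pass1 (d : ℕ) : PolyTime (pass1 d : Con1 α × ℕ → _) := by
  have hw : PolyTime (fun w : (α × α) × ℕ => w) := PolyTime.id
  refine pt_con1Case (f := fun w => [(Sum.inl w.1.1, Sum.inl w.1.2)])
    (g := fun w => farG d w.1.1 w.1.2 w.2) ?_ ?_ (fun _ _ _ => rfl) (fun _ _ _ => rfl)
  · exact pt_single ((pt_inl hw.fst.fst).pair (pt_inl hw.fst.snd))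
  · exact pt_farG d hw.fst.fst hw.fst.snd hw.snd

theorem pt_crossPt {a b : Γ → α} {j : Γ → ℕ} (ha : PolyTime a) (hb : PolyTime b)
    (hj : PolyTime j) (i : ℕ) (s : Bool) : PolyTime (fun c => crossPt (a c) (b c) (j c) i s) := by
  unfold crossPt
  exact pt_ite_const (fun _ => pt_ite_const (fun _ => pt_inl ha) (fun _ => pt_inl hb))
    (fun _ => pt_inr (hj.pair (PolyTime.const _)))

theorem pt_crossG (d : ℕ) {a b : Γ → α} {j : Γ → ℕ} (ha : PolyTime a) (hb : PolyTime b)
    (hj : PolyTime j) : PolyTime (fun c => crossG d (a c) (b c) (j c)) := by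
  unfold crossG
  have hv := fun i s => pt_crossPt ha hb hj i s
  refine pt_flatMap_fixed _ fun i _ => ?_
  refine (pt_far1 (hv i true) (hv i false)).cons (pt_flatMap_fixed _ fun k _ => ?_)
  exact pt_ite_const (fun _ => (pt_unit1 (hv i true) (hv k true)).cons
    ((pt_unit1 (hv i true) (hv k false)).cons ((pt_unit1 (hv i false) (hv k true)).cons
    (pt_single (pt_unit1 (hv i false) (hv k false)))))) (fun _ => PolyTime.const _)

theorem pt_pass2 (d : ℕ) : PolyTime (pass2 d : Con α × ℕ → _) := by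
  have hw : PolyTime (fun w : (α × α) × ℕ => w) := PolyTime.id
  refine pt_conCase (f := fun w => [Con1.unit (Sum.inl w.1.1) (Sum.inl w.1.2)])
    (g := fun w => crossG d w.1.1 w.1.2 w.2)
    (h := fun w => [Con1.far (Sum.inl w.1.1) (Sum.inl w.1.2)]) ?_ ?_ ?_
    (fun _ _ _ => rfl) (fun _ _ _ => rfl) (fun _ _ _ => rfl)
  · exact pt_single (pt_unit1 (pt_inl hw.fst.fst) (pt_inl hw.fst.snd))
  · exact pt_crossG d hw.fst.fst hw.fst.snd hw.snd
  · exact pt_single (pt_far1 (pt_inl hw.fst.fst) (pt_inl hw.fst.snd))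

end passes

/-! ### framed points -/

section framed

variable {Γ α : Type} [BEnc Γ] [BEnc α]

theorem pt_off {d : ℕ} {v : Γ → α} (hv : PolyTime v) (o : Off d) :
    PolyTime (fun c => ((v c, o) : α × Off d)) := hv.pair (PolyTime.const o)

theorem pt_frameC (d : ℕ) {v : Γ → α} (hv : PolyTime v) : PolyTime (fun c => frameC d (v c)) := by
  unfold frameC
  refine pt_flatMap_fixed _ fun i _ => ?_
  refine PolyTime.append ?_ ?_
  · exact (pt_unit (pt_off hv none) (pt_off hv (some (i, true)))).cons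
      ((pt_unit (pt_off hv none) (pt_off hv (some (i, false)))).cons
      (pt_single (pt_far (pt_off hv (some (i, true))) (pt_off hv (some (i, false))))))
  · refine pt_flatMap_fixed _ fun k _ => ?_
    refine pt_ite_const (fun _ => PolyTime.const _) (fun _ => ?_)
    exact (pt_diag (pt_off hv (some (i, true))) (pt_off hv (some (k, true)))).cons
      ((pt_diag (pt_off hv (some (i, true))) (pt_off hv (some (k, false)))).cons
      (pt_single (pt_diag (pt_off hv (some (i, false))) (pt_off hv (some (k, false))))))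

theorem pt_edgeC (d : ℕ) {u v : Γ → α} (hu : PolyTime u) (hv : PolyTime v) :
    PolyTime (fun c => edgeC d (u c) (v c)) := by
  unfold edgeC
  refine (pt_frameC d hu).append ((pt_frameC d hv).append
    ((pt_unit (pt_off hu none) (pt_off hv none)).cons (pt_flatMap_fixed _ fun i _ => ?_)))
  exact (pt_unit (pt_off hu (some (i, true))) (pt_off hv (some (i, true)))).cons
    (pt_single (pt_unit (pt_off hu (some (i, false))) (pt_off hv (some (i, false)))))

theorem pt_perpC (d : ℕ) (i : Fin d) {u v : Γ → α} (hu : PolyTime u) (hv : PolyTime v) :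
    PolyTime (fun c => perpC d i (u c) (v c)) :=
  (pt_diag (pt_off hv none) (pt_off hu (some (i, true)))).cons (pt_edgeC d hu hv)

theorem pt_eqC (d : ℕ) (i : Fin d) {u m v : Γ → α} (hu : PolyTime u) (hm : PolyTime m)
    (hv : PolyTime v) : PolyTime (fun c => eqC d i (u c) (m c) (v c)) :=
  (pt_perpC d i hu hm).append (pt_perpC d i hv hm)

end framed

/-! ### rails -/

section rails

variable {Γ V : Type} [BEnc Γ] [BEnc V]

theorem pt_lX {a : Γ → V} (ha : PolyTime a) : PolyTime (fun c => lX (a c)) :=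
  pt_inl (PolyTime.some (ha.pair (PolyTime.const 0)))
theorem pt_lZ {a : Γ → V} (ha : PolyTime a) : PolyTime (fun c => lZ (a c)) :=
  pt_inl (PolyTime.some (ha.pair (PolyTime.const 1)))
theorem pt_lM {a : Γ → V} (ha : PolyTime a) (i : ℕ) : PolyTime (fun c => lM (a c) i) :=
  pt_inl (PolyTime.some (ha.pair (PolyTime.const (i + 2))))
theorem pt_lF {j : Γ → ℕ} (hj : PolyTime j) (k : ℕ) : PolyTime (fun c => (lF (j c) k : Lab V)) :=
  pt_inr (hj.pair (PolyTime.const k))
theorem pt_lO : PolyTime (fun _ : Γ => (lO : Lab V)) := PolyTime.const _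

theorem pt_railC (n : ℕ) {a : Γ → V} (ha : PolyTime a) : PolyTime (fun c => railC n (a c)) := by
  unfold railC
  refine PolyTime.append ?_ (PolyTime.append ?_ ?_)
  · refine pt_flatMap_fixed _ fun i _ => ?_
    exact pt_ite_const (fun _ => PolyTime.const _)
      (fun _ => pt_eqC _ i pt_lO (pt_lM ha i) (pt_lX ha))
  · exact pt_eqC _ 0 (pt_lX ha) (pt_lM ha 0) (pt_lZ ha)
  · exact (pt_diag (pt_off (pt_lZ ha) none) (pt_off pt_lO (some (0, true)))).cons
      (pt_single (pt_diag (pt_off (pt_lZ ha) none) (pt_off pt_lO (some (1, true)))))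

theorem pt_quarterG (n : ℕ) {a : Γ → V} {j : Γ → ℕ} (ha : PolyTime a) (hj : PolyTime j) :
    PolyTime (fun c => quarterG n (a c) (j c)) := by
  unfold quarterG
  refine (pt_railC n ha).append (PolyTime.append ?_ ?_)
  · exact pt_eqC _ 0 (pt_lX ha) (pt_lF hj 1) (pt_lF hj 0)
  · exact (pt_unit (pt_off (pt_lF hj 0) none) (pt_off pt_lO (some (0, true)))).cons
      (pt_single (pt_diag (pt_off (pt_lF hj 0) none) (pt_off pt_lO (some (0, false)))))

theorem pt_addG (n : ℕ) {a b c : Γ → V} {j : Γ → ℕ} (ha : PolyTime a) (hb : PolyTime b)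
    (hc : PolyTime c) (hj : PolyTime j) : PolyTime (fun z => addG n (a z) (b z) (c z) (j z)) := by
  unfold addG
  refine (pt_railC n ha).append ((pt_railC n hb).append ((pt_railC n hc).append
    ((pt_edgeC _ (pt_lX ha) (pt_lF hj 0)).append ((pt_eqC _ 0 (pt_lF hj 0) (pt_lF hj 2)
      (pt_lF hj 1)).append ?_))))
  exact (pt_unit (pt_off (pt_lF hj 0) none) (pt_off (pt_lX hb) (some (0, true)))).cons
    ((pt_far (pt_off (pt_lX ha) none) (pt_off (pt_lX hb) (some (0, true)))).cons
    ((pt_unit (pt_off (pt_lF hj 1) none) (pt_off (pt_lX hc) none)).cons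
    ((pt_unit (pt_off (pt_lF hj 1) none) (pt_off pt_lO (some (0, true)))).cons
    (pt_single (pt_far (pt_off (pt_lX hc) none) (pt_off pt_lO (some (0, true))))))))

theorem pt_sqG (n : ℕ) {a b : Γ → V} {j : Γ → ℕ} (ha : PolyTime a) (hb : PolyTime b)
    (hj : PolyTime j) : PolyTime (fun z => sqG n (a z) (b z) (j z)) := by
  unfold sqG
  refine (pt_railC n ha).append ((pt_railC n hb).append
    ((pt_eqC _ 1 (pt_lZ hb) (pt_lF hj 2) (pt_lF hj 0)).append
    ((pt_eqC _ 0 (pt_lX ha) (pt_lF hj 3) (pt_lF hj 0)).append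
    ((pt_eqC _ 0 pt_lO (pt_lF hj 4) (pt_lF hj 1)).append (PolyTime.append ?_ ?_)))))
  · refine pt_flatMap_fixed _ fun i _ => ?_
    exact pt_ite_const (fun _ => PolyTime.const _)
      (fun _ => pt_eqC _ i (pt_lF hj 0) (pt_lF hj (i + 5)) (pt_lF hj 1))
  · exact (pt_diag (pt_off (pt_lF hj 0) none) (pt_off pt_lO (some (1, true)))).cons
      (pt_single (pt_diag (pt_off (pt_lF hj 1) none) (pt_off pt_lO (some (1, false)))))

theorem pt_pass3 (n : ℕ) : PolyTime (pass3 n : RCon V × ℕ → _) := by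
  have hw1 : PolyTime (fun w : V × ℕ => w) := PolyTime.id
  have hw2 : PolyTime (fun w : (V × V × V) × ℕ => w) := PolyTime.id
  have hw3 : PolyTime (fun w : (V × V) × ℕ => w) := PolyTime.id
  exact pt_rconCase (f := fun w => quarterG n w.1 w.2)
    (g := fun w => addG n w.1.1 w.1.2.1 w.1.2.2 w.2)
    (h := fun w => sqG n w.1.1 w.1.2 w.2)
    (pt_quarterG n hw1.fst hw1.snd)
    (pt_addG n hw2.fst.fst hw2.fst.snd.fst hw2.fst.snd.snd hw2.snd)
    (pt_sqG n hw3.fst.fst hw3.fst.snd hw3.snd)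
    (fun _ _ => rfl) (fun _ _ _ _ => rfl) (fun _ _ _ => rfl)

end rails

end Pool.Agent.H69.UL
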