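import Mathlib
import Pool.Agent.H69.UL.Poly1

/-!
The reduction is computable in polynomial time, part 2: scaling, nodes, scanning.
-/

set_option autoImplicit false

namespace Pool.Agent.H69.UL

open Pool.Agent.H80.Poly

/-! ### scaling -/

section scaling

variable {Γ V : Type} [BEnc Γ] [BEnc V]

theorem pt_sT {a : Γ → V} (ha : PolyTime a) : PolyTime (fun c => sT (a c)) :=
  pt_inl (pt_inl ha)
theorem pt_sL {k : Γ → ℕ} (hk : PolyTime k) : PolyTime (fun c => (sL (k c) : SV V)) :=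
  pt_inl (pt_inr hk)
theorem pt_sF {j : Γ → ℕ} (hj : PolyTime j) (k : ℕ) : PolyTime (fun c => (sF (j c) k : SV V)) :=
  pt_inr (hj.pair (PolyTime.const k))

theorem pt_tower {q : Γ → ℕ} (hq : PolyTime q) (bd : ∃ b, PB b ∧ ∀ a, q a ≤ b (size a)) :
    PolyTime (fun c => tower V (q c)) := by
  unfold tower
  have hw : PolyTime (fun w : Γ × ℕ => w) := PolyTime.id
  exact (pt_quarter (pt_sL (PolyTime.const 0))).cons ((PolyTime.range hq bd).map
    (g := fun w : Γ × ℕ => RCon.sq (sL w.2) (sL (w.2 + 1)))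
    (pt_rsq (pt_sL hw.snd) (pt_sL hw.snd.succ)))

theorem pt_pass4 : PolyTime (fun w : PCon V × (ℕ × ℕ) => pass4 w.2.2 (w.1, w.2.1)) := by
  have hw1 : PolyTime (fun w : V × (ℕ × ℕ) => w) := PolyTime.id
  have hw2 : PolyTime (fun w : (V × V × V) × (ℕ × ℕ) => w) := PolyTime.id
  refine pt_pconCase
    (f := fun w => [RCon.add (sF w.2.1 0) (sF w.2.1 0) (sF w.2.1 0),
      RCon.add (sT w.1) (sF w.2.1 0) (sL w.2.2)])
    (g := fun w => [RCon.add (sT w.1.1) (sT w.1.2.1) (sT w.1.2.2)])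
    (h := fun w => pass4 w.2.2 (PCon.mul w.1.1 w.1.2.1 w.1.2.2, w.2.1)) ?_ ?_ ?_
    (fun _ _ => rfl) (fun _ _ _ _ => rfl) (fun _ _ _ _ => rfl)
  · have hf := fun k => pt_sF (V := V) hw1.snd.fst k
    exact (pt_radd (hf 0) (hf 0) (hf 0)).cons
      (pt_single (pt_radd (pt_sT hw1.fst) (hf 0) (pt_sL hw1.snd.snd)))
  · exact pt_single (pt_radd (pt_sT hw2.fst.fst) (pt_sT hw2.fst.snd.fst) (pt_sT hw2.fst.snd.snd))
  · have hf := fun k => pt_sF (V := V) hw2.snd.fst k
    have ha := pt_sT hw2.fst.fst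
    have hb := pt_sT hw2.fst.snd.fst
    have hc := pt_sT hw2.fst.snd.snd
    have hl := pt_sL (V := V) hw2.snd.snd
    exact (pt_radd ha hb (hf 0)).cons ((pt_radd hl hc (hf 1)).cons ((pt_rsq (hf 0) (hf 2)).cons
      ((pt_rsq ha (hf 3)).cons ((pt_rsq hb (hf 4)).cons ((pt_rsq (hf 1) (hf 5)).cons
      ((pt_rsq hl (hf 6)).cons ((pt_rsq hc (hf 7)).cons ((pt_radd (hf 2) (hf 6) (hf 8)).cons
      ((pt_radd (hf 8) (hf 7) (hf 9)).cons ((pt_radd (hf 5) (hf 3) (hf 10)).cons
      (pt_single (pt_radd (hf 10) (hf 4) (hf 9)))))))))))))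

theorem pt_scale {q : Γ → ℕ} {l : Γ → List (PCon V)} (hq : PolyTime q)
    (bd : ∃ b, PB b ∧ ∀ a, q a ≤ b (size a)) (hl : PolyTime l) :
    PolyTime (fun c => scale (q c) (l c)) := by
  unfold scale
  refine (pt_tower hq bd).append ?_
  have hw : PolyTime (fun w : Γ × (PCon V × ℕ) => w) := PolyTime.id
  exact pt_expand (g := fun w : Γ × (PCon V × ℕ) => pass4 (q w.1) w.2) hl
    ((pt_pass4.comp (hw.snd.fst.pair (hw.snd.snd.pair (hq.comp hw.fst)))).congr (fun _ => rfl))

end scaling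

/-! ### nodes -/

section nodes

variable {Γ : Type} [BEnc Γ]

theorem pt_vx {i : Γ → ℕ} (hi : PolyTime i) : PolyTime (fun c => vx (i c)) := pt_inl (pt_inl hi)
theorem pt_vn {p : Γ → ℕ} (hp : PolyTime p) : PolyTime (fun c => vn (p c)) := pt_inl (pt_inr hp)
theorem pt_vf {j k : Γ → ℕ} (hj : PolyTime j) (hk : PolyTime k) :
    PolyTime (fun c => vf (j c) (k c)) := pt_inr (hj.pair hk)

theorem pt_toNat {z : Γ → ℤ} (hz : PolyTime z) : PolyTime (fun c => (z c).toNat) := by
  refine (PolyTime.ite (c := fun c => z c < 0) hz.isNeg (PolyTime.const 0) hz.natAbs).congr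
    (fun c => ?_)
  split_ifs with h
  · omega
  · omega

theorem pt_constG {z : Γ → ℤ} {y : Γ → V5} {j : Γ → ℕ} (hz : PolyTime z) (hy : PolyTime y)
    (hj : PolyTime j) : PolyTime (fun c => constG (z c) (y c) (j c)) := by
  unfold constG
  have hb : PolyTime (fun c => bitsOf (z c).natAbs) := PolyTime.bits hz.natAbs
  have hm : PolyTime (fun c => 2 * (bitsOf (z c).natAbs).length + 2) :=
    ((PolyTime.const 2).mul hb.length).add (PolyTime.const 2)
  have h1 := pt_vf hj (PolyTime.const 1)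
  have h2 := pt_vf hj (PolyTime.const 2)
  have hv := pt_vf hj hm
  refine (pt_one h1).cons ((pt_add hv hv hv).cons (PolyTime.cons ?_ ?_))
  · exact PolyTime.ite (c := fun c => z c < 0) hz.isNeg (pt_add hy h2 hv) (pt_add h2 hv hy)
  · have hw : PolyTime (fun w : Γ × (Bool × ℕ) => w) := PolyTime.id
    refine hb.zipIdx.flatMap (g := fun w : Γ × (Bool × ℕ) =>
      [PCon.add (vf (j w.1) (2 * w.2.2 + 4)) (vf (j w.1) (2 * w.2.2 + 4))
        (vf (j w.1) (2 * w.2.2 + 3)),
       PCon.add (vf (j w.1) (2 * w.2.2 + 3))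
        (if w.2.1 then vf (j w.1) 1 else vf (j w.1) (2 * (bitsOf (z w.1).natAbs).length + 2))
        (vf (j w.1) (2 * w.2.2 + 2))]) ?_
    have hj' := hj.comp hw.fst
    have hk : ∀ r : ℕ, PolyTime (fun w : Γ × (Bool × ℕ) => 2 * w.2.2 + r) := fun r =>
      ((PolyTime.const 2).mul hw.snd.snd).add (PolyTime.const r)
    have h4 := pt_vf hj' (hk 4)
    have h3 := pt_vf hj' (hk 3)
    have h2' := pt_vf hj' (hk 2)
    refine (pt_add h4 h4 h3).cons (pt_single (pt_add h3 ?_ h2'))
    exact PolyTime.ite (c := fun w : Γ × (Bool × ℕ) => w.2.1 = true)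
      (hw.snd.fst.congr (fun w => by simp)) (h1.comp hw.fst) (hv.comp hw.fst)

theorem pt_ltG {a b y : Γ → V5} {j : Γ → ℕ} (ha : PolyTime a) (hb : PolyTime b)
    (hy : PolyTime y) (hj : PolyTime j) : PolyTime (fun c => ltG (a c) (b c) (y c) (j c)) := by
  have hf : ∀ k, PolyTime (fun c => vf (j c) k) := fun k => pt_vf hj (PolyTime.const k)
  unfold ltG
  exact (pt_add (hf 0) ha hb).cons ((pt_one (hf 1)).cons ((pt_add (hf 2) (hf 2) (hf 2)).cons
    ((pt_mul hy hy hy).cons ((pt_add (hf 3) hy (hf 1)).cons ((pt_mul (hf 4) (hf 4) (hf 5)).cons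
    ((pt_mul (hf 0) (hf 5) (hf 6)).cons ((pt_add (hf 7) (hf 1) (hf 6)).cons
    ((pt_mul hy (hf 7) (hf 2)).cons ((pt_mul (hf 8) (hf 8) (hf 9)).cons
    ((pt_add (hf 0) (hf 9) (hf 10)).cons (pt_single (pt_mul (hf 3) (hf 10) (hf 2)))))))))))))

theorem pt_eqG {a b y : Γ → V5} {j : Γ → ℕ} (ha : PolyTime a) (hb : PolyTime b)
    (hy : PolyTime y) (hj : PolyTime j) : PolyTime (fun c => eqG (a c) (b c) (y c) (j c)) := by
  have hf : ∀ k, PolyTime (fun c => vf (j c) k) := fun k => pt_vf hj (PolyTime.const k)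
  unfold eqG
  exact (pt_add (hf 0) ha hb).cons ((pt_one (hf 1)).cons ((pt_add (hf 2) (hf 2) (hf 2)).cons
    ((pt_mul hy hy hy).cons ((pt_add (hf 3) hy (hf 1)).cons ((pt_mul hy (hf 0) (hf 2)).cons
    ((pt_mul (hf 0) (hf 4) (hf 5)).cons ((pt_add (hf 6) (hf 1) (hf 5)).cons
    (pt_single (pt_mul (hf 3) (hf 6) (hf 2))))))))))

theorem pt_nodeG : PolyTime nodeG := by
  have hw : PolyTime (fun w : Node × ℕ => w) := PolyTime.id
  have hk := hw.fst.snd.fst.fst
  have hz := hw.fst.snd.fst.snd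
  have hj := hw.snd
  have hp := pt_vn hw.fst.fst
  have ha := pt_vn hw.fst.snd.snd.fst
  have hb := pt_vn hw.fst.snd.snd.snd
  have hf : ∀ k, PolyTime (fun w : Node × ℕ => vf w.2 k) := fun k => pt_vf hj (PolyTime.const k)
  have he : ∀ k : ℕ, PolyTime (fun w : Node × ℕ => decide (w.1.2.1.1 = k)) := fun k =>
    PolyTime.eq hk (PolyTime.const k)
  unfold nodeG
  refine PolyTime.ite (he 0) (pt_constG hz hp hj) ?_
  refine PolyTime.ite (he 1) ((pt_add (hf 0) (hf 0) (hf 0)).cons
    (pt_single (pt_add (pt_vx (pt_toNat hz)) (hf 0) hp))) ?_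
  refine PolyTime.ite (he 2) (pt_single (pt_add ha hb hp)) ?_
  refine PolyTime.ite (he 3) (pt_single (pt_mul ha hb hp)) ?_
  refine PolyTime.ite (he 4) (pt_eqG ha hb hp hj) ?_
  refine PolyTime.ite (he 5) (pt_ltG ha hb hp hj) ?_
  refine PolyTime.ite (he 6) ((pt_add (hf 11) hp (hf 1)).cons (pt_ltG hb ha (hf 11) hj)) ?_
  refine PolyTime.ite (he 7) ((pt_one (hf 0)).cons (pt_single (pt_add hp ha (hf 0)))) ?_
  refine PolyTime.ite (he 8) (pt_single (pt_mul ha hb hp)) ?_
  refine PolyTime.ite (he 9) ((pt_mul ha hb (hf 0)).cons ((pt_add ha hb (hf 1)).cons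
    (pt_single (pt_add hp (hf 0) (hf 1))))) ?_
  exact pt_single (pt_add hp hp hp)

/-! ### scanning -/

theorem pt_headD {l : Γ → List ℕ} (hl : PolyTime l) : PolyTime (fun c => (l c).headD 0) :=
  PolyTime.headD 0 hl

theorem pt_scanStep : PolyTime (fun w : (List ℕ × List Node) × (Sym × ℕ) => scanStep w.1 w.2) := by
  have hw : PolyTime (fun w : (List ℕ × List Node) × (Sym × ℕ) => w) := PolyTime.id
  have hk := hw.snd.fst.fst
  have hst := hw.fst.fst
  have hout := hw.fst.snd
  have hp := hw.snd.snd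
  have ht := hw.snd.fst
  unfold scanStep
  refine PolyTime.ite (c := fun w : (List ℕ × List Node) × (Sym × ℕ) => w.2.1.1 ≤ 1)
    (PolyTime.le hk (PolyTime.const 1)) ?_ ?_
  · exact (hp.cons hst).pair ((hp.pair (ht.pair (PolyTime.const (0, 0)))).cons hout)
  refine PolyTime.ite (c := fun w : (List ℕ × List Node) × (Sym × ℕ) => w.2.1.1 = 7)
    (PolyTime.eq hk (PolyTime.const 7)) ?_ ?_
  · exact (hp.cons hst.tail).pair
      ((hp.pair (ht.pair ((pt_headD hst).pair (PolyTime.const 0)))).cons hout)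
  · exact (hp.cons hst.tail.tail).pair
      ((hp.pair (ht.pair ((pt_headD hst.tail).pair (pt_headD hst)))).cons hout)

theorem size_zero : size (0:ℕ) = 0 := by
  have := size_nat_le_self 0
  omega

theorem size_scanStep (s : List ℕ × List Node) (z : Sym × ℕ) :
    size (scanStep s z) ≤ size s + (8 * size z + 20) := by
  obtain ⟨st, out⟩ := s
  obtain ⟨t, p⟩ := z
  unfold scanStep
  simp only
  split_ifs with h1 h2
  · simp only [size_prod, size_cons, size_zero]
    omega
  · cases st with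
    | nil => simp only [size_prod, size_cons, List.tail_nil, List.headD_nil, size_zero]; omega
    | cons a st => simp only [size_prod, size_cons, List.tail_cons, List.headD_cons, size_zero]; omega
  · cases st with
    | nil =>
      simp only [size_prod, size_cons, List.tail_nil, List.headD_nil, size_zero]; omega
    | cons a st =>
      cases st with
      | nil =>
        simp only [size_prod, size_cons, List.tail_nil, List.tail_cons, List.headD_cons,
          List.headD_nil, size_zero]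
        omega
      | cons b st =>
        simp only [size_prod, size_cons, List.tail_cons, List.headD_cons]
        omega

theorem pt_scan {l : Γ → List Sym} (hl : PolyTime l) : PolyTime (fun c => scan (l c)) := by
  unfold scan
  have hw : PolyTime (fun w : Γ × (List ℕ × List Node) × (Sym × ℕ) => w) := PolyTime.id
  have h := PolyTime.foldl_add (σ := List ℕ × List Node) (l := fun c => (l c).zipIdx)
    (f := fun _ => ([], [])) (h := fun w : Γ × (List ℕ × List Node) × (Sym × ℕ) =>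
      scanStep w.2.1 w.2.2) hl.zipIdx (PolyTime.const _)
    (pt_scanStep.comp (hw.snd.fst.pair hw.snd.snd)) (by
      obtain ⟨bl, hbl, hbls⟩ := hl.zipIdx.size_le
      refine ⟨fun n => 8 * bl n + 20, ((PB.const 8).mul hbl).add (PB.const 20), ?_⟩
      intro a s x hx
      have h1 := size_scanStep s x
      have h2 := size_of_mem hx
      have h3 := hbls a
      simp only [size] at *
      omega)
  exact h.snd

theorem pt_pcs {l : Γ → List Sym} (hl : PolyTime l) : PolyTime (fun c => pcs (l c)) :=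
  (pt_one (pt_vn hl.length.pred)).cons (pt_expand' (pt_scan hl) pt_nodeG)

end nodes

/-! ### the whole list of edges -/

theorem pb_of_length {Γ β : Type} [BEnc Γ] [BEnc β] {l : Γ → List β} (hl : PolyTime l) :
    ∃ b, PB b ∧ ∀ a, (l a).length ≤ b (size a) := by
  obtain ⟨b, hb, h⟩ := hl.size_le
  exact ⟨b, hb, fun a => (length_le_size _).trans (h a)⟩

theorem pt_qb {Γ : Type} [BEnc Γ] {m : Γ → ℕ} (hm : PolyTime m) : PolyTime (fun c => qb (m c)) := by
  unfold qb
  exact (((PolyTime.const 135).mul (hm.pow 2)).add ((PolyTime.const 172).mul hm)).add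
    (PolyTime.const 57)

theorem pb_qb {Γ : Type} [BEnc Γ] {m : Γ → ℕ} (bd : ∃ b, PB b ∧ ∀ a, m a ≤ b (size a)) :
    ∃ b, PB b ∧ ∀ a, qb (m a) ≤ b (size a) := by
  obtain ⟨b, hb, h⟩ := bd
  refine ⟨fun n => 135 * b n ^ 2 + 172 * b n + 57,
    (((PB.const 135).mul (hb.pow 2)).add ((PB.const 172).mul hb)).add (PB.const 57), fun a => ?_⟩
  unfold qb
  have h1 := Nat.pow_le_pow_left (h a) 2
  have h2 := h a
  simp only
  omega

theorem pt_conList (n : ℕ) : PolyTime (fun l : List Sym => conList n l) := by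
  unfold conList
  have hl : PolyTime (fun l : List Sym => l) := PolyTime.id
  have hp := pt_pcs hl
  refine PolyTime.append (PolyTime.const _) (pt_expand' ?_ (pt_pass3 n))
  exact pt_scale (pt_qb hp.length) (pb_qb (pb_of_length hp)) hp

theorem pt_rawEdges (n : ℕ) : PolyTime (fun l : List Sym => rawEdges n l) :=
  pt_expand' (pt_expand' (pt_conList n) (pt_pass2 (n + 3))) (pt_pass1 (n + 3))

end Pool.Agent.H69.UL
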