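import Mathlib
import Pool.Agent.H69.UL.Poly2
import Pool.Agent.H90.Closed.Comp

/-!
Reductions between unit linkage realizability and the existential theory of the reals.
-/

set_option autoImplicit false

namespace Pool.Agent.H69.UL

open Pool.Agent.H80.Poly

/-- polynomial-time computability through encodings -/
theorem tm2_of_polyTime {α β A B : Type} [BEnc A] [BEnc B] {ea : α → List Bool}
    {eb : β → List Bool} {f : α → β} {g : A → B} (ia : α → A) (ib : β → B)
    (h1 : ∀ a, ea a = enc (ia a)) (h2 : ∀ b, eb b = enc (ib b)) (h : ∀ a, ib (f a) = g (ia a))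
    (hg : PolyTime g) : Nonempty (Turing.TM2ComputableInPolyTime ea eb f) := by
  obtain ⟨p, t, hp⟩ := hg.poly
  refine Prog.tm2 ea eb f p t (fun a => ?_)
  rw [h1 a, h2 (f a), h a]
  exact hp (ia a)

/-! ### the matrix of the constructed graph -/

section matrix

variable {Γ Λ : Type} [BEnc Γ] [BEnc Λ] [DecidableEq Λ]

theorem pt_labelsOf {E : Γ → List (Λ × Λ)} (hE : PolyTime E) :
    PolyTime (fun c => labelsOf (E c)) := by
  have hw : PolyTime (fun w : Γ × (Λ × Λ) => w) := PolyTime.id
  exact hE.flatMap (g := fun w : Γ × (Λ × Λ) => [w.2.1, w.2.2])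
    (hw.snd.fst.cons (pt_single hw.snd.snd))

theorem pt_hasLoop {E : Γ → List (Λ × Λ)} (hE : PolyTime E) :
    PolyTime (fun c => hasLoop (E c)) := by
  have hw : PolyTime (fun w : Γ × (Λ × Λ) => w) := PolyTime.id
  exact hE.any (g := fun w : Γ × (Λ × Λ) => decide (w.2.1 = w.2.2))
    (PolyTime.eq hw.snd.fst hw.snd.snd)

theorem pt_relN (d : ℕ) {E : Γ → List (Λ × Λ)} (hE : PolyTime E) :
    PolyTime (fun c => relN d (E c)) := by
  unfold relN
  exact PolyTime.ite (c := fun c => hasLoop (E c) = true) ((pt_hasLoop hE).congr (fun c => by simp))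
    (PolyTime.const _) (pt_labelsOf hE).length

theorem pb_relN (d : ℕ) {E : Γ → List (Λ × Λ)} (hE : PolyTime E) :
    ∃ b, PB b ∧ ∀ a, relN d (E a) ≤ b (size a) := by
  obtain ⟨b, hb, h⟩ := pb_of_length (pt_labelsOf hE)
  refine ⟨fun n => (d + 2) + b n, (PB.const _).add hb, fun a => ?_⟩
  have := h a
  unfold relN
  simp only
  split_ifs <;> omega

theorem pt_relR {E : Γ → List (Λ × Λ)} {u v : Γ → ℕ} (hE : PolyTime E) (hu : PolyTime u)
    (hv : PolyTime v) : PolyTime (fun c => decide (relR (E c) (u c) (v c))) := by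
  have hw : PolyTime (fun w : Γ × (Λ × Λ) => w) := PolyTime.id
  have hL := (pt_labelsOf hE).comp hw.fst
  have h1 : PolyTime (fun c => decide (hasLoop (E c) = true)) :=
    (pt_hasLoop hE).congr (fun c => by simp)
  have h2 : PolyTime (fun c => decide (∃ e ∈ E c, (labelsOf (E c)).idxOf e.1 = u c ∧
      (labelsOf (E c)).idxOf e.2 = v c)) :=
    PolyTime.existsMem (P := fun c e => (labelsOf (E c)).idxOf e.1 = u c ∧
      (labelsOf (E c)).idxOf e.2 = v c) hE
      (PolyTime.decAnd (PolyTime.eq (PolyTime.idxOf hL hw.snd.fst) (hu.comp hw.fst))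
        (PolyTime.eq (PolyTime.idxOf hL hw.snd.snd) (hv.comp hw.fst)))
  exact (PolyTime.decOr h1 h2).congr (fun c => decide_eq_decide.mpr Iff.rfl)

theorem pt_matrix (d : ℕ) {E : Γ → List (Λ × Λ)} (hE : PolyTime E) :
    PolyTime (fun c => matrixOf (relN d (E c)) (relR (E c))) := by
  unfold matrixOf
  have hw : PolyTime (fun w : Γ × ℕ => w) := PolyTime.id
  have hw2 : PolyTime (fun w : (Γ × ℕ) × ℕ => w) := PolyTime.id
  refine (PolyTime.range (pt_relN d hE) (pb_relN d hE)).map (g := fun w : Γ × ℕ =>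
    (List.range (relN d (E w.1))).map fun v =>
      decide (w.2 ≠ v ∧ (relR (E w.1) w.2 v ∨ relR (E w.1) v w.2))) ?_
  have hE1 := hE.comp hw.fst
  refine (PolyTime.range (pt_relN d hE1) (pb_relN d hE1)).map (g := fun w : (Γ × ℕ) × ℕ =>
      decide (w.1.2 ≠ w.2 ∧ (relR (E w.1.1) w.1.2 w.2 ∨ relR (E w.1.1) w.2 w.1.2))) ?_
  have hE2 := hE.comp hw2.fst.fst
  exact PolyTime.decAnd (PolyTime.decNot (PolyTime.eq hw2.fst.snd hw2.snd))
    (PolyTime.decOr (pt_relR hE2 hw2.fst.snd hw2.snd) (pt_relR hE2 hw2.snd hw2.fst.snd))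

end matrix

/-- The existential theory of the reals reduces to unit linkage realizability. -/
theorem etr_reduces (n : ℕ) : Reduces ETR (UnitLinkage (n + 3)) := by
  refine ⟨redGraph n, ?_, redGraph_correct n⟩
  refine tm2_of_polyTime (A := List Sym) (B := List (List Bool))
    (g := fun l => matrixOf (relN (n + 3) (rawEdges n l)) (relR (rawEdges n l)))
    Fml.symbols adjMatrix (fun _ => rfl) (fun _ => rfl) (fun φ => ?_)
    (pt_matrix (n + 3) (pt_rawEdges n))
  exact adjMatrix_graphOf _ _

/-! ### membership -/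

/-- the pairs of adjacent vertices -/
def edgesOf (M : List (List Bool)) : List (ℕ × ℕ) :=
  M.zipIdx.flatMap fun r => r.1.zipIdx.flatMap fun b => if b.1 = true then [(r.2, b.2)] else []

/-- sum of a list of terms -/
def sumT : List PTerm → PTerm
  | [] => PTerm.const 0
  | t :: l => PTerm.add t (sumT l)

/-- squared difference of two variables -/
def sqT (a b : ℕ) : PTerm :=
  PTerm.mul (PTerm.add (PTerm.var a) (PTerm.mul (PTerm.const (-1)) (PTerm.var b)))
    (PTerm.add (PTerm.var a) (PTerm.mul (PTerm.const (-1)) (PTerm.var b)))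

/-- the equation of an edge -/
def atomF (d : ℕ) (e : ℕ × ℕ) : Fml :=
  Fml.eq (sumT ((List.range d).map fun i => sqT (e.1 * d + i) (e.2 * d + i))) (PTerm.const 1)

/-- conjunction of a list of formulas -/
def conjF : List Fml → Fml
  | [] => Fml.eq (PTerm.const 0) (PTerm.const 0)
  | φ :: l => Fml.and φ (conjF l)

theorem eval_sumT (x : ℕ → ℝ) (l : List PTerm) :
    (sumT l).eval x = (l.map fun t => t.eval x).sum := by
  induction l with
  | nil => simp [sumT, PTerm.eval]
  | cons t l ih => simp [sumT, PTerm.eval, ih]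

theorem holds_conjF (x : ℕ → ℝ) (l : List Fml) : (conjF l).Holds x ↔ ∀ φ ∈ l, φ.Holds x := by
  induction l with
  | nil => simp [conjF, Fml.Holds]
  | cons φ l ih => simp [conjF, Fml.Holds, ih]

theorem sum_list_range (f : ℕ → ℝ) (d : ℕ) :
    ((List.range d).map f).sum = ∑ i ∈ Finset.range d, f i := by
  induction d with
  | zero => simp
  | succ d ih =>
    rw [List.range_succ, List.map_append, List.sum_append, ih, Finset.sum_range_succ]; simp

theorem holds_atomF (x : ℕ → ℝ) (d : ℕ) (e : ℕ × ℕ) : (atomF d e).Holds x ↔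
    ∑ i : Fin d, (x (e.1 * d + i) - x (e.2 * d + i)) ^ 2 = 1 := by
  unfold atomF
  simp only [Fml.Holds, eval_sumT, List.map_map, PTerm.eval]
  rw [Fin.sum_univ_eq_sum_range (fun i => (x (e.1 * d + i) - x (e.2 * d + i)) ^ 2) d,
    ← sum_list_range]
  have h : ((fun t => PTerm.eval x t) ∘ fun i => sqT (e.1 * d + i) (e.2 * d + i)) =
      fun i => (x (e.1 * d + i) - x (e.2 * d + i)) ^ 2 := by
    funext i
    simp only [Function.comp, sqT, PTerm.eval]
    push_cast
    ring
  rw [h]
  simp

/-- the formula of a graph -/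
noncomputable def embF (d : ℕ) (G : FinGraph) : Fml :=
  conjF ((edgesOf (adjMatrix G)).map (atomF d))

theorem mem_edgesOf (G : FinGraph) (u v : ℕ) : (u, v) ∈ edgesOf (adjMatrix G) ↔
    ∃ (hu : u < G.1) (hv : v < G.1), G.2.Adj ⟨u, hu⟩ ⟨v, hv⟩ := by
  classical
  unfold edgesOf
  simp only [List.mem_flatMap, Prod.exists, List.mem_zipIdx_iff_getElem?]
  constructor
  · rintro ⟨r, u', hr, b, v', hb, h⟩
    split_ifs at h with hbt
    · simp only [List.mem_singleton, Prod.mk.injEq] at h
      obtain ⟨rfl, rfl⟩ := h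
      subst hbt
      unfold adjMatrix at hr
      rw [List.getElem?_map, Option.map_eq_some_iff] at hr
      obtain ⟨a, ha, rfl⟩ := hr
      rw [List.getElem?_map, Option.map_eq_some_iff] at hb
      obtain ⟨c, hc, hcc⟩ := hb
      rw [List.getElem?_eq_some_iff] at ha hc
      obtain ⟨ha1, ha2⟩ := ha
      obtain ⟨hc1, hc2⟩ := hc
      rw [List.getElem_finRange] at ha2 hc2
      rw [List.length_finRange] at ha1 hc1
      refine ⟨ha1, hc1, ?_⟩
      have := of_decide_eq_true hcc
      rw [← ha2, ← hc2] at this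
      exact this
    · simp at h
  · rintro ⟨hu, hv, h⟩
    refine ⟨(List.finRange G.1).map fun v => decide (G.2.Adj ⟨u, hu⟩ v), u, ?_, true, v, ?_,
      by simp⟩
    · unfold adjMatrix
      rw [List.getElem?_map, Option.map_eq_some_iff]
      refine ⟨⟨u, hu⟩, ?_, ?_⟩
      · rw [List.getElem?_eq_some_iff]
        refine ⟨by rw [List.length_finRange]; exact hu, ?_⟩
        rw [List.getElem_finRange]; rfl
      · apply List.map_congr_left
        intro v _
        exact decide_eq_decide.mpr Iff.rfl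
    · rw [List.getElem?_map, Option.map_eq_some_iff]
      refine ⟨⟨v, hv⟩, ?_, decide_eq_true h⟩
      rw [List.getElem?_eq_some_iff]
      refine ⟨by rw [List.length_finRange]; exact hv, ?_⟩
      rw [List.getElem_finRange]; rfl

theorem emb_correct {d : ℕ} (hd : 0 < d) (G : FinGraph) :
    (UnitLinkage d).Yes G ↔ ETR.Yes (embF d G) := by
  show (∃ p : Fin G.1 → EuclideanSpace ℝ (Fin d), ∀ u v, G.2.Adj u v → dist (p u) (p v) = 1) ↔
    ∃ x, (embF d G).Holds x
  unfold embF
  simp only [holds_conjF, List.mem_map, forall_exists_index, and_imp, forall_apply_eq_imp_iff₂]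
  constructor
  · rintro ⟨p, hp⟩
    refine ⟨fun k => if h : k / d < G.1 then p ⟨k / d, h⟩ ⟨k % d, Nat.mod_lt _ hd⟩ else 0, ?_⟩
    rintro ⟨u, v⟩ huv
    obtain ⟨hu, hv, h⟩ := (mem_edgesOf G u v).mp huv
    rw [holds_atomF]
    have h1 := (dist_eq_one_iff _ _).mp (hp _ _ h)
    rw [dsq_eq_sum] at h1
    rw [← h1]
    refine Finset.sum_congr rfl fun i _ => ?_
    have key : ∀ w (hw : w < G.1), (if h : (w * d + i.val) / d < G.1 then
        p ⟨(w * d + i.val) / d, h⟩ ⟨(w * d + i.val) % d, Nat.mod_lt _ hd⟩ else 0) = p ⟨w, hw⟩ i := by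
      intro w hw
      have e1 : (w * d + i.val) / d = w := by
        rw [Nat.mul_comm, Nat.mul_add_div hd, Nat.div_eq_of_lt i.2, Nat.add_zero]
      have e2 : (w * d + i.val) % d = i.val := by
        rw [Nat.mul_comm, Nat.mul_add_mod, Nat.mod_eq_of_lt i.2]
      simp only [e1, e2, hw, dite_true]
    simp only
    rw [key u hu, key v hv]
  · rintro ⟨x, hx⟩
    refine ⟨fun u => WithLp.toLp 2 (fun i => x (u.val * d + i.val)), fun u v huv => ?_⟩
    have h1 := hx (u.val, v.val) ((mem_edgesOf G _ _).mpr ⟨u.2, v.2, huv⟩)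
    rw [holds_atomF] at h1
    rw [dist_eq_one_iff, dsq_eq_sum]
    exact h1

/-- symbols of the equation of an edge -/
def atomSym (d : ℕ) (e : ℕ × ℕ) : List Sym :=
  ((List.range d).flatMap fun i => [(1, ((e.1 * d + i : ℕ) : ℤ)), (0, -1),
    (1, ((e.2 * d + i : ℕ) : ℤ)), (3, 0), (2, 0), (1, ((e.1 * d + i : ℕ) : ℤ)), (0, -1),
    (1, ((e.2 * d + i : ℕ) : ℤ)), (3, 0), (2, 0), (3, 0)]) ++
    ((0, 0) :: (List.replicate d (2, 0) ++ [(0, 1), (4, 0)]))

theorem symbols_sumT (l : List PTerm) :
    (sumT l).symbols = l.flatMap PTerm.symbols ++ (0, 0) :: List.replicate l.length (2, 0) := by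
  induction l with
  | nil => simp [sumT, PTerm.symbols]
  | cons t l ih =>
    simp only [sumT, PTerm.symbols, ih, List.flatMap_cons, List.length_cons,
      List.replicate_succ', List.append_assoc, List.cons_append]

theorem symbols_atomF (d : ℕ) (e : ℕ × ℕ) : (atomF d e).symbols = atomSym d e := by
  unfold atomF atomSym
  simp only [Fml.symbols, symbols_sumT, PTerm.symbols, List.length_map, List.length_range,
    List.flatMap_map, sqT, List.append_assoc, List.cons_append, List.nil_append]

theorem symbols_conjF (l : List Fml) : (conjF l).symbols =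
    l.flatMap Fml.symbols ++ [(0, 0), (0, 0), (4, 0)] ++ l.map (fun _ => (8, 0)) := by
  induction l with
  | nil => simp [conjF, Fml.symbols, PTerm.symbols]
  | cons φ l ih =>
    have e : l.map (fun _ => ((8, 0) : Sym)) ++ [(8, 0)] = (8, 0) :: l.map (fun _ => (8, 0)) := by
      rw [List.map_const', ← List.replicate_succ', List.replicate_succ]
    simp only [conjF, Fml.symbols, ih, List.flatMap_cons, List.map_cons, List.append_assoc, e]

/-- symbols of the formula of a graph -/
def embSym (d : ℕ) (M : List (List Bool)) : List Sym :=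
  (edgesOf M).flatMap (atomSym d) ++ [(0, 0), (0, 0), (4, 0)] ++ (edgesOf M).map (fun _ => (8, 0))

theorem symbols_embF (d : ℕ) (G : FinGraph) :
    (embF d G).symbols = embSym d (adjMatrix G) := by
  unfold embF embSym
  rw [symbols_conjF, List.flatMap_map, List.map_map]
  simp only [symbols_atomF]
  rfl

theorem pt_edgesOf : PolyTime edgesOf := by
  have hM : PolyTime (fun M : List (List Bool) => M) := PolyTime.id
  have hw : PolyTime (fun w : List (List Bool) × (List Bool × ℕ) => w) := PolyTime.id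
  have hz : PolyTime (fun w : (List (List Bool) × (List Bool × ℕ)) × (Bool × ℕ) => w) :=
    PolyTime.id
  refine hM.zipIdx.flatMap (g := fun w : List (List Bool) × (List Bool × ℕ) =>
    w.2.1.zipIdx.flatMap fun b => if b.1 = true then [(w.2.2, b.2)] else []) ?_
  refine hw.snd.fst.zipIdx.flatMap (g := fun z : (List (List Bool) × (List Bool × ℕ)) × (Bool × ℕ) =>
    if z.2.1 = true then [(z.1.2.2, z.2.2)] else []) ?_
  exact PolyTime.ite (c := fun z : (List (List Bool) × (List Bool × ℕ)) × (Bool × ℕ) =>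
    z.2.1 = true) (hz.snd.fst.congr (fun w => by simp))
    (pt_single (hz.fst.snd.snd.pair hz.snd.snd)) (PolyTime.const _)

theorem pt_atomSym (d : ℕ) : PolyTime (atomSym d) := by
  have hw : PolyTime (fun e : ℕ × ℕ => e) := PolyTime.id
  unfold atomSym
  refine PolyTime.append (pt_flatMap_fixed _ fun i _ => ?_) (PolyTime.const _)
  have h1 : PolyTime (fun e : ℕ × ℕ => ((1, ((e.1 * d + i : ℕ) : ℤ)) : Sym)) :=
    (PolyTime.const 1).pair ((hw.fst.mul (PolyTime.const d)).add (PolyTime.const i)).natCast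
  have h2 : PolyTime (fun e : ℕ × ℕ => ((1, ((e.2 * d + i : ℕ) : ℤ)) : Sym)) :=
    (PolyTime.const 1).pair ((hw.snd.mul (PolyTime.const d)).add (PolyTime.const i)).natCast
  have hc : ∀ s : Sym, PolyTime (fun _ : ℕ × ℕ => s) := fun s => PolyTime.const s
  exact h1.cons ((hc _).cons (h2.cons ((hc _).cons ((hc _).cons (h1.cons ((hc _).cons (h2.cons
    ((hc _).cons ((hc _).cons (pt_single (hc _)))))))))))

theorem pt_embSym (d : ℕ) : PolyTime (embSym d) := by
  unfold embSym
  have hw : PolyTime (fun w : List (List Bool) × (ℕ × ℕ) => w) := PolyTime.id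
  exact PolyTime.append (PolyTime.append
    (pt_edgesOf.flatMap (g := fun w : List (List Bool) × (ℕ × ℕ) => atomSym d w.2)
      ((pt_atomSym d).comp hw.snd)) (PolyTime.const _))
    (pt_edgesOf.map (g := fun _ : List (List Bool) × (ℕ × ℕ) => ((8, 0) : Sym))
      (PolyTime.const _))

/-- Unit linkage realizability is in `∃ℝ`. -/
theorem unitLinkage_mem {d : ℕ} (hd : 0 < d) : UnitLinkage d ∈ ExistsR := by
  refine ⟨embF d, ?_, emb_correct hd⟩
  exact tm2_of_polyTime (A := List (List Bool)) (B := List Sym) (g := embSym d)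
    adjMatrix Fml.symbols (fun _ => rfl) (fun _ => rfl) (fun G => symbols_embF d G) (pt_embSym d)

/-- reductions compose -/
theorem Reduces.trans {P Q R : DecProblem} (h1 : Reduces P Q) (h2 : Reduces Q R) : Reduces P R := by
  obtain ⟨f, hf, hf'⟩ := h1
  obtain ⟨g, hg, hg'⟩ := h2
  exact ⟨g ∘ f, Pool.Agent.H90.Closed.Comp.comp hf hg, fun x => (hf' x).trans (hg' (f x))⟩

/-- Unit linkage realizability in dimension at least three is `∃ℝ`-complete. -/
theorem unitLinkage_complete {d : ℕ} (hd : 3 ≤ d) : ExistsRComplete (UnitLinkage d) := by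
  refine ⟨unitLinkage_mem (by omega), fun Q hQ => ?_⟩
  obtain ⟨n, rfl⟩ : ∃ n, d = n + 3 := ⟨d - 3, by omega⟩
  exact hQ.trans (etr_reduces n)

end Pool.Agent.H69.UL
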